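import Mathlib

/-!
Pseudo-division, and polynomials of minimal degree over a ring with a map to a field, that vanish at
an element.
-/

set_option autoImplicit false

namespace Pool.Agent.K1H69.DC

open Polynomial

/-- Pseudo-division. -/
lemma pseudo {M : Type} [CommRing M] (H : M[X]) (hn : 0 < H.natDegree) (Q : M[X]) :
    ∃ (j : ℕ) (G S : M[X]), C (H.leadingCoeff ^ j) * Q = H * G + S ∧
      S.natDegree < H.natDegree := by
  induction hd : Q.natDegree using Nat.strong_induction_on generalizing Q with
  | _ d ih =>
    by_cases hlt : Q.natDegree < H.natDegree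
    · exact ⟨0, 0, Q, by simp, hlt⟩
    · push Not at hlt
      set Q1 := C H.leadingCoeff * Q - H * (C Q.leadingCoeff * X ^ (Q.natDegree - H.natDegree))
        with hQ1
      have h1 : Q1.natDegree < Q.natDegree := by
        have hle : Q1.natDegree ≤ Q.natDegree := by
          refine (natDegree_sub_le _ _).trans (max_le ?_ ?_)
          · exact natDegree_C_mul_le _ _
          · refine natDegree_mul_le.trans ?_
            have := natDegree_C_mul_X_pow_le Q.leadingCoeff (Q.natDegree - H.natDegree)
            omega
        refine lt_of_le_of_ne hle fun he => ?_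
        have h2 : Q1.coeff Q.natDegree = 0 := by
          rw [hQ1, coeff_sub, coeff_C_mul, ← mul_assoc, mul_comm H (C _), mul_assoc, coeff_C_mul]
          have e : (H * X ^ (Q.natDegree - H.natDegree)).coeff Q.natDegree = H.leadingCoeff := by
            have h5 := coeff_mul_X_pow H (Q.natDegree - H.natDegree) H.natDegree
            rw [show H.natDegree + (Q.natDegree - H.natDegree) = Q.natDegree by omega] at h5
            exact h5
          rw [e, coeff_natDegree]
          ring
        have h3 : Q1 = 0 := by
          rw [← leadingCoeff_eq_zero, leadingCoeff, he, h2]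
        rw [h3, natDegree_zero] at he
        omega
      obtain ⟨j, G, S, h, hS⟩ := ih _ (hd ▸ h1) Q1 rfl
      refine ⟨j + 1, G + C (H.leadingCoeff ^ j) *
        (C Q.leadingCoeff * X ^ (Q.natDegree - H.natDegree)), S, ?_, hS⟩
      rw [pow_succ, C_mul]
      rw [hQ1] at h
      linear_combination h

section

variable {M k : Type} [CommRing M] [CommRing k] [IsDomain k] (f : M →+* k) (y : k)

omit [IsDomain k] in
/-- If no polynomial of degree less than `n`, with a leading coefficient that is not in the kernel,
vanishes at `y`, then the coefficients of the polynomials of degree less than `n` which vanish at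
`y` are in the kernel. -/
lemma coeffs_zero (n : ℕ) (h : ∀ H : M[X], H.natDegree < n → H.eval₂ f y = 0 →
    f H.leadingCoeff = 0) (Q : M[X]) (hQ : Q.natDegree < n) (hQ0 : Q.eval₂ f y = 0) (j : ℕ) :
    f (Q.coeff j) = 0 := by
  induction hd : Q.support.card using Nat.strong_induction_on generalizing Q with
  | _ d ih =>
    by_cases h0 : Q = 0
    · simp [h0]
    · have h1 := h Q hQ hQ0
      have h2 : (Q.eraseLead).eval₂ f y = 0 := by
        have := Q.eraseLead_add_monomial_natDegree_leadingCoeff
        have h3 := congrArg (eval₂ f y) this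
        rw [eval₂_add, eval₂_monomial, h1, zero_mul, add_zero, hQ0] at h3
        exact h3
      have h4 := ih _ (hd ▸ eraseLead_support_card_lt h0) Q.eraseLead
        (lt_of_le_of_lt (eraseLead_natDegree_le_aux) hQ) h2 rfl
      by_cases hj : j = Q.natDegree
      · subst hj
        exact h1
      · rwa [eraseLead_coeff_of_ne _ hj] at h4

/-- Either only the polynomials with coefficients in the kernel vanish at `y`, or there is a
polynomial `H` that vanishes at `y` such that its derivative does not and such that every polynomial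
that vanishes at `y` is a multiple of `H`, up to the leading coefficient of `H`, which is not in the
kernel, and coefficients in the kernel. -/
lemma dichotomy [CharZero k] : (∀ Q : M[X], Q.eval₂ f y = 0 → ∀ j, f (Q.coeff j) = 0) ∨
    ∃ H : M[X], H.eval₂ f y = 0 ∧ (derivative H).eval₂ f y ≠ 0 ∧ f H.leadingCoeff ≠ 0 ∧
      ∀ Q : M[X], Q.eval₂ f y = 0 → ∃ (j : ℕ) (G S : M[X]),
        C (H.leadingCoeff ^ j) * Q = H * G + S ∧ ∀ i, f (S.coeff i) = 0 := by
  classical
  by_cases hex : ∃ n : ℕ, ∃ H : M[X], H.natDegree = n ∧ H.eval₂ f y = 0 ∧ f H.leadingCoeff ≠ 0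
  · right
    obtain ⟨H, hHn, hH0, hHl⟩ := Nat.find_spec hex
    have hmin : ∀ H' : M[X], H'.natDegree < H.natDegree → H'.eval₂ f y = 0 →
        f H'.leadingCoeff = 0 := by
      intro H' hlt h0
      by_contra h1
      rw [hHn] at hlt
      exact Nat.find_min hex hlt ⟨H', rfl, h0, h1⟩
    have hpos : 0 < H.natDegree := by
      by_contra h0
      have h1 : H.natDegree = 0 := by omega
      rw [eq_C_of_natDegree_eq_zero h1, eval₂_C] at hH0
      apply hHl
      rw [leadingCoeff, h1, hH0]
    refine ⟨H, hH0, fun hd => ?_, hHl, fun Q hQ => ?_⟩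
    · have h1 := coeffs_zero f y H.natDegree hmin (derivative H)
        (natDegree_derivative_lt hpos.ne') hd (H.natDegree - 1)
      rw [coeff_derivative, Nat.sub_add_cancel hpos, map_mul] at h1
      rcases mul_eq_zero.1 h1 with h2 | h2
      · exact hHl h2
      · have h3 : f ((((H.natDegree - 1 : ℕ) : M)) + 1) = (((H.natDegree - 1 : ℕ) : k)) + 1 := by
          simp
        rw [h3] at h2
        exact Nat.cast_add_one_ne_zero _ h2
    · obtain ⟨j, G, S, h, hS⟩ := pseudo H hpos Q
      refine ⟨j, G, S, h, fun i => coeffs_zero f y H.natDegree hmin S hS ?_ i⟩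
      have h1 := congrArg (eval₂ f y) h
      rw [eval₂_mul, eval₂_add, eval₂_mul, hQ, hH0, mul_zero, zero_mul, zero_add] at h1
      exact h1.symm
  · left
    intro Q hQ j
    refine coeffs_zero f y (Q.natDegree + 1) (fun H _ h0 => ?_) Q (Nat.lt_succ_self _) hQ j
    by_contra h1
    exact hex ⟨_, H, rfl, h0, h1⟩

end

/-- Evaluation of polynomials in one more variable. -/
lemma aeval_cons {A0 C : Type} [CommRing A0] [CommRing C] [Algebra A0 C] {N : ℕ} (y : C)
    (s : Fin N → C) (Q : MvPolynomial (Fin (N + 1)) A0) :
    MvPolynomial.aeval (Fin.cons y s : Fin (N + 1) → C) Q =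
      (MvPolynomial.finSuccEquiv A0 N Q).eval₂ (MvPolynomial.aeval s : _ →ₐ[A0] C).toRingHom y := by
  induction Q using MvPolynomial.induction_on with
  | C c =>
    rw [MvPolynomial.aeval_C]
    have : MvPolynomial.finSuccEquiv A0 N (MvPolynomial.C c) = Polynomial.C (MvPolynomial.C c) := by
      have h1 := RingHom.congr_fun (MvPolynomial.finSuccEquiv_comp_C_eq_C (R := A0) N) c
      have h2 : (MvPolynomial.finSuccEquiv A0 N).symm (Polynomial.C (MvPolynomial.C c)) =
          MvPolynomial.C c := by simpa using h1
      rw [← h2, AlgEquiv.apply_symm_apply]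
    rw [this, eval₂_C]
    exact (MvPolynomial.aeval_C s c).symm
  | add P Q hP hQ => rw [map_add, map_add, eval₂_add, hP, hQ]
  | mul_X P i hP =>
    rw [map_mul, map_mul, eval₂_mul, hP, MvPolynomial.aeval_X]
    congr 1
    refine Fin.cases ?_ (fun j => ?_) i
    · rw [MvPolynomial.finSuccEquiv_X_zero, eval₂_X, Fin.cons_zero]
    · rw [MvPolynomial.finSuccEquiv_X_succ, eval₂_C, Fin.cons_succ]
      exact (MvPolynomial.aeval_X s j).symm

end Pool.Agent.K1H69.DC
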