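import Pool.Agent.K1H69.DC.Ev
import Pool.Agent.K1H69.DC.Alg

/-!
**Approximation of formal curves by algebraic points.** Let `T` be a tuple of power series. The tuples
of the values, at small `p`-adic numbers `s`, of polynomials close to `T` are close to tuples of
algebraic `p`-adic integers which satisfy all polynomial relations of `T`.
-/

set_option autoImplicit false

namespace Pool.Agent.K1H69.DC

open Finset

section hensel

variable {p : ℕ} [hp : Fact p.Prime]

/-- Hensel's lemma with a bound for the distance. -/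
lemma hensel_bound (F : Polynomial ℤ_[p]) (a : ℤ_[p]) {c d : ℝ} (hF : ‖F.eval a‖ ≤ c)
    (hD : ‖F.derivative.eval a‖ = d) (hd : 0 < d) (hc : c < d ^ 2) :
    ∃ z : ℤ_[p], F.eval z = 0 ∧ ‖z - a‖ ≤ c / d := by
  have h1 : ‖F.aeval a‖ < ‖F.derivative.aeval a‖ ^ 2 := by
    simp only [Polynomial.coe_aeval_eq_eval]
    rw [hD]
    exact lt_of_le_of_lt hF hc
  obtain ⟨z, hz, hza, -, -⟩ := hensels_lemma h1
  rw [Polynomial.coe_aeval_eq_eval] at hz
  rw [Polynomial.coe_aeval_eq_eval, hD] at hza
  refine ⟨z, hz, ?_⟩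
  obtain ⟨w, hw⟩ := F.binomExpansion a (z - a)
  rw [add_sub_cancel, hz] at hw
  have h2 : ‖w * (z - a)‖ < ‖F.derivative.eval a‖ := by
    rw [hD]
    exact lt_of_le_of_lt (norm_mul_le_right' _ le_rfl) hza
  have h3 : ‖F.derivative.eval a + w * (z - a)‖ = d := by
    rw [PadicInt.norm_add_eq_max_of_ne h2.ne', max_eq_left h2.le, hD]
  have h4 : (z - a) * (F.derivative.eval a + w * (z - a)) = -F.eval a := by
    linear_combination -hw
  have h5 : ‖z - a‖ * d = ‖F.eval a‖ := by
    rw [← h3, ← norm_mul, h4, norm_neg]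
  rw [le_div_iff₀ hd, h5]
  exact hF

/-- Roots of nonzero polynomials with algebraic coefficients are algebraic. -/
lemma alg_root (F : Polynomial ℚ_[p]) (hF : F ≠ 0) (hc : ∀ n, IsAlgebraic ℚ (F.coeff n))
    {z : ℚ_[p]} (hz : F.eval z = 0) : IsAlgebraic ℚ z := by
  let E := algebraicClosure ℚ ℚ_[p]
  have h1 : F ∈ Polynomial.lifts (algebraMap E ℚ_[p]) := by
    rw [Polynomial.lifts_iff_coeff_lifts]
    intro n
    exact ⟨⟨F.coeff n, mem_algebraicClosure_iff.2 (hc n)⟩, rfl⟩
  obtain ⟨G, hG⟩ := (Polynomial.mem_lifts _).1 h1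
  have h2 : IsAlgebraic E z := by
    refine ⟨G, ?_, ?_⟩
    · rintro rfl
      rw [Polynomial.map_zero] at hG
      exact hF hG.symm
    · rw [Polynomial.aeval_def, ← Polynomial.eval_map, hG, hz]
  have : Algebra.IsAlgebraic ℚ E := algebraicClosure.isAlgebraic ℚ ℚ_[p]
  exact h2.restrictScalars ℚ

lemma alg_aeval {A0 I : Type} [CommRing A0] [Algebra A0 ℤ_[p]]
    (hA0 : ∀ c : A0, IsAlgebraic ℚ ((algebraMap A0 ℤ_[p] c : ℤ_[p]) : ℚ_[p]))
    {x : I → ℤ_[p]} (hx : ∀ i, IsAlgebraic ℚ ((x i : ℤ_[p]) : ℚ_[p])) (Q : MvPolynomial I A0) :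
    IsAlgebraic ℚ ((MvPolynomial.aeval x Q : ℤ_[p]) : ℚ_[p]) := by
  induction Q using MvPolynomial.induction_on with
  | C c => rw [MvPolynomial.aeval_C]; exact hA0 c
  | add P Q hP hQ => rw [map_add, PadicInt.coe_add]; exact hP.add hQ
  | mul_X P i hP => rw [map_mul, MvPolynomial.aeval_X, PadicInt.coe_mul]; exact hP.mul (hx i)

end hensel

lemma exists_order {k : Type} [Field k] {F : PowerSeries k} (hF : F ≠ 0) :
    ∃ r, PowerSeries.coeff r F ≠ 0 ∧ ∀ n < r, PowerSeries.coeff n F = 0 := by
  classical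
  have h : ∃ n, PowerSeries.coeff n F ≠ 0 := by
    by_contra h
    push Not at h
    exact hF (PowerSeries.ext fun n => by rw [h n, map_zero])
  refine ⟨Nat.find h, Nat.find_spec h, fun n hn => ?_⟩
  by_contra h1
  exact Nat.find_min h hn h1

/-- **Approximation of formal curves by algebraic points.** -/
theorem approx {k : Type} [Field k] [CharZero k] {A0 : Type} [CommRing A0] [Algebra A0 k] (N : ℕ) :
    ∀ (T : Fin N → PowerSeries k) (m : ℕ), ∃ m', m ≤ m' ∧
      ∀ (p : ℕ) [Fact p.Prime] [Algebra A0 ℤ_[p]] (R : Type) [CommRing R] [Algebra A0 R]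
        (ρ : R →ₐ[A0] k) (ι : R →ₐ[A0] ℤ_[p]) (t : Fin N → Polynomial R),
        (∀ c : A0, IsAlgebraic ℚ ((algebraMap A0 ℤ_[p] c : ℤ_[p]) : ℚ_[p])) →
        Function.Injective ρ → Function.Injective ι →
        (∀ i, Near ρ.toRingHom m' (T i) (t i)) →
        ∃ δ : ℝ, 0 < δ ∧ ∀ s : ℤ_[p], s ≠ 0 → ‖s‖ < δ → ∃ x : Fin N → ℤ_[p],
          (∀ i, IsAlgebraic ℚ ((x i : ℤ_[p]) : ℚ_[p])) ∧
          (∀ i, ‖x i - (t i).eval₂ ι.toRingHom s‖ ≤ ‖s‖ ^ m) ∧
          ∀ Q : MvPolynomial (Fin N) A0, MvPolynomial.aeval T Q = 0 →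
            MvPolynomial.aeval x Q = 0 := by
  classical
  induction N with
  | zero =>
    intro T m
    refine ⟨m, le_rfl, fun p _ _ R _ _ ρ ι t hA0 hρ hι ht => ⟨1, one_pos, fun s _ _ =>
      ⟨fun i => i.elim0, fun i => i.elim0, fun i => i.elim0, fun Q hQ => ?_⟩⟩⟩
    rw [MvPolynomial.eq_C_of_isEmpty Q, MvPolynomial.aeval_C] at hQ ⊢
    rw [PowerSeries.algebraMap_apply, map_eq_zero_iff _ PowerSeries.C_injective] at hQ
    have h1 : algebraMap A0 R (MvPolynomial.coeff 0 Q) = 0 := by
      apply hρ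
      rw [ρ.commutes, hQ, map_zero]
    rw [← ι.commutes, h1, map_zero]
  | succ N ih =>
    intro T m
    have hchar : CharZero (PowerSeries k) :=
      charZero_of_injective_ringHom (f := PowerSeries.C) PowerSeries.C_injective
    set T' : Fin N → PowerSeries k := fun i => T i.succ with hT'
    have hT : (Fin.cons (T 0) T' : Fin (N + 1) → PowerSeries k) = T := Fin.cons_self_tail T
    rcases dichotomy (MvPolynomial.aeval T' : MvPolynomial (Fin N) A0 →ₐ[A0] _).toRingHom (T 0)
      with hA | ⟨H, hH0, hHd, hHl, hdiv⟩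
    · -- the transcendental case
      obtain ⟨m', hm', h⟩ := ih T' m
      refine ⟨m', hm', fun p _ _ R _ _ ρ ι t hA0 hρ hι ht => ?_⟩
      obtain ⟨δ, hδ, hx⟩ := h p R ρ ι (fun i => t i.succ) hA0 hρ hι (fun i => ht i.succ)
      refine ⟨δ, hδ, fun s hs0 hs => ?_⟩
      obtain ⟨x', hx1, hx2, hx3⟩ := hx s hs0 hs
      have hspos : 0 < ‖s‖ ^ m := by have := norm_pos_iff.2 hs0; positivity
      obtain ⟨n, hn⟩ := PadicInt.denseRange_natCast.exists_dist_lt
        ((t 0).eval₂ ι.toRingHom s) hspos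
      refine ⟨Fin.cons (n : ℤ_[p]) x', fun i => ?_, fun i => ?_, fun Q hQ => ?_⟩
      · refine Fin.cases ?_ (fun j => ?_) i
        · rw [Fin.cons_zero]
          have : ((n : ℤ_[p]) : ℚ_[p]) = algebraMap ℚ ℚ_[p] n := by simp
          rw [this]
          exact isAlgebraic_algebraMap _
        · rw [Fin.cons_succ]; exact hx1 j
      · refine Fin.cases ?_ (fun j => ?_) i
        · rw [Fin.cons_zero, norm_sub_rev, ← dist_eq_norm]; exact hn.le
        · rw [Fin.cons_succ]; exact hx2 j
      · rw [← hT, aeval_cons] at hQ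
        have h1 := hA _ hQ
        rw [aeval_cons, Polynomial.eval₂_eq_sum_range]
        refine Finset.sum_eq_zero fun j _ => ?_
        have h2 := hx3 _ (h1 j)
        have h3 : (MvPolynomial.aeval x' : MvPolynomial (Fin N) A0 →ₐ[A0] _).toRingHom
          (((MvPolynomial.finSuccEquiv A0 N) Q).coeff j) = 0 := h2
        rw [h3, zero_mul]
    · -- the algebraic case
      set Hh : MvPolynomial (Fin (N + 1)) A0 := (MvPolynomial.finSuccEquiv A0 N).symm H with hHh
      set Dh : MvPolynomial (Fin (N + 1)) A0 :=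
        (MvPolynomial.finSuccEquiv A0 N).symm (Polynomial.derivative H) with hDh
      have hHT : MvPolynomial.aeval T Hh = 0 := by
        rw [← hT, aeval_cons, hHh, AlgEquiv.apply_symm_apply, hH0]
      have hDT : MvPolynomial.aeval T Dh ≠ 0 := by
        rw [← hT, aeval_cons, hDh, AlgEquiv.apply_symm_apply]; exact hHd
      obtain ⟨r, hr, hr0⟩ := exists_order hDT
      have hLT : MvPolynomial.aeval T' H.leadingCoeff ≠ 0 := hHl
      obtain ⟨r', hr', hr0'⟩ := exists_order hLT
      obtain ⟨m', hm', h⟩ := ih T' (2 * r + r' + m + 2)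
      refine ⟨m', by omega, fun p _ _ R _ _ ρ ι t hA0 hρ hι ht => ?_⟩
      obtain ⟨δ, hδ, hx⟩ := h p R ρ ι (fun i => t i.succ) hA0 hρ hι (fun i => ht i.succ)
      -- values
      have hnH := Near.aeval ρ ht Hh
      have hnD := Near.aeval ρ ht Dh
      have hnL := Near.aeval ρ (fun i => ht i.succ : ∀ i : Fin N, _) H.leadingCoeff
      have hρ0 : ∀ c : R, ρ.toRingHom c = 0 ↔ c = 0 := fun c => by
        rw [map_eq_zero_iff _ (show Function.Injective ρ.toRingHom from hρ)]
      have hι0 : ∀ c : R, ι.toRingHom c = 0 ↔ c = 0 := fun c => by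
        rw [map_eq_zero_iff _ (show Function.Injective ι.toRingHom from hι)]
      have hH1 : ∀ n < m', (MvPolynomial.aeval t Hh : Polynomial R).coeff n = 0 := by
        intro n hn
        rw [← hρ0, ← hnH n hn, hHT, map_zero]
      have hD1 : ∀ n < r, (MvPolynomial.aeval t Dh : Polynomial R).coeff n = 0 := by
        intro n hn
        rw [← hρ0, ← hnD n (by omega), hr0 n hn]
      have hL1 : ∀ n < r', (MvPolynomial.aeval (fun i : Fin N => t i.succ) H.leadingCoeff :
          Polynomial R).coeff n = 0 := by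
        intro n hn
        rw [← hρ0, ← hnL n (by omega)]
        exact hr0' n hn
      set cD : R := (MvPolynomial.aeval t Dh : Polynomial R).coeff r with hcD
      set cL : R := (MvPolynomial.aeval (fun i : Fin N => t i.succ) H.leadingCoeff :
          Polynomial R).coeff r' with hcL
      have hcD0 : 0 < ‖ι.toRingHom cD‖ := by
        rw [norm_pos_iff, Ne, hι0, ← hρ0, hcD, ← hnD r (by omega)]
        exact hr
      have hcL0 : 0 < ‖ι.toRingHom cL‖ := by
        rw [norm_pos_iff, Ne, hι0, ← hρ0, hcL, ← hnL r' (by omega)]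
        exact hr'
      refine ⟨min δ (min ‖ι.toRingHom cD‖ ‖ι.toRingHom cL‖), lt_min hδ (lt_min hcD0 hcL0),
        fun s hs0 hs => ?_⟩
      have hsδ : ‖s‖ < δ := lt_of_lt_of_le hs (min_le_left _ _)
      have hsD : ‖s‖ < ‖ι.toRingHom cD‖ :=
        lt_of_lt_of_le hs ((min_le_right _ _).trans (min_le_left _ _))
      have hsL : ‖s‖ < ‖ι.toRingHom cL‖ :=
        lt_of_lt_of_le hs ((min_le_right _ _).trans (min_le_right _ _))
      have hspos : 0 < ‖s‖ := norm_pos_iff.2 hs0
      have hs1 : ‖s‖ ≤ 1 := PadicInt.norm_le_one s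
      obtain ⟨x', hx1, hx2, hx3⟩ := hx s hs0 hsδ
      set a : ℤ_[p] := (t 0).eval₂ ι.toRingHom s with ha
      set b : Fin (N + 1) → ℤ_[p] := fun i => (t i).eval₂ ι.toRingHom s with hb
      set xh : Fin (N + 1) → ℤ_[p] := Fin.cons a x' with hxh
      have hclose : ∀ i, ‖xh i - b i‖ ≤ ‖s‖ ^ (2 * r + r' + m + 2) := by
        intro i
        refine Fin.cases ?_ (fun j => ?_) i
        · rw [hxh, Fin.cons_zero, hb, ha, sub_self, norm_zero]
          positivity
        · rw [hxh, Fin.cons_succ]; exact hx2 j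
      set F : Polynomial ℤ_[p] :=
        H.map (MvPolynomial.aeval x' : MvPolynomial (Fin N) A0 →ₐ[A0] _).toRingHom with hFdef
      have hFa : F.eval a = MvPolynomial.aeval xh Hh := by
        rw [hxh, aeval_cons, hHh, AlgEquiv.apply_symm_apply, hFdef, Polynomial.eval_map]
      have hF'a : F.derivative.eval a = MvPolynomial.aeval xh Dh := by
        rw [hxh, aeval_cons, hDh, AlgEquiv.apply_symm_apply, hFdef, Polynomial.derivative_map,
          Polynomial.eval_map]
      have hbH : ‖MvPolynomial.aeval b Hh‖ ≤ ‖s‖ ^ (2 * r + r' + m + 2) := by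
        rw [hb, ← aeval_ev]
        exact (norm_ev_le _ hH1 s).trans (pow_le_pow_of_le_one hspos.le hs1 hm')
      have hF1 : ‖F.eval a‖ ≤ ‖s‖ ^ (2 * r + r' + m + 2) := by
        rw [hFa]
        have e : MvPolynomial.aeval xh Hh = (MvPolynomial.aeval xh Hh - MvPolynomial.aeval b Hh) +
            MvPolynomial.aeval b Hh := by ring
        rw [e]
        exact norm_add_le' (lip (by positivity) hclose Hh) hbH
      have hbD : ‖MvPolynomial.aeval b Dh‖ = ‖s‖ ^ r * ‖ι.toRingHom cD‖ := by
        rw [hb, ← aeval_ev]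
        exact norm_ev_eq _ hD1 hsD
      have hlt : ‖s‖ ^ (2 * r + r' + m + 2) < ‖s‖ ^ r * ‖ι.toRingHom cD‖ := by
        calc ‖s‖ ^ (2 * r + r' + m + 2) ≤ ‖s‖ ^ (r + 1) :=
              pow_le_pow_of_le_one hspos.le hs1 (by omega)
          _ = ‖s‖ ^ r * ‖s‖ := pow_succ _ _
          _ < _ := by
            apply mul_lt_mul_of_pos_left hsD
            positivity
      have hF2 : ‖F.derivative.eval a‖ = ‖s‖ ^ r * ‖ι.toRingHom cD‖ := by
        rw [hF'a]
        have e : MvPolynomial.aeval xh Dh = (MvPolynomial.aeval xh Dh - MvPolynomial.aeval b Dh) +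
            MvPolynomial.aeval b Dh := by ring
        have h1 : ‖MvPolynomial.aeval xh Dh - MvPolynomial.aeval b Dh‖ <
            ‖MvPolynomial.aeval b Dh‖ := by
          rw [hbD]
          exact lt_of_le_of_lt (lip (by positivity) hclose Dh) hlt
        rw [e, PadicInt.norm_add_eq_max_of_ne h1.ne, max_eq_right h1.le, hbD]
      have hd : 0 < ‖s‖ ^ r * ‖ι.toRingHom cD‖ := by positivity
      have hcd : ‖s‖ ^ (2 * r + r' + m + 2) < (‖s‖ ^ r * ‖ι.toRingHom cD‖) ^ 2 := by
        calc ‖s‖ ^ (2 * r + r' + m + 2) ≤ ‖s‖ ^ (2 * r + 2) :=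
              pow_le_pow_of_le_one hspos.le hs1 (by omega)
          _ = (‖s‖ ^ r * ‖s‖) ^ 2 := by ring
          _ < _ := by
            apply pow_lt_pow_left₀ _ (by positivity) (by norm_num)
            apply mul_lt_mul_of_pos_left hsD
            positivity
      obtain ⟨z, hz0, hza⟩ := hensel_bound F a hF1 hF2 hd hcd
      have hza' : ‖z - a‖ ≤ ‖s‖ ^ (r + r' + m + 1) := by
        refine hza.trans ?_
        rw [div_le_iff₀ hd]
        calc ‖s‖ ^ (2 * r + r' + m + 2) = ‖s‖ ^ (r + r' + m + 1) * (‖s‖ ^ r * ‖s‖) := by ring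
          _ ≤ _ := by
            apply mul_le_mul_of_nonneg_left _ (by positivity)
            apply mul_le_mul_of_nonneg_left hsD.le (by positivity)
      have hlc : MvPolynomial.aeval x' H.leadingCoeff ≠ 0 := by
        have hbL : ‖MvPolynomial.aeval (fun i : Fin N => b i.succ) H.leadingCoeff‖ =
            ‖s‖ ^ r' * ‖ι.toRingHom cL‖ := by
          rw [hb]
          rw [← aeval_ev ι (fun i : Fin N => t i.succ)]
          exact norm_ev_eq _ hL1 hsL
        intro h0
        have h1 := lip (A0 := A0) (x := x') (y := fun i : Fin N => b i.succ) (c := ‖s‖ ^ (r' + 1))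
          (by positivity) (fun i => (hx2 i).trans
            (pow_le_pow_of_le_one hspos.le hs1 (by omega))) H.leadingCoeff
        rw [h0, zero_sub, norm_neg, hbL, pow_succ] at h1
        have h2 : ‖s‖ ^ r' * ‖s‖ < ‖s‖ ^ r' * ‖ι.toRingHom cL‖ := by
          apply mul_lt_mul_of_pos_left hsL
          positivity
        exact absurd h1 (not_le.2 h2)
      refine ⟨Fin.cons z x', fun i => ?_, fun i => ?_, fun Q hQ => ?_⟩
      · refine Fin.cases ?_ (fun j => ?_) i
        · rw [Fin.cons_zero]
          refine alg_root (F.map PadicInt.Coe.ringHom) ?_ ?_ (z := (z : ℚ_[p])) ?_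
          · intro h0
            have h1 : (F.map PadicInt.Coe.ringHom).coeff H.natDegree = 0 := by
              rw [h0, Polynomial.coeff_zero]
            rw [Polynomial.coeff_map, hFdef, Polynomial.coeff_map] at h1
            apply hlc
            exact PadicInt.coe_eq_zero.1 h1
          · intro n
            rw [Polynomial.coeff_map, hFdef, Polynomial.coeff_map]
            exact alg_aeval hA0 hx1 _
          · have h1 : (F.map PadicInt.Coe.ringHom).eval (PadicInt.Coe.ringHom z) =
                PadicInt.Coe.ringHom (F.eval z) := by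
              rw [Polynomial.eval_map, Polynomial.eval₂_hom]
            rw [hz0, map_zero] at h1
            exact h1
        · rw [Fin.cons_succ]; exact hx1 j
      · refine Fin.cases ?_ (fun j => ?_) i
        · rw [Fin.cons_zero]
          exact hza'.trans (pow_le_pow_of_le_one hspos.le hs1 (by omega))
        · rw [Fin.cons_succ]
          exact (hx2 j).trans (pow_le_pow_of_le_one hspos.le hs1 (by omega))
      · rw [← hT, aeval_cons] at hQ
        obtain ⟨j, G, S, hGS, hS⟩ := hdiv _ hQ
        rw [aeval_cons]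
        have h1 := congrArg (Polynomial.eval₂
          (MvPolynomial.aeval x' : MvPolynomial (Fin N) A0 →ₐ[A0] _).toRingHom z) hGS
        rw [Polynomial.eval₂_mul, Polynomial.eval₂_add, Polynomial.eval₂_mul,
          Polynomial.eval₂_C] at h1
        have h2 : Polynomial.eval₂
            (MvPolynomial.aeval x' : MvPolynomial (Fin N) A0 →ₐ[A0] _).toRingHom z S = 0 := by
          rw [Polynomial.eval₂_eq_sum_range]
          refine Finset.sum_eq_zero fun i _ => ?_
          have h3 : (MvPolynomial.aeval x' : MvPolynomial (Fin N) A0 →ₐ[A0] _).toRingHom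
            (S.coeff i) = 0 := hx3 _ (hS i)
          rw [h3, zero_mul]
        have h3 : Polynomial.eval₂
            (MvPolynomial.aeval x' : MvPolynomial (Fin N) A0 →ₐ[A0] _).toRingHom z H = 0 := by
          rw [← Polynomial.eval_map]; exact hz0
        rw [h2, h3, zero_mul, zero_add, map_pow] at h1
        exact (mul_eq_zero.1 h1).resolve_left (pow_ne_zero _ hlc)

end Pool.Agent.K1H69.DC
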