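import Pool.Agent.K1H69.DC.Orb
import Pool.Agent.Y69.TK.Emb2

/-!
**The core.** A formal curve which semiconjugates `z ↦ λ z`, `λ` not a root of unity, to a rational
map gives infinite orbits of algebraic points.
-/

set_option autoImplicit false

namespace Pool.Agent.K1H69.DC

open Finset

lemma exists_small {p : ℕ} [hp : Fact p.Prime] {ε : ℝ} (hε : 0 < ε) :
    ∃ s : ℤ_[p], s ≠ 0 ∧ ‖s‖ < ε ∧ ‖s‖ < 1 := by
  obtain ⟨k, hk⟩ := PadicInt.exists_pow_neg_lt p hε
  have hp1 : (1 : ℝ) < p := by exact_mod_cast hp.out.one_lt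
  refine ⟨(p : ℤ_[p]) ^ (k + 1), pow_ne_zero _ (by exact_mod_cast hp.out.ne_zero), ?_, ?_⟩
  · rw [PadicInt.norm_p_pow]
    refine lt_of_le_of_lt (zpow_le_zpow_right₀ hp1.le ?_) hk
    push_cast
    omega
  · rw [PadicInt.norm_p_pow]
    apply zpow_lt_one_of_neg₀ hp1
    push_cast
    omega

/-- **The core.** -/
theorem core {A0 : Type} [CommRing A0] [Algebra A0 ℂ] [Algebra.FiniteType ℤ A0]
    (hint : ∀ c : A0, IsIntegral ℤ c) {N : ℕ} (T : Fin N → PowerSeries ℂ) {lam : ℂ}
    (hlam0 : lam ≠ 0) (hroot : ∀ k : ℕ, 0 < k → lam ^ k ≠ 1) (q : MvPolynomial (Fin N) A0)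
    (Φ : Fin N → MvPolynomial (Fin N) A0)
    (hq : PowerSeries.constantCoeff (MvPolynomial.aeval T q) ≠ 0)
    (hΦ : ∀ i, MvPolynomial.aeval T q * PowerSeries.rescale lam (T i) =
      MvPolynomial.aeval T (Φ i))
    (h G : MvPolynomial (Fin N) A0) (hG : MvPolynomial.aeval T G ≠ 0)
    (hh : ∃ s, 0 < s ∧ PowerSeries.coeff s (MvPolynomial.aeval T h *
      (MvPolynomial.aeval T q)⁻¹) ≠ 0) :
    ∃ (p : ℕ) (_ : Fact p.Prime) (ψ : A0 →+* ℤ_[p]) (x : ℕ → Fin N → ℤ_[p]),
      (∀ c, ψ c = 0 → algebraMap A0 ℂ c = 0) ∧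
      (∀ n i, IsAlgebraic ℚ ((x n i : ℤ_[p]) : ℚ_[p])) ∧
      (∀ n, IsUnit (MvPolynomial.eval₂ ψ (x n) q)) ∧
      (∀ n i, MvPolynomial.eval₂ ψ (x n) q * x (n + 1) i = MvPolynomial.eval₂ ψ (x n) (Φ i)) ∧
      (∀ n, ∀ Q : MvPolynomial (Fin N) A0, MvPolynomial.aeval T Q = 0 →
        MvPolynomial.eval₂ ψ (x n) Q = 0) ∧
      (∀ n, MvPolynomial.eval₂ ψ (x n) G ≠ 0) ∧
      (Set.range fun n => ((MvPolynomial.eval₂ ψ (x n) h : ℤ_[p]) : ℚ_[p]) /
        ((MvPolynomial.eval₂ ψ (x n) q : ℤ_[p]) : ℚ_[p])).Infinite := by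
  classical
  -- the orders
  obtain ⟨s, hs0, hs, hslt⟩ : ∃ s, 0 < s ∧ PowerSeries.coeff s (MvPolynomial.aeval T h *
      (MvPolynomial.aeval T q)⁻¹) ≠ 0 ∧ ∀ n < s, 0 < n → PowerSeries.coeff n
      (MvPolynomial.aeval T h * (MvPolynomial.aeval T q)⁻¹) = 0 := by
    refine ⟨Nat.find hh, (Nat.find_spec hh).1, (Nat.find_spec hh).2, fun n hn h0 => ?_⟩
    by_contra h1
    exact Nat.find_min hh hn ⟨h0, h1⟩
  obtain ⟨r, hr, hr0⟩ := exists_order hG
  set m : ℕ := max s r + 1 with hm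
  obtain ⟨m', hmm, happ⟩ := approx (A0 := A0) N T m
  -- the ring
  set κ : ℂ := PowerSeries.constantCoeff (MvPolynomial.aeval T q) with hκ
  let S : Finset ℂ := {lam, lam⁻¹, κ⁻¹} ∪
    (Finset.range m' ×ˢ (Finset.univ : Finset (Fin N))).image fun x => PowerSeries.coeff x.1 (T x.2)
  let R : Subalgebra A0 ℂ := Algebra.adjoin A0 (S : Set ℂ)
  have hSR : ∀ z ∈ S, z ∈ R := fun z hz => Algebra.subset_adjoin hz
  have hft : Algebra.FiniteType A0 R := R.fg_iff_finiteType.1 (Subalgebra.fg_adjoin_finset S)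
  have hftZ : Algebra.FiniteType ℤ R := Algebra.FiniteType.trans (S := A0) inferInstance hft
  obtain ⟨p, hp, hp2, -, ψ', hψ'⟩ := Pool.Agent.Y69.TK.Emb.exists_embedding (A := R) 1 2 one_pos
  let iA : Algebra A0 ℤ_[p] := (ψ'.comp (algebraMap A0 R)).toAlgebra
  have hmapA : algebraMap A0 ℤ_[p] = ψ'.comp (algebraMap A0 R) := rfl
  let ι : R →ₐ[A0] ℤ_[p] := { ψ' with commutes' := fun _ => rfl }
  have hι : Function.Injective ι := hψ'
  let ρ : R →ₐ[A0] ℂ := R.val
  have hρ : Function.Injective ρ := Subtype.val_injective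
  let c : ℕ → Fin N → R := fun n i => if hn : n < m' then
    ⟨PowerSeries.coeff n (T i), hSR _ (Finset.mem_union_right _ (Finset.mem_image.2
      ⟨(n, i), by simp [hn], rfl⟩))⟩ else 0
  let t : Fin N → Polynomial R := fun i => ∑ n ∈ range m', Polynomial.monomial n (c n i)
  have ht : ∀ i, Near ρ.toRingHom m' (T i) (t i) := by
    intro i n hn
    simp only [t, Polynomial.finsetSum_coeff, Polynomial.coeff_monomial, Finset.sum_ite_eq',
      Finset.mem_range, hn, if_true]
    simp only [c, hn, dif_pos]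
    rfl
  have hA0 : ∀ c : A0, IsAlgebraic ℚ ((algebraMap A0 ℤ_[p] c : ℤ_[p]) : ℚ_[p]) := by
    intro c
    have h1 : IsIntegral ℤ ((algebraMap A0 ℤ_[p] c : ℤ_[p]) : ℚ_[p]) := by
      have := (hint c).map ((PadicInt.Coe.ringHom.comp (algebraMap A0 ℤ_[p])).toIntAlgHom)
      exact this
    exact (h1.tower_top (A := ℚ)).isAlgebraic
  obtain ⟨δ, hδ, hx⟩ := happ p R ρ ι t hA0 hρ hι ht
  -- the elements of `R`
  let lamR : R := ⟨lam, hSR _ (Finset.mem_union_left _ (by simp))⟩
  let lamI : R := ⟨lam⁻¹, hSR _ (Finset.mem_union_left _ (by simp))⟩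
  let κI : R := ⟨κ⁻¹, hSR _ (Finset.mem_union_left _ (by simp))⟩
  have hlamRI : lamR * lamI = 1 := Subtype.ext (mul_inv_cancel₀ hlam0)
  have hΦR : ∀ i, MvPolynomial.aeval T q * PowerSeries.rescale (ρ lamR) (T i) =
      MvPolynomial.aeval T (Φ i) := hΦ
  have hm'0 : 0 < m' := by omega
  have hcoef0 : ∀ Q : MvPolynomial (Fin N) A0, MvPolynomial.aeval (fun i => (t i).coeff 0) Q =
      (MvPolynomial.aeval t Q : Polynomial R).coeff 0 := by
    intro Q
    induction Q using MvPolynomial.induction_on with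
    | C c => rw [MvPolynomial.aeval_C, MvPolynomial.aeval_C]; simp [Polynomial.algebraMap_apply]
    | add P Q hP hQ => rw [map_add, map_add, Polynomial.coeff_add, hP, hQ]
    | mul_X P i hP => rw [map_mul, map_mul, MvPolynomial.aeval_X, MvPolynomial.aeval_X,
        Polynomial.mul_coeff_zero, hP]
  set a : Fin N → ℤ_[p] := fun i => ι ((t i).coeff 0) with ha
  have haev : ∀ Q : MvPolynomial (Fin N) A0, MvPolynomial.aeval a Q =
      ι ((MvPolynomial.aeval t Q : Polynomial R).coeff 0) := by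
    intro Q
    rw [← hcoef0]
    exact (MvPolynomial.comp_aeval_apply (fun i => (t i).coeff 0) ι Q).symm
  have hqR : ρ ((MvPolynomial.aeval t q : Polynomial R).coeff 0) = κ := by
    have := (Near.aeval ρ ht q) 0 hm'0
    rw [PowerSeries.coeff_zero_eq_constantCoeff] at this
    exact this.symm
  have hv0 : MvPolynomial.aeval a q * ι κI = 1 := by
    rw [haev, ← map_mul]
    have : (MvPolynomial.aeval t q : Polynomial R).coeff 0 * κI = 1 := by
      apply hρ
      rw [map_mul, hqR, map_one]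
      exact mul_inv_cancel₀ hq
    rw [this, map_one]
  have hfix : ∀ i, MvPolynomial.aeval a q * a i = MvPolynomial.aeval a (Φ i) := by
    intro i
    rw [haev, haev, ha, ← map_mul]
    congr 1
    apply hρ
    have h1 := congrArg (PowerSeries.coeff 0) (hΦ i)
    have h2 := (Near.aeval ρ ht (Φ i)) 0 hm'0
    have h3 := ht i 0 hm'0
    rw [PowerSeries.coeff_zero_eq_constantCoeff, map_mul,
      ← PowerSeries.coeff_zero_eq_constantCoeff_apply (PowerSeries.rescale lam (T i)),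
      PowerSeries.coeff_rescale, pow_zero, one_mul,
      ← PowerSeries.coeff_zero_eq_constantCoeff_apply (MvPolynomial.aeval T (Φ i)), h2, h3] at h1
    rw [map_mul, hqR]
    exact h1
  obtain ⟨k, hk, hdd⟩ := orbit_dd q Φ a (ι κI) hv0 hfix
  -- the comparison polynomial
  obtain ⟨hws, hwlt⟩ := w_coeff (MvPolynomial.aeval T h) (MvPolynomial.aeval T q) hq hs hslt
    (lam ^ k) (by rw [← pow_mul]; exact hroot _ (Nat.mul_pos hk hs0))
  set W : Polynomial R := MvPolynomial.aeval (fun i => (t i).comp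
      (Polynomial.C (lamR ^ k) * Polynomial.X)) h * MvPolynomial.aeval t q -
    MvPolynomial.aeval t h * MvPolynomial.aeval (fun i => (t i).comp
      (Polynomial.C (lamR ^ k) * Polynomial.X)) q with hW
  have hWnear : Near ρ.toRingHom m' (PowerSeries.rescale (lam ^ k) (MvPolynomial.aeval T h) *
      MvPolynomial.aeval T q - MvPolynomial.aeval T h *
      PowerSeries.rescale (lam ^ k) (MvPolynomial.aeval T q)) W := by
    have h1 : ∀ i, Near ρ.toRingHom m' (PowerSeries.rescale (lam ^ k) (T i))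
        ((t i).comp (Polynomial.C (lamR ^ k) * Polynomial.X)) := by
      intro i
      have := (ht i).rescale (lamR ^ k)
      rw [map_pow] at this
      exact this
    have h2 := ((Near.aeval ρ h1 h).mul (Near.aeval ρ ht q)).sub
      ((Near.aeval ρ ht h).mul (Near.aeval ρ h1 q))
    rw [rescale_aeval, rescale_aeval] at h2
    exact h2
  have hρ0 : ∀ c : R, ρ.toRingHom c = 0 ↔ c = 0 := fun c => by
    rw [map_eq_zero_iff _ (show Function.Injective ρ.toRingHom from hρ)]
  have hι0 : ∀ c : R, ι.toRingHom c = 0 ↔ c = 0 := fun c => by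
    rw [map_eq_zero_iff _ (show Function.Injective ι.toRingHom from hι)]
  have hW0 : ∀ n < s, W.coeff n = 0 := by
    intro n hn
    rw [← hρ0, ← hWnear n (by omega), hwlt n hn]
  have hWs : 0 < ‖ι.toRingHom (W.coeff s)‖ := by
    rw [norm_pos_iff, Ne, hι0, ← hρ0, ← hWnear s (by omega)]
    exact hws
  have hGnear := Near.aeval ρ ht G
  have hG0 : ∀ n < r, (MvPolynomial.aeval t G : Polynomial R).coeff n = 0 := by
    intro n hn
    rw [← hρ0, ← hGnear n (by omega), hr0 n hn]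
  have hGr : 0 < ‖ι.toRingHom ((MvPolynomial.aeval t G : Polynomial R).coeff r)‖ := by
    rw [norm_pos_iff, Ne, hι0, ← hρ0, ← hGnear r (by omega)]
    exact hr
  obtain ⟨s0, hs00, hs0ε, hs01⟩ := exists_small (p := p)
    (lt_min hδ (lt_min hWs hGr))
  have hsδ : ‖s0‖ < δ := lt_of_lt_of_le hs0ε (min_le_left _ _)
  have hsW : ‖s0‖ < ‖ι.toRingHom (W.coeff s)‖ :=
    lt_of_lt_of_le hs0ε ((min_le_right _ _).trans (min_le_left _ _))
  have hsG : ‖s0‖ < ‖ι.toRingHom ((MvPolynomial.aeval t G : Polynomial R).coeff r)‖ :=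
    lt_of_lt_of_le hs0ε ((min_le_right _ _).trans (min_le_right _ _))
  have hs0pos : 0 < ‖s0‖ := norm_pos_iff.2 hs00
  obtain ⟨x0, hx01, hx02, hx03⟩ := hx s0 hs00 hsδ
  obtain ⟨x, v, hxx0, hv, hstep, hclose, hdvd, hrel⟩ := shadow ρ ι t hlamRI hΦR hρ (by omega) hmm
    ht hv0 hs01 x0 hx02 hx03
  have hlam1 : ‖ι lamR‖ = 1 := by
    have h1 : ι lamR * ι lamI = 1 := by rw [← map_mul, hlamRI, map_one]
    exact PadicInt.isUnit_iff.1 (IsUnit.of_mul_eq_one _ h1)
  have hnorm : ∀ n : ℕ, ‖ι lamR ^ n * s0‖ = ‖s0‖ := by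
    intro n
    rw [norm_mul, norm_pow, hlam1, one_pow, one_mul]
  have heval : ∀ (y : Fin N → ℤ_[p]) (Q : MvPolynomial (Fin N) A0),
      MvPolynomial.eval₂ (algebraMap A0 ℤ_[p]) y Q = MvPolynomial.aeval y Q := fun y Q =>
    (MvPolynomial.aeval_def _ _).symm
  refine ⟨p, hp, algebraMap A0 ℤ_[p], x, ?_, ?_, ?_, ?_, ?_, ?_, ?_⟩
  · intro c hc
    have h1 : algebraMap A0 R c = 0 := by
      apply hψ'
      rw [map_zero]
      exact hc
    have h2 := congrArg ρ h1
    rwa [ρ.commutes, map_zero] at h2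
  · intro n
    induction n with
    | zero => rw [hxx0]; exact hx01
    | succ n ih =>
      intro i
      have h1 := congrArg (fun z : ℤ_[p] => (z : ℚ_[p])) (hstep n i)
      have hq0 : ((MvPolynomial.aeval (x n) q : ℤ_[p]) : ℚ_[p]) ≠ 0 := by
        intro h0
        have h2 := hv n
        rw [PadicInt.coe_eq_zero.1 h0, zero_mul] at h2
        exact zero_ne_one h2
      simp only [PadicInt.coe_mul] at h1
      have h2 : ((x (n + 1) i : ℤ_[p]) : ℚ_[p]) =
          ((MvPolynomial.aeval (x n) (Φ i) : ℤ_[p]) : ℚ_[p]) *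
            (((MvPolynomial.aeval (x n) q : ℤ_[p]) : ℚ_[p]))⁻¹ := by
        rw [← h1]
        field_simp
      rw [h2]
      exact (alg_aeval hA0 ih _).mul (alg_aeval hA0 ih _).inv
  · intro n
    rw [heval]
    exact IsUnit.of_mul_eq_one _ (hv n)
  · intro n i
    rw [heval, heval]
    exact hstep n i
  · intro n Q hQ
    rw [heval]
    exact hrel n Q hQ
  · intro n h0
    rw [heval] at h0
    have h1 := lip (A0 := A0) (by positivity) (hclose n) G
    rw [h0, zero_sub, norm_neg] at h1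
    have h2 := norm_ev_eq ι.toRingHom hG0 (s := ι lamR ^ n * s0) (by rw [hnorm]; exact hsG)
    rw [aeval_ev, hnorm] at h2
    rw [h2] at h1
    have h3 : ‖s0‖ ^ m ≤ ‖s0‖ ^ r * ‖s0‖ := by
      rw [← pow_succ]
      exact pow_le_pow_of_le_one hs0pos.le hs01.le (by omega)
    have h4 : ‖s0‖ ^ r * ‖s0‖ < ‖s0‖ ^ r *
        ‖ι.toRingHom ((MvPolynomial.aeval t G : Polynomial R).coeff r)‖ := by
      apply mul_lt_mul_of_pos_left hsG
      positivity
    exact absurd (h1.trans h3) (not_le.2 h4)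
  · intro hfin
    -- the ratio
    have hratio : ∀ n, ((MvPolynomial.aeval (x n) h * v n : ℤ_[p]) : ℚ_[p]) =
        ((MvPolynomial.eval₂ (algebraMap A0 ℤ_[p]) (x n) h : ℤ_[p]) : ℚ_[p]) /
        ((MvPolynomial.eval₂ (algebraMap A0 ℤ_[p]) (x n) q : ℤ_[p]) : ℚ_[p]) := by
      intro n
      rw [heval, heval]
      have h2 := congrArg (fun z : ℤ_[p] => (z : ℚ_[p])) (hv n)
      simp only [PadicInt.coe_mul, PadicInt.coe_one] at h2
      have hq0 : ((MvPolynomial.aeval (x n) q : ℤ_[p]) : ℚ_[p]) ≠ 0 := by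
        intro h0
        rw [h0, zero_mul] at h2
        exact zero_ne_one h2
      rw [PadicInt.coe_mul, eq_div_iff hq0]
      linear_combination ((MvPolynomial.aeval (x n) h : ℤ_[p]) : ℚ_[p]) * h2
    have hfin2 : (Set.range fun n => MvPolynomial.aeval (x (k * n + 0)) h * v (k * n + 0)).Finite := by
      refine Set.Finite.of_finite_image (f := fun z : ℤ_[p] => (z : ℚ_[p]))
        (hfin.subset ?_) (Subtype.val_injective.injOn)
      rintro _ ⟨_, ⟨n, rfl⟩, rfl⟩
      exact ⟨k * n + 0, (hratio _).symm⟩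
    obtain ⟨n0, hn0⟩ := eventually_const hp2 _ hfin2 (fun j n => hdd x v hdvd hv hstep h j 0 n)
    have h1 := hn0 (n0 + 1) (by omega)
    simp only [add_zero] at h1
    set n1 := k * n0 with hn1
    rw [show k * (n0 + 1) = n1 + k by ring] at h1
    -- cross multiplication
    have h2 : MvPolynomial.aeval (x (n1 + k)) h * MvPolynomial.aeval (x n1) q -
        MvPolynomial.aeval (x n1) h * MvPolynomial.aeval (x (n1 + k)) q = 0 := by
      have e1 := hv n1
      have e2 := hv (n1 + k)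
      linear_combination (MvPolynomial.aeval (x n1) q * MvPolynomial.aeval (x (n1 + k)) q) * h1 -
        (MvPolynomial.aeval (x (n1 + k)) h * MvPolynomial.aeval (x n1) q) * e2 +
        (MvPolynomial.aeval (x n1) h * MvPolynomial.aeval (x (n1 + k)) q) * e1
    have h3 := norm_ev_eq ι.toRingHom hW0 (s := ι lamR ^ n1 * s0) (by rw [hnorm]; exact hsW)
    have h4 : W.eval₂ ι.toRingHom (ι lamR ^ n1 * s0) =
        MvPolynomial.aeval (fun i => (t i).eval₂ ι.toRingHom (ι lamR ^ (n1 + k) * s0)) h *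
        MvPolynomial.aeval (fun i => (t i).eval₂ ι.toRingHom (ι lamR ^ n1 * s0)) q -
        MvPolynomial.aeval (fun i => (t i).eval₂ ι.toRingHom (ι lamR ^ n1 * s0)) h *
        MvPolynomial.aeval (fun i => (t i).eval₂ ι.toRingHom (ι lamR ^ (n1 + k) * s0)) q := by
      have e1 : ι.toRingHom (lamR ^ k) * (ι lamR ^ n1 * s0) = ι lamR ^ (n1 + k) * s0 := by
        rw [map_pow]
        change ι lamR ^ k * (ι lamR ^ n1 * s0) = _
        ring
      rw [hW, Polynomial.eval₂_sub, Polynomial.eval₂_mul, Polynomial.eval₂_mul, aeval_ev, aeval_ev,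
        aeval_ev, aeval_ev]
      simp only [comp_ev, e1]
    rw [hnorm, h4] at h3
    set b := fun i => (t i).eval₂ ι.toRingHom (ι lamR ^ n1 * s0) with hb
    set b' := fun i => (t i).eval₂ ι.toRingHom (ι lamR ^ (n1 + k) * s0) with hb'
    have l1 := lip (A0 := A0) (by positivity) (hclose n1) h
    have l2 := lip (A0 := A0) (by positivity) (hclose n1) q
    have l3 := lip (A0 := A0) (by positivity) (hclose (n1 + k)) h
    have l4 := lip (A0 := A0) (by positivity) (hclose (n1 + k)) q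
    have h5 : MvPolynomial.aeval b' h * MvPolynomial.aeval b q -
        MvPolynomial.aeval b h * MvPolynomial.aeval b' q =
        (MvPolynomial.aeval (x n1) h - MvPolynomial.aeval b h) *
          MvPolynomial.aeval (x (n1 + k)) q +
        MvPolynomial.aeval b h * (MvPolynomial.aeval (x (n1 + k)) q - MvPolynomial.aeval b' q) -
        ((MvPolynomial.aeval (x (n1 + k)) h - MvPolynomial.aeval b' h) *
          MvPolynomial.aeval (x n1) q +
        MvPolynomial.aeval b' h * (MvPolynomial.aeval (x n1) q - MvPolynomial.aeval b q)) := by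
      linear_combination h2
    have h6 : ‖MvPolynomial.aeval b' h * MvPolynomial.aeval b q -
        MvPolynomial.aeval b h * MvPolynomial.aeval b' q‖ ≤ ‖s0‖ ^ m := by
      rw [h5]
      exact norm_sub_le' (norm_add_le' (norm_mul_le_left' _ l1) (norm_mul_le_right' _ l4))
        (norm_add_le' (norm_mul_le_left' _ l3) (norm_mul_le_right' _ l2))
    rw [h3] at h6
    have h7 : ‖s0‖ ^ m ≤ ‖s0‖ ^ s * ‖s0‖ := by
      rw [← pow_succ]
      exact pow_le_pow_of_le_one hs0pos.le hs01.le (by omega)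
    have h8 : ‖s0‖ ^ s * ‖s0‖ < ‖s0‖ ^ s * ‖ι.toRingHom (W.coeff s)‖ := by
      apply mul_lt_mul_of_pos_left hsW
      positivity
    exact absurd (h6.trans h7) (not_le.2 h8)

end Pool.Agent.K1H69.DC
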