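import Mathlib

/-!
Definitions: holomorphic maps to the complex points of a scheme, integral points, and dynamical
points.
-/

set_option autoImplicit false

open AlgebraicGeometry CategoryTheory IsDedekindDomain
open scoped NumberField

namespace Pool.Agent.K1H69.DC

open Topology

/-- `g` is holomorphic near `z0`: near `z0` it is given by a family of homomorphisms `ev z` from the
ring `B` of an affine open chart `j` of `Y` to the complex numbers, such that `ev z b` depends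
holomorphically on `z` for each `b` in `B`. -/
def HolAt {Y : Scheme.{0}} (g : ℂ → (Spec (CommRingCat.of ℂ) ⟶ Y)) (z0 : ℂ) : Prop :=
  ∃ (B : CommRingCat.{0}) (j : Spec B ⟶ Y) (ev : ℂ → (B ⟶ CommRingCat.of ℂ)) (r : ℝ),
    IsOpenImmersion j ∧ 0 < r ∧ (∀ z ∈ Metric.ball z0 r, g z = Spec.map (ev z) ≫ j) ∧
    ∀ b : B, DifferentiableOn ℂ (fun z => ((ev z).hom b : ℂ)) (Metric.ball z0 r)

/-- The embedding of the ring of integers of `K` into the complex numbers. -/
noncomputable def strC {K : Type} [Field K] [NumberField K] (σ : K →+* ℂ) :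
    CommRingCat.of (𝓞 K) ⟶ CommRingCat.of ℂ :=
  CommRingCat.ofHom (σ.comp (algebraMap (𝓞 K) K))

/-- Condition (ii): for each finite extension `L` of `K` and each finite set `S` of primes of `L`,
only finitely many `S`-integral points of `V` over the integers of `K` do not factor through
`V'`. -/
def IntegralFinite {K : Type} [Field K] [NumberField K] {V V' : Scheme.{0}}
    (sV : V ⟶ Spec (CommRingCat.of (𝓞 K))) (i : V' ⟶ V) : Prop :=
  ∀ (L : Type) [Field L] [NumberField L] [Algebra K L] (S : Set (HeightOneSpectrum (𝓞 L))),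
    S.Finite → {P : Spec (CommRingCat.of (S.integer L)) ⟶ V |
      P ≫ sV = Spec.map (CommRingCat.ofHom (algebraMap (𝓞 K) (S.integer L))) ∧
        ¬ ∃ Q : Spec (CommRingCat.of (S.integer L)) ⟶ V', Q ≫ i = P}.Finite

/-- A map `h` to `V(ℂ)` is dynamical at `z0` if near `z0` it is the image `π ∘ g` of
a holomorphic map `g` to `Y(ℂ)` which satisfies `g ∘ a = φ ∘ g` near `z0`; here `Y` is a scheme
locally of finite type over the integers of `K`, `π : Y ⟶ V` and `φ : Y ⟶ Y` are morphisms over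
the integers of `K`, and `a` is a holomorphic function which fixes `z0` and the derivative of which
at `z0` is neither zero nor a root of unity. -/
def DynAt {K : Type} [Field K] [NumberField K] (σ : K →+* ℂ) {V : Scheme.{0}}
    (sV : V ⟶ Spec (CommRingCat.of (𝓞 K))) (h : ℂ → (Spec (CommRingCat.of ℂ) ⟶ V))
    (z0 : ℂ) : Prop :=
  ∃ (Y : Scheme.{0}) (sY : Y ⟶ Spec (CommRingCat.of (𝓞 K))) (φ : Y ⟶ Y) (π : Y ⟶ V)
    (g : ℂ → (Spec (CommRingCat.of ℂ) ⟶ Y)) (a : ℂ → ℂ),
    LocallyOfFiniteType sY ∧ φ ≫ sY = sY ∧ π ≫ sV = sY ∧ HolAt g z0 ∧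
    (∀ᶠ z in 𝓝 z0, g z ≫ sY = Spec.map (strC σ)) ∧
    AnalyticAt ℂ a z0 ∧ a z0 = z0 ∧ deriv a z0 ≠ 0 ∧ (∀ k : ℕ, 0 < k → (deriv a z0) ^ k ≠ 1) ∧
    (∀ᶠ z in 𝓝 z0, g (a z) = g z ≫ φ) ∧ ∀ᶠ z in 𝓝 z0, h z = g z ≫ π

/-- A complex point of `V` is a dynamical point if it is a value of a nonconstant holomorphic map
from a connected domain of the complex plane to `V(ℂ)` which is dynamical at some point. -/
def DynPoint {K : Type} [Field K] [NumberField K] (σ : K →+* ℂ) {V : Scheme.{0}}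
    (sV : V ⟶ Spec (CommRingCat.of (𝓞 K))) (v : Spec (CommRingCat.of ℂ) ⟶ V) : Prop :=
  ∃ (Ω : Set ℂ) (h : ℂ → (Spec (CommRingCat.of ℂ) ⟶ V)), IsOpen Ω ∧ IsPreconnected Ω ∧
    (∀ z ∈ Ω, HolAt h z) ∧ v ∈ h '' Ω ∧ (∃ z ∈ Ω, ∃ z' ∈ Ω, h z ≠ h z') ∧
    ∃ z0 ∈ Ω, DynAt σ sV h z0

end Pool.Agent.K1H69.DC
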