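import Pool.Agent.K1H69.DC.Defs

/-!
Definitions: rationally dynamical points.
-/

set_option autoImplicit false

open AlgebraicGeometry CategoryTheory
open scoped NumberField

namespace Pool.Agent.K1H69.DC

open Topology

/-- A map `h` to `V(ℂ)` is rationally dynamical at `z0` if near `z0` it is the image `π ∘ g` of a
holomorphic map `g` to `U(ℂ)` which satisfies `g ∘ a = φ ∘ g` near `z0`; here `U` is an open
subscheme (by `ι`) of a scheme `Y` locally of finite type over the integers of `K`, `π : U ⟶ V` and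
`φ : U ⟶ Y` are morphisms over the integers of `K`, and `a` is a holomorphic function which fixes
`z0` and the derivative of which at `z0` is neither zero nor a root of unity. -/
def RatDynAt {K : Type} [Field K] [NumberField K] (σ : K →+* ℂ) {V : Scheme.{0}}
    (sV : V ⟶ Spec (CommRingCat.of (𝓞 K))) (h : ℂ → (Spec (CommRingCat.of ℂ) ⟶ V))
    (z0 : ℂ) : Prop :=
  ∃ (U Y : Scheme.{0}) (sY : Y ⟶ Spec (CommRingCat.of (𝓞 K))) (ι φ : U ⟶ Y) (π : U ⟶ V)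
    (g : ℂ → (Spec (CommRingCat.of ℂ) ⟶ U)) (a : ℂ → ℂ),
    LocallyOfFiniteType sY ∧ IsOpenImmersion ι ∧ φ ≫ sY = ι ≫ sY ∧ π ≫ sV = ι ≫ sY ∧
    HolAt g z0 ∧ (∀ᶠ z in 𝓝 z0, g z ≫ ι ≫ sY = Spec.map (strC σ)) ∧
    AnalyticAt ℂ a z0 ∧ a z0 = z0 ∧ deriv a z0 ≠ 0 ∧ (∀ k : ℕ, 0 < k → (deriv a z0) ^ k ≠ 1) ∧
    (∀ᶠ z in 𝓝 z0, g (a z) ≫ ι = g z ≫ φ) ∧ ∀ᶠ z in 𝓝 z0, h z = g z ≫ π

/-- A complex point of `V` is a rationally dynamical point if it is a value of a nonconstant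
holomorphic map from a connected domain of the complex plane to `V(ℂ)` which is rationally dynamical
at some point. -/
def RatDynPoint {K : Type} [Field K] [NumberField K] (σ : K →+* ℂ) {V : Scheme.{0}}
    (sV : V ⟶ Spec (CommRingCat.of (𝓞 K))) (v : Spec (CommRingCat.of ℂ) ⟶ V) : Prop :=
  ∃ (Ω : Set ℂ) (h : ℂ → (Spec (CommRingCat.of ℂ) ⟶ V)), IsOpen Ω ∧ IsPreconnected Ω ∧
    (∀ z ∈ Ω, HolAt h z) ∧ v ∈ h '' Ω ∧ (∃ z ∈ Ω, ∃ z' ∈ Ω, h z ≠ h z') ∧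
    ∃ z0 ∈ Ω, RatDynAt σ sV h z0

end Pool.Agent.K1H69.DC
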