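import Pool.Agent.K1H69.DC.Dyn

/-!
Holomorphic maps from connected domains with a dynamical symmetry and integral points.
-/

set_option autoImplicit false

open AlgebraicGeometry CategoryTheory
open scoped NumberField

namespace Pool.Agent.K1H69.DC

open PowerSeries Topology

lemma all_on {Ω : Set ℂ} (hc : IsPreconnected Ω) (P : ℂ → Prop) {z0 : ℂ} (hz0 : z0 ∈ Ω)
    (h0 : ∀ᶠ z in 𝓝 z0, P z)
    (hcl : ∀ z1 ∈ Ω, z1 ∈ closure {z | ∀ᶠ y in 𝓝 z, P y} → ∀ᶠ z in 𝓝 z1, P z) :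
    ∀ z ∈ Ω, P z := by
  have h1 : Ω ⊆ {z | ∀ᶠ y in 𝓝 z, P y} :=
    hc.subset_of_closure_inter_subset isOpen_setOfPred_eventually_nhds ⟨z0, hz0, h0⟩
      fun z hz => hcl z hz.2 hz.1
  intro z hz
  have h2 : ∀ᶠ y in 𝓝 z, P y := h1 hz
  exact h2.self_of_nhds

lemma const_on {Z : Scheme.{0}} {f : ℂ → (Spec (CommRingCat.of ℂ) ⟶ Z)} {Ω : Set ℂ}
    (hc : IsPreconnected Ω) (hf : ∀ z ∈ Ω, HolAt f z) {z0 : ℂ} (hz0 : z0 ∈ Ω)
    (h0 : ∀ᶠ z in 𝓝 z0, f z = f z0) : ∀ z ∈ Ω, f z = f z0 := by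
  refine all_on hc _ hz0 h0 fun z1 hz1Ω hz1 => ?_
  obtain ⟨B, j, ev, r, hj, hr, hgz, hev⟩ := hf z1 hz1Ω
  obtain ⟨z2, hz2, hz2b⟩ := mem_closure_iff_nhds.1 hz1 _ (Metric.ball_mem_nhds z1 hr)
  have hz2e : ∀ᶠ y in 𝓝 z2, f y = f z0 := hz2b
  have h1 : ∀ᶠ y in 𝓝 z2, ev y = ev z2 := by
    filter_upwards [hz2e, Metric.isOpen_ball.mem_nhds hz2] with y hy hyb
    have h2 : f y = f z2 := hy.trans hz2e.self_of_nhds.symm
    rw [hgz y hyb, hgz z2 hz2] at h2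
    exact Spec.map_injective ((cancel_mono j).1 h2)
  have h3 : ∀ z ∈ Metric.ball z1 r, ev z = ev z2 := by
    intro z hz
    ext b
    have h4 : DifferentiableOn ℂ (fun z => ((ev z).hom b : ℂ) - ((ev z2).hom b : ℂ))
        (Metric.ball z1 r) := (hev b).sub_const _
    have h5 := ball_zero h4 hz2 (by
      filter_upwards [h1] with y hy
      rw [hy, sub_self]) z hz
    exact sub_eq_zero.1 h5
  filter_upwards [Metric.ball_mem_nhds z1 hr] with z hz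
  rw [hgz z hz, h3 z hz, ← hgz z2 hz2]
  exact hz2e.self_of_nhds

lemma closed_on {V V' : Scheme.{0}} (i : V' ⟶ V) [IsClosedImmersion i]
    {f : ℂ → (Spec (CommRingCat.of ℂ) ⟶ V)} {Ω : Set ℂ} (hc : IsPreconnected Ω)
    (hf : ∀ z ∈ Ω, HolAt f z) {z0 : ℂ} (hz0 : z0 ∈ Ω) (h0 : ∀ᶠ z in 𝓝 z0, ∃ Q, Q ≫ i = f z) :
    ∀ z ∈ Ω, ∃ Q, Q ≫ i = f z := by
  refine all_on hc _ hz0 h0 fun z1 hz1Ω hz1 => ?_
  obtain ⟨B, j, ev, r, hj, hr, hgz, hev⟩ := hf z1 hz1Ω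
  obtain ⟨J, hJ⟩ := exists_ideal i j
  obtain ⟨z2, hz2, hz2b⟩ := mem_closure_iff_nhds.1 hz1 _ (Metric.ball_mem_nhds z1 hr)
  have hz2e : ∀ᶠ y in 𝓝 z2, ∃ Q, Q ≫ i = f y := hz2b
  have h1 : ∀ b ∈ J, ∀ z ∈ Metric.ball z1 r, (ev z).hom b = 0 := by
    intro b hb
    refine ball_zero (hev b) hz2 ?_
    filter_upwards [hz2e, Metric.isOpen_ball.mem_nhds hz2] with y hy hyb
    rw [hgz y hyb] at hy
    exact (hJ _ _).1 hy b hb
  filter_upwards [Metric.ball_mem_nhds z1 hr] with z hz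
  rw [hgz z hz]
  exact (hJ _ _).2 fun b hb => h1 b hb z hz

/-- **The identity theorem**: a holomorphic map which meets a closed subscheme in points which
accumulate lies in it near the point of accumulation. -/
lemma closed_of_frequently {V V' : Scheme.{0}} (i : V' ⟶ V) [IsClosedImmersion i]
    {f : ℂ → (Spec (CommRingCat.of ℂ) ⟶ V)} {z1 : ℂ} (hf : HolAt f z1)
    (h : ∃ᶠ z in 𝓝[≠] z1, ∃ Q, Q ≫ i = f z) : ∀ᶠ z in 𝓝 z1, ∃ Q, Q ≫ i = f z := by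
  obtain ⟨B, j, ev, r, hj, hr, hgz, hev⟩ := hf
  obtain ⟨J, hJ⟩ := exists_ideal i j
  have h1 : ∀ b ∈ J, ∀ z ∈ Metric.ball z1 r, (ev z).hom b = 0 := by
    intro b hb
    refine ball_zero (hev b) (Metric.mem_ball_self hr) ?_
    have han : AnalyticAt ℂ (fun z => ((ev z).hom b : ℂ)) z1 :=
      (hev b).analyticAt (Metric.ball_mem_nhds _ hr)
    refine han.frequently_zero_iff_eventually_zero.1 ?_
    have h2 : ∀ᶠ z in 𝓝[≠] z1, z ∈ Metric.ball z1 r :=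
      mem_nhdsWithin_of_mem_nhds (Metric.ball_mem_nhds z1 hr)
    refine (h.and_eventually h2).mono fun z hz => ?_
    obtain ⟨hz1, hz2⟩ := hz
    rw [hgz z hz2] at hz1
    exact (hJ _ _).1 hz1 b hb
  filter_upwards [Metric.ball_mem_nhds z1 hr] with z hz
  rw [hgz z hz]
  exact (hJ _ _).2 fun b hb => h1 b hb z hz

/-- The theorem at the point `0`. -/
theorem local_zero {K : Type} [Field K] [NumberField K] (σ : K →+* ℂ)
    {Y V V' : Scheme.{0}} (sY : Y ⟶ Spec (CommRingCat.of (𝓞 K))) [LocallyOfFiniteType sY]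
    (sV : V ⟶ Spec (CommRingCat.of (𝓞 K)))
    (φ : Y ⟶ Y) (hφ : φ ≫ sY = sY) (π : Y ⟶ V) (hπ : π ≫ sV = sY) (i : V' ⟶ V)
    [IsClosedImmersion i] (hfin : IntegralFinite sV i)
    (f : ℂ → (Spec (CommRingCat.of ℂ) ⟶ V))
    (g : ℂ → (Spec (CommRingCat.of ℂ) ⟶ Y)) (hg : HolAt g 0)
    (hgs : ∀ᶠ z in 𝓝 (0 : ℂ), g z ≫ sY = Spec.map (strC σ))
    (hfg : ∀ᶠ z in 𝓝 (0 : ℂ), f z = g z ≫ π)
    (a : ℂ → ℂ) (ha : AnalyticAt ℂ a 0) (ha0 : a 0 = 0) (ha1 : deriv a 0 ≠ 0)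
    (hroot : ∀ k : ℕ, 0 < k → (deriv a 0) ^ k ≠ 1)
    (hsym : ∀ᶠ z in 𝓝 (0 : ℂ), g (a z) = g z ≫ φ) :
    (∀ᶠ z in 𝓝 (0 : ℂ), ∃ Q, Q ≫ i = f z) ∨ ∀ᶠ z in 𝓝 (0 : ℂ), f z = f 0 := by
  obtain ⟨B, j, ev, r, hj, hr, hgz, hev⟩ := hg
  have hnhds := Metric.ball_mem_nhds (0 : ℂ) hr
  have hgev : ∀ᶠ z in 𝓝 (0 : ℂ), g z = Spec.map (ev z) ≫ j := by
    filter_upwards [hnhds] with z hz
    exact hgz z hz
  have hcont : Filter.Tendsto a (𝓝 0) (𝓝 0) := by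
    have := ha.continuousAt
    rw [ContinuousAt, ha0] at this
    exact this
  have hgeva : ∀ᶠ z in 𝓝 (0 : ℂ), g (a z) = Spec.map (ev (a z)) ≫ j := hcont.eventually hgev
  have hc : constantCoeff (tay a) = 0 := by rw [tay_zero, ha0]
  have h1 := tayHom_str σ sY j ev hr hev (by
    filter_upwards [hgs, hgev] with z h1 h2
    rw [h2, Category.assoc] at h1
    exact h1)
  have h2 := tayHom_sym j ev hr hev φ ha ha0 (by
    filter_upwards [hsym, hgev, hgeva] with z h1 h2 h3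
    rw [h2, h3, Category.assoc] at h1
    exact h1) hc
  have h3 := integral_gen σ sY sV φ hφ π hπ i hfin (Spec.map (tayHom ev hr hev) ≫ j) h1 (tay a) hc
    (by rw [tay_one]; exact ha1) (by rw [tay_one]; exact hroot) h2
  have hfev : ∀ᶠ z in 𝓝 (0 : ℂ), f z = Spec.map (ev z) ≫ j ≫ π := by
    filter_upwards [hfg, hgev] with z h4 h5
    rw [h4, h5, Category.assoc]
  rcases h3 with h3 | h3
  · left
    filter_upwards [closed_of_formal j ev hr hev π i h3, hfev] with z h4 h5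
    rw [h5]
    exact h4
  · right
    filter_upwards [const_of_formal j ev hr hev π h3, hfev] with z h4 h5
    rw [h5, h4, ← hfev.self_of_nhds]

/-- **The local theorem.** -/
theorem local_thm {K : Type} [Field K] [NumberField K] (σ : K →+* ℂ)
    {V V' : Scheme.{0}} (sV : V ⟶ Spec (CommRingCat.of (𝓞 K))) (i : V' ⟶ V)
    [IsClosedImmersion i] (hfin : IntegralFinite sV i)
    (f : ℂ → (Spec (CommRingCat.of ℂ) ⟶ V)) (z0 : ℂ) (hdyn : DynAt σ sV f z0) :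
    (∀ᶠ z in 𝓝 z0, ∃ Q, Q ≫ i = f z) ∨ ∀ᶠ z in 𝓝 z0, f z = f z0 := by
  obtain ⟨Y, sY, φ, π, g, a, hsY, hφ, hπ, hg, hgs, ha, ha0, ha1, hroot, hsym, hfg⟩ := hdyn
  have hlim : Filter.Tendsto (fun z : ℂ => z0 + z) (𝓝 0) (𝓝 z0) := by
    have : Filter.Tendsto (fun z : ℂ => z0 + z) (𝓝 0) (𝓝 (z0 + 0)) :=
      (continuous_const.add continuous_id).tendsto 0
    rwa [add_zero] at this
  have hlim' : Filter.Tendsto (fun z : ℂ => z - z0) (𝓝 z0) (𝓝 0) := by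
    have : Filter.Tendsto (fun z : ℂ => z - z0) (𝓝 z0) (𝓝 (z0 - z0)) :=
      (continuous_id.sub continuous_const).tendsto z0
    rwa [sub_self] at this
  have hd : deriv (fun z : ℂ => a (z0 + z) - z0) 0 = deriv a z0 := by
    rw [deriv_sub_const, deriv_comp_const_add, add_zero]
  have han : AnalyticAt ℂ (fun z : ℂ => a (z0 + z) - z0) 0 := by
    have h1 : AnalyticAt ℂ (fun z : ℂ => z0 + z) 0 := analyticAt_const.add analyticAt_id
    have h2 : AnalyticAt ℂ a (z0 + 0) := by rw [add_zero]; exact ha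
    exact (AnalyticAt.comp (f := fun z : ℂ => z0 + z) (x := 0) h2 h1).sub analyticAt_const
  have h := local_zero σ sY sV φ hφ π hπ i hfin (fun z => f (z0 + z))
    (fun z => g (z0 + z))
    (HolAt.translate (z1 := 0) (by rw [add_zero]; exact hg)) (hlim.eventually hgs)
    (hlim.eventually hfg) (fun z => a (z0 + z) - z0) han (by simp [ha0])
    (by rw [hd]; exact ha1) (by rw [hd]; exact hroot) (by
      filter_upwards [hlim.eventually hsym] with z hz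
      rw [← hz]
      congr 1
      ring)
  rcases h with h | h
  · left
    filter_upwards [hlim'.eventually h] with z hz
    simp only [add_sub_cancel] at hz
    exact hz
  · right
    filter_upwards [hlim'.eventually h] with z hz
    simp only [add_sub_cancel, add_zero] at hz
    exact hz

theorem dynPoint_closed {K : Type} [Field K] [NumberField K] (σ : K →+* ℂ)
    {V V' : Scheme.{0}} (sV : V ⟶ Spec (CommRingCat.of (𝓞 K))) (i : V' ⟶ V)
    [IsClosedImmersion i] (hfin : IntegralFinite sV i) {v : Spec (CommRingCat.of ℂ) ⟶ V}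
    (hv : DynPoint σ sV v) : ∃ Q, Q ≫ i = v := by
  obtain ⟨Ω, h, -, hc, hh, ⟨z1, hz1, rfl⟩, ⟨z2, hz2, z3, hz3, hne⟩, z0, hz0, hdyn⟩ := hv
  rcases local_thm σ sV i hfin h z0 hdyn with h1 | h1
  · exact closed_on i hc hh hz0 h1 z1 hz1
  · have h2 := const_on hc hh hz0 h1
    exact absurd ((h2 z2 hz2).trans (h2 z3 hz3).symm) hne

/-- **Entire curves through dynamical points.** -/
theorem entire_dyn {K : Type} [Field K] [NumberField K] (σ : K →+* ℂ)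
    {V V' : Scheme.{0}} (sV : V ⟶ Spec (CommRingCat.of (𝓞 K))) (i : V' ⟶ V)
    [IsClosedImmersion i] (hfin : IntegralFinite sV i)
    (f : ℂ → (Spec (CommRingCat.of ℂ) ⟶ V)) (hf : ∀ z, HolAt f z)
    (hdyn : ∃ z1, ∃ᶠ z in 𝓝[≠] z1, DynPoint σ sV (f z)) : ∀ z, ∃ Q, Q ≫ i = f z := by
  obtain ⟨z1, hz1⟩ := hdyn
  have h1 := closed_of_frequently i (hf z1) (hz1.mono fun z hz => dynPoint_closed σ sV i hfin hz)
  intro z
  exact closed_on i isPreconnected_univ (fun z _ => hf z) (Set.mem_univ z1) h1 z (Set.mem_univ z)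

end Pool.Agent.K1H69.DC
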