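import Pool.Agent.K1H69.DC.Hol

/-!
Entire curves with a dynamical symmetry and integral points.
-/

set_option autoImplicit false

open AlgebraicGeometry CategoryTheory
open scoped NumberField

namespace Pool.Agent.K1H69.DC

open PowerSeries Topology

lemma HolAt.translate {Y : Scheme.{0}} {g : ℂ → (Spec (CommRingCat.of ℂ) ⟶ Y)} {z0 z1 : ℂ}
    (h : HolAt g (z0 + z1)) : HolAt (fun z => g (z0 + z)) z1 := by
  obtain ⟨B, j, ev, r, hj, hr, hgz, hev⟩ := h
  have hball : ∀ z ∈ Metric.ball z1 r, z0 + z ∈ Metric.ball (z0 + z1) r := by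
    intro z hz
    rw [Metric.mem_ball, dist_add_left]
    exact hz
  refine ⟨B, j, fun z => ev (z0 + z), r, hj, hr, fun z hz => hgz _ (hball z hz), fun b => ?_⟩
  exact (hev b).comp (fun z _ => (differentiableAt_id.const_add z0).differentiableWithinAt) hball

/-- The theorem at the point `0`. -/
theorem dynamical_zero {K : Type} [Field K] [NumberField K] (σ : K →+* ℂ)
    {Y V V' : Scheme.{0}} (sY : Y ⟶ Spec (CommRingCat.of (𝓞 K))) [LocallyOfFiniteType sY]
    (sV : V ⟶ Spec (CommRingCat.of (𝓞 K)))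
    (φ : Y ⟶ Y) (hφ : φ ≫ sY = sY) (π : Y ⟶ V) (hπ : π ≫ sV = sY) (i : V' ⟶ V)
    [IsClosedImmersion i] (hfin : IntegralFinite sV i)
    (f : ℂ → (Spec (CommRingCat.of ℂ) ⟶ V)) (hf : ∀ z, HolAt f z)
    (g : ℂ → (Spec (CommRingCat.of ℂ) ⟶ Y)) (hg : HolAt g 0)
    (hgs : ∀ᶠ z in 𝓝 (0 : ℂ), g z ≫ sY = Spec.map (strC σ))
    (hfg : ∀ᶠ z in 𝓝 (0 : ℂ), f z = g z ≫ π)
    (a : ℂ → ℂ) (ha : AnalyticAt ℂ a 0) (ha0 : a 0 = 0) (ha1 : deriv a 0 ≠ 0)
    (hroot : ∀ k : ℕ, 0 < k → (deriv a 0) ^ k ≠ 1)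
    (hsym : ∀ᶠ z in 𝓝 (0 : ℂ), g (a z) = g z ≫ φ) :
    (∀ z, ∃ Q, Q ≫ i = f z) ∨ ∀ z, f z = f 0 := by
  obtain ⟨B, j, ev, r, hj, hr, hgz, hev⟩ := hg
  have hnhds := Metric.ball_mem_nhds (0 : ℂ) hr
  have hgev : ∀ᶠ z in 𝓝 (0 : ℂ), g z = Spec.map (ev z) ≫ j := by
    filter_upwards [hnhds] with z hz
    exact hgz z hz
  have hcont : Filter.Tendsto a (𝓝 0) (𝓝 0) := by
    have := ha.continuousAt
    rw [ContinuousAt, ha0] at this
    exact this
  have hgeva : ∀ᶠ z in 𝓝 (0 : ℂ), g (a z) = Spec.map (ev (a z)) ≫ j := hcont.eventually hgev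
  have hc : constantCoeff (tay a) = 0 := by rw [tay_zero, ha0]
  have h1 := tayHom_str σ sY j ev hr hev (by
    filter_upwards [hgs, hgev] with z h1 h2
    rw [h2, Category.assoc] at h1
    exact h1)
  have h2 := tayHom_sym j ev hr hev φ ha ha0 (by
    filter_upwards [hsym, hgev, hgeva] with z h1 h2 h3
    rw [h2, h3, Category.assoc] at h1
    exact h1) hc
  have h3 := integral_gen σ sY sV φ hφ π hπ i hfin (Spec.map (tayHom ev hr hev) ≫ j) h1 (tay a) hc
    (by rw [tay_one]; exact ha1) (by rw [tay_one]; exact hroot) h2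
  have hfev : ∀ᶠ z in 𝓝 (0 : ℂ), f z = Spec.map (ev z) ≫ j ≫ π := by
    filter_upwards [hfg, hgev] with z h4 h5
    rw [h4, h5, Category.assoc]
  rcases h3 with h3 | h3
  · left
    refine closed_of_near i hf ?_
    filter_upwards [closed_of_formal j ev hr hev π i h3, hfev] with z h4 h5
    rw [h5]
    exact h4
  · right
    refine const_of_near hf ?_
    filter_upwards [const_of_formal j ev hr hev π h3, hfev] with z h4 h5
    rw [h5, h4, ← hfev.self_of_nhds]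

/-- **Entire curves with a dynamical symmetry.** -/
theorem dynamical {K : Type} [Field K] [NumberField K] (σ : K →+* ℂ)
    {Y V V' : Scheme.{0}} (sY : Y ⟶ Spec (CommRingCat.of (𝓞 K))) [LocallyOfFiniteType sY]
    (sV : V ⟶ Spec (CommRingCat.of (𝓞 K)))
    (φ : Y ⟶ Y) (hφ : φ ≫ sY = sY) (π : Y ⟶ V) (hπ : π ≫ sV = sY) (i : V' ⟶ V)
    [IsClosedImmersion i] (hfin : IntegralFinite sV i)
    (f : ℂ → (Spec (CommRingCat.of ℂ) ⟶ V)) (hf : ∀ z, HolAt f z) (z0 : ℂ)
    (g : ℂ → (Spec (CommRingCat.of ℂ) ⟶ Y)) (hg : HolAt g z0)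
    (hgs : ∀ᶠ z in 𝓝 z0, g z ≫ sY = Spec.map (strC σ))
    (hfg : ∀ᶠ z in 𝓝 z0, f z = g z ≫ π)
    (a : ℂ → ℂ) (ha : AnalyticAt ℂ a z0) (ha0 : a z0 = z0) (ha1 : deriv a z0 ≠ 0)
    (hroot : ∀ k : ℕ, 0 < k → (deriv a z0) ^ k ≠ 1)
    (hsym : ∀ᶠ z in 𝓝 z0, g (a z) = g z ≫ φ) :
    (∀ z, ∃ Q, Q ≫ i = f z) ∨ ∀ z, f z = f z0 := by
  have hlim : Filter.Tendsto (fun z : ℂ => z0 + z) (𝓝 0) (𝓝 z0) := by
    have : Filter.Tendsto (fun z : ℂ => z0 + z) (𝓝 0) (𝓝 (z0 + 0)) :=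
      (continuous_const.add continuous_id).tendsto 0
    rwa [add_zero] at this
  have hd : deriv (fun z : ℂ => a (z0 + z) - z0) 0 = deriv a z0 := by
    rw [deriv_sub_const, deriv_comp_const_add, add_zero]
  have han : AnalyticAt ℂ (fun z : ℂ => a (z0 + z) - z0) 0 := by
    have h1 : AnalyticAt ℂ (fun z : ℂ => z0 + z) 0 := analyticAt_const.add analyticAt_id
    have h2 : AnalyticAt ℂ a (z0 + 0) := by rw [add_zero]; exact ha
    exact (AnalyticAt.comp (f := fun z : ℂ => z0 + z) (x := 0) h2 h1).sub analyticAt_const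
  have h := dynamical_zero σ sY sV φ hφ π hπ i hfin (fun z => f (z0 + z))
    (fun z => (hf (z0 + z)).translate) (fun z => g (z0 + z))
    (HolAt.translate (z1 := 0) (by rw [add_zero]; exact hg)) (hlim.eventually hgs)
    (hlim.eventually hfg) (fun z => a (z0 + z) - z0) han (by simp [ha0])
    (by rw [hd]; exact ha1) (by rw [hd]; exact hroot) (by
      filter_upwards [hlim.eventually hsym] with z hz
      rw [← hz]
      congr 1
      ring)
  rcases h with h | h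
  · left
    intro z
    have := h (z - z0)
    simp only [add_sub_cancel] at this
    exact this
  · right
    intro z
    have := h (z - z0)
    simp only [add_sub_cancel, add_zero] at this
    exact this

end Pool.Agent.K1H69.DC
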