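import Mathlib

/-!
Truncated power series and their values at small `p`-adic numbers.
-/

set_option autoImplicit false

namespace Pool.Agent.K1H69.DC

open Finset

section near

variable {k R : Type} [Field k] [CommRing R]

/-- The coefficients of the power series `T` and of the polynomial `t` at the exponents below `m`
are equal. -/
def Near (ρ : R →+* k) (m : ℕ) (T : PowerSeries k) (t : Polynomial R) : Prop :=
  ∀ n < m, PowerSeries.coeff n T = ρ (t.coeff n)

lemma Near.mono {ρ : R →+* k} {m m' : ℕ} (hm : m ≤ m') {T : PowerSeries k} {t : Polynomial R}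
    (h : Near ρ m' T t) : Near ρ m T t := fun n hn => h n (lt_of_lt_of_le hn hm)

lemma Near.add {ρ : R →+* k} {m : ℕ} {T T' : PowerSeries k} {t t' : Polynomial R}
    (h : Near ρ m T t) (h' : Near ρ m T' t') : Near ρ m (T + T') (t + t') := by
  intro n hn
  rw [map_add, Polynomial.coeff_add, map_add, h n hn, h' n hn]

lemma Near.sub {ρ : R →+* k} {m : ℕ} {T T' : PowerSeries k} {t t' : Polynomial R}
    (h : Near ρ m T t) (h' : Near ρ m T' t') : Near ρ m (T - T') (t - t') := by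
  intro n hn
  rw [map_sub, Polynomial.coeff_sub, map_sub, h n hn, h' n hn]

lemma Near.mul {ρ : R →+* k} {m : ℕ} {T T' : PowerSeries k} {t t' : Polynomial R}
    (h : Near ρ m T t) (h' : Near ρ m T' t') : Near ρ m (T * T') (t * t') := by
  intro n hn
  rw [PowerSeries.coeff_mul, Polynomial.coeff_mul, map_sum]
  refine Finset.sum_congr rfl fun x hx => ?_
  have := Finset.HasAntidiagonal.mem_antidiagonal.1 hx
  rw [map_mul, h _ (by omega), h' _ (by omega)]

lemma Near.C (ρ : R →+* k) (m : ℕ) (c : R) :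
    Near ρ m (PowerSeries.C (ρ c)) (Polynomial.C c) := by
  intro n _
  rw [PowerSeries.coeff_C, Polynomial.coeff_C]
  split_ifs <;> simp

lemma Near.aeval {A0 : Type} [CommRing A0] [Algebra A0 k] [Algebra A0 R] (ρ : R →ₐ[A0] k)
    {m : ℕ} {I : Type} {T : I → PowerSeries k} {t : I → Polynomial R}
    (h : ∀ i, Near ρ.toRingHom m (T i) (t i)) (Q : MvPolynomial I A0) :
    Near ρ.toRingHom m (MvPolynomial.aeval T Q) (MvPolynomial.aeval t Q) := by
  induction Q using MvPolynomial.induction_on with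
  | C c =>
    rw [MvPolynomial.aeval_C, MvPolynomial.aeval_C]
    have h1 : algebraMap A0 (PowerSeries k) c = PowerSeries.C (ρ.toRingHom (algebraMap A0 R c)) := by
      change _ = PowerSeries.C (ρ (algebraMap A0 R c))
      rw [ρ.commutes]
      rw [PowerSeries.algebraMap_apply]
    rw [h1]
    exact Near.C _ _ _
  | add P Q hP hQ => rw [map_add, map_add]; exact hP.add hQ
  | mul_X P i hP => rw [map_mul, map_mul, MvPolynomial.aeval_X, MvPolynomial.aeval_X]; exact hP.mul (h i)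

/-- substitution `X ↦ c X` -/
lemma Near.rescale {ρ : R →+* k} {m : ℕ} {T : PowerSeries k} {t : Polynomial R}
    (h : Near ρ m T t) (c : R) :
    Near ρ m (PowerSeries.rescale (ρ c) T) (t.comp (Polynomial.C c * Polynomial.X)) := by
  intro n hn
  rw [PowerSeries.coeff_rescale, h n hn, Polynomial.comp_C_mul_X_coeff, map_mul, map_pow, mul_comm]

end near

variable {p : ℕ} [hp : Fact p.Prime]

lemma norm_add_le' {x y : ℤ_[p]} {c : ℝ} (hx : ‖x‖ ≤ c) (hy : ‖y‖ ≤ c) : ‖x + y‖ ≤ c :=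
  (PadicInt.nonarchimedean x y).trans (max_le hx hy)

lemma norm_sub_le' {x y : ℤ_[p]} {c : ℝ} (hx : ‖x‖ ≤ c) (hy : ‖y‖ ≤ c) : ‖x - y‖ ≤ c := by
  rw [sub_eq_add_neg]; exact norm_add_le' hx (by rwa [norm_neg])

lemma norm_mul_le_right' (x : ℤ_[p]) {y : ℤ_[p]} {c : ℝ} (hy : ‖y‖ ≤ c) : ‖x * y‖ ≤ c := by
  rw [norm_mul]
  exact (mul_le_of_le_one_left (norm_nonneg _) (PadicInt.norm_le_one x)).trans hy

lemma norm_mul_le_left' {x : ℤ_[p]} (y : ℤ_[p]) {c : ℝ} (hx : ‖x‖ ≤ c) : ‖x * y‖ ≤ c := by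
  rw [mul_comm]; exact norm_mul_le_right' y hx

/-- Polynomials are Lipschitz. -/
lemma lip {A0 I : Type} [CommRing A0] [Algebra A0 ℤ_[p]] {x y : I → ℤ_[p]} {c : ℝ} (hc : 0 ≤ c)
    (h : ∀ i, ‖x i - y i‖ ≤ c) (Q : MvPolynomial I A0) :
    ‖MvPolynomial.aeval x Q - MvPolynomial.aeval y Q‖ ≤ c := by
  induction Q using MvPolynomial.induction_on with
  | C a => simpa using hc
  | add P Q hP hQ =>
    rw [map_add, map_add, add_sub_add_comm]
    exact norm_add_le' hP hQ
  | mul_X P i hP =>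
    rw [map_mul, map_mul, MvPolynomial.aeval_X, MvPolynomial.aeval_X]
    have : MvPolynomial.aeval x P * x i - MvPolynomial.aeval y P * y i =
        MvPolynomial.aeval x P * (x i - y i) +
        (MvPolynomial.aeval x P - MvPolynomial.aeval y P) * y i := by ring
    rw [this]
    exact norm_add_le' (norm_mul_le_right' _ (h i)) (norm_mul_le_left' _ hP)

variable {R : Type} [CommRing R]

lemma norm_ev_le (ι : R →+* ℤ_[p]) {m : ℕ} {w : Polynomial R} (hw : ∀ n < m, w.coeff n = 0)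
    (s : ℤ_[p]) : ‖w.eval₂ ι s‖ ≤ ‖s‖ ^ m := by
  obtain ⟨w', rfl⟩ := Polynomial.X_pow_dvd_iff.2 hw
  rw [Polynomial.eval₂_mul, Polynomial.eval₂_X_pow, norm_mul, norm_pow]
  exact mul_le_of_le_one_right (by positivity) (PadicInt.norm_le_one _)

lemma norm_ev_eq (ι : R →+* ℤ_[p]) {r : ℕ} {w : Polynomial R} (hw : ∀ n < r, w.coeff n = 0)
    {s : ℤ_[p]} (hs : ‖s‖ < ‖ι (w.coeff r)‖) :
    ‖w.eval₂ ι s‖ = ‖s‖ ^ r * ‖ι (w.coeff r)‖ := by
  obtain ⟨w', rfl⟩ := Polynomial.X_pow_dvd_iff.2 hw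
  have h1 : (Polynomial.X ^ r * w').coeff r = w'.coeff 0 := by
    simpa using Polynomial.coeff_X_pow_mul w' r 0
  rw [h1] at hs ⊢
  rw [Polynomial.eval₂_mul, Polynomial.eval₂_X_pow, norm_mul, norm_pow]
  congr 1
  obtain ⟨w'', hw''⟩ : Polynomial.X ∣ w' - Polynomial.C (w'.coeff 0) := by
    rw [Polynomial.X_dvd_iff]; simp
  have h2 : w' = Polynomial.C (w'.coeff 0) + Polynomial.X * w'' := by
    rw [← hw'']; ring
  have h3 : w'.eval₂ ι s = ι (w'.coeff 0) + s * w''.eval₂ ι s := by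
    conv_lhs => rw [h2]
    simp
  have h4 : ‖s * w''.eval₂ ι s‖ < ‖ι (w'.coeff 0)‖ :=
    lt_of_le_of_lt (norm_mul_le_left' _ le_rfl) hs
  rw [h3, PadicInt.norm_add_eq_max_of_ne h4.ne', max_eq_left h4.le]

lemma comp_ev (ι : R →+* ℤ_[p]) (t : Polynomial R) (c : R) (s : ℤ_[p]) :
    (t.comp (Polynomial.C c * Polynomial.X)).eval₂ ι s = t.eval₂ ι (ι c * s) := by
  rw [Polynomial.eval₂_comp]
  simp

lemma aeval_ev {A0 I : Type} [CommRing A0] [Algebra A0 R] [Algebra A0 ℤ_[p]]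
    (ι : R →ₐ[A0] ℤ_[p]) (t : I → Polynomial R) (s : ℤ_[p]) (Q : MvPolynomial I A0) :
    (MvPolynomial.aeval t Q).eval₂ ι.toRingHom s =
      MvPolynomial.aeval (fun i => (t i).eval₂ ι.toRingHom s) Q := by
  induction Q using MvPolynomial.induction_on with
  | C c =>
    rw [MvPolynomial.aeval_C, MvPolynomial.aeval_C]
    change (Polynomial.C (algebraMap A0 R c)).eval₂ _ _ = _
    rw [Polynomial.eval₂_C]
    exact ι.commutes c
  | add P Q hP hQ => rw [map_add, map_add, Polynomial.eval₂_add, hP, hQ]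
  | mul_X P i hP =>
    rw [map_mul, map_mul, MvPolynomial.aeval_X, MvPolynomial.aeval_X, Polynomial.eval₂_mul, hP]

end Pool.Agent.K1H69.DC
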