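import Mathlib

/-!
Extension of rational points of proper schemes over Dedekind domains.
-/

set_option autoImplicit false

open AlgebraicGeometry CategoryTheory

namespace Pool.Agent.K1H69.DC

lemma gen_eq (R : CommRingCat.{0}) [IsDomain R] :
    (Spec R).fromSpecStalk (genericPoint (Spec R)) =
      Spec.map (CommRingCat.ofHom (algebraMap R (Spec R).functionField)) :=
  Spec.fromSpecStalk_eq' _ _

lemma valuationRing_loc (R S : Type) [CommRing R] [IsDedekindDomain R] [CommRing S] [IsDomain S]
    [Algebra R S] (P : Ideal R) [P.IsPrime] [IsLocalization.AtPrime S P] : ValuationRing S := by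
  by_cases hP : P = ⊥
  · have h1 : IsFractionRing R S := by
      have h2 : P.primeCompl = nonZeroDivisors R := by
        ext x
        rw [mem_nonZeroDivisors_iff_ne_zero, Ideal.mem_primeCompl_iff, hP, Ideal.mem_bot]
      have h3 : IsLocalization P.primeCompl S := inferInstance
      rw [h2] at h3
      exact h3
    have h4 : IsField S := (IsFractionRing.toField R (K := S)).toIsField
    exact @ValuationRing.of_field S h4.toField
  · have h2 : IsDiscreteValuationRing S :=
      IsLocalization.AtPrime.isDiscreteValuationRing_of_dedekind_domain R hP _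
    infer_instance

lemma valuationRing_stalk (R : CommRingCat.{0}) [IsDedekindDomain R]
    (x : (Spec R : Scheme.{0})) :
    ValuationRing ((Spec R).presheaf.stalk x) :=
  @valuationRing_loc R ((Spec.structureSheaf R).presheaf.stalk x) _ _ _
    (inferInstanceAs (IsDomain ((Spec R).presheaf.stalk x)))
    (StructureSheaf.stalkAlgebra R (x : PrimeSpectrum R)) (PrimeSpectrum.asIdeal x)
    (PrimeSpectrum.isPrime x) (StructureSheaf.IsLocalization.to_stalk R x)

lemma stalk_restrict {X V : Scheme.{0}} [IsIntegral X] (f : X.PartialMap V) (x : X)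
    (hx : x ∈ f.domain) :
    Spec.map (CommRingCat.ofHom (algebraMap (X.presheaf.stalk x) X.functionField)) ≫
      f.fromSpecStalkOfMem hx = f.fromFunctionField := by
  rw [Scheme.PartialMap.fromFunctionField, Scheme.PartialMap.fromSpecStalkOfMem,
    Scheme.PartialMap.fromSpecStalkOfMem, ← Category.assoc]
  congr 1
  rw [← cancel_mono f.domain.ι, Category.assoc, Scheme.Opens.fromSpecStalkOfMem_ι,
    Scheme.Opens.fromSpecStalkOfMem_ι]
  exact Scheme.SpecMap_stalkSpecializes_fromSpecStalk ((genericPoint_spec X).specializes trivial)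

/-- The existence part of the valuative criterion. -/
lemma val_lift {V Z : Scheme.{0}} (sV : V ⟶ Z) [UniversallyClosed sV] (O F : Type) [CommRing O]
    [IsDomain O] [ValuationRing O] [Field F] [Algebra O F] [IsFractionRing O F]
    (i1 : Spec (CommRingCat.of F) ⟶ V) (i2 : Spec (CommRingCat.of O) ⟶ Z)
    (h : i1 ≫ sV = Spec.map (CommRingCat.ofHom (algebraMap O F)) ≫ i2) :
    ∃ l : Spec (CommRingCat.of O) ⟶ V, Spec.map (CommRingCat.ofHom (algebraMap O F)) ≫ l = i1 ∧
      l ≫ sV = i2 := by
  have hex : ValuativeCriterion.Existence sV := by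
    have h1 : UniversallyClosed sV := inferInstance
    rw [UniversallyClosed.eq_valuativeCriterion] at h1
    exact h1.1
  let S : ValuativeCommSq sV := { R := O, K := F, i₁ := i1, i₂ := i2, commSq := ⟨h⟩ }
  obtain ⟨l, hl1, hl2⟩ := (hex S).exists_lift
  exact ⟨l, hl1, hl2⟩

lemma stalk_lift {X V Z : Scheme.{0}} [IsIntegral X] (sV : V ⟶ Z) [UniversallyClosed sV]
    (t : X ⟶ Z) (x : X) (hx : ValuationRing (X.presheaf.stalk x)) (f0 : Spec X.functionField ⟶ V)
    (h : f0 ≫ sV = X.fromSpecStalk (genericPoint X) ≫ t) :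
    ∃ l : Spec (X.presheaf.stalk x) ⟶ V,
      Spec.map (CommRingCat.ofHom (algebraMap (X.presheaf.stalk x) X.functionField)) ≫ l = f0 ∧
      l ≫ sV = X.fromSpecStalk x ≫ t := by
  have hd : IsDomain (X.presheaf.stalk x) := inferInstance
  refine @val_lift V Z sV _ (X.presheaf.stalk x) X.functionField _ hd hx _ _ _ f0
    (X.fromSpecStalk x ≫ t) ?_
  refine h.trans ?_
  have h1 := Scheme.SpecMap_stalkSpecializes_fromSpecStalk (X := X)
    ((genericPoint_spec X).specializes trivial : genericPoint X ⤳ x)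
  rw [← h1, Category.assoc]
  rfl

/-- **Extension.** -/
theorem exists_extension (R : CommRingCat.{0}) [IsDedekindDomain R] {V Z : Scheme.{0}}
    (sV : V ⟶ Z) [IsProper sV] [V.IsSeparated] (t : Spec R ⟶ Z)
    (f0 : Spec (Spec R).functionField ⟶ V)
    (h : f0 ≫ sV = (Spec R).fromSpecStalk (genericPoint (Spec R)) ≫ t) :
    ∃ P' : Spec R ⟶ V, (Spec R).fromSpecStalk (genericPoint (Spec R)) ≫ P' = f0 := by
  let r : (Spec R) ⤏ V := Scheme.RationalMap.ofFunctionField t sV f0 h
  have hr : r.fromFunctionField = f0 :=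
    Scheme.RationalMap.fromFunctionField_ofFunctionField t sV f0 h
  have hdom : r.domain = ⊤ := by
    rw [eq_top_iff]
    intro x _
    obtain ⟨l, hl1, hl2⟩ := stalk_lift sV t x (valuationRing_stalk R x) f0 h
    let p := Scheme.PartialMap.ofFromSpecStalk t sV l hl2
    rw [Scheme.RationalMap.mem_domain]
    refine ⟨p, Scheme.PartialMap.mem_domain_ofFromSpecStalk t sV l hl2, ?_⟩
    apply Scheme.RationalMap.eq_of_fromFunctionField_eq
    rw [hr, Scheme.RationalMap.fromFunctionField_toRationalMap,
      ← stalk_restrict p x (Scheme.PartialMap.mem_domain_ofFromSpecStalk t sV l hl2),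
      Scheme.PartialMap.fromSpecStalkOfMem_ofFromSpecStalk]
    exact hl1
  have h1 : r.toPartialMap.fromFunctionField = f0 := by
    rw [← Scheme.RationalMap.fromFunctionField_toRationalMap,
      Scheme.RationalMap.toRationalMap_toPartialMap, hr]
  have h2 : r.toPartialMap.domain = ⊤ := hdom
  refine ⟨(Scheme.topIso _).inv ≫ ((Spec R).isoOfEq h2).inv ≫ r.toPartialMap.hom, ?_⟩
  rw [← h1, Scheme.PartialMap.fromFunctionField, Scheme.PartialMap.fromSpecStalkOfMem]
  simp only [← Category.assoc]
  congr 1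
  rw [← cancel_mono r.toPartialMap.domain.ι, Scheme.Opens.fromSpecStalkOfMem_ι]
  simp

lemma transport (R : CommRingCat.{0}) (L : Type) [Field L] [Algebra R L] [IsFractionRing R L]
    (F : CommRingCat.{0}) [Algebra R F] [IsFractionRing R F] :
    ∃ (a : CommRingCat.of L ⟶ F) (b : F ⟶ CommRingCat.of L),
      CommRingCat.ofHom (algebraMap R L) ≫ a = CommRingCat.ofHom (algebraMap R F) ∧
      CommRingCat.ofHom (algebraMap R F) ≫ b = CommRingCat.ofHom (algebraMap R L) ∧
      a ≫ b = 𝟙 _ := by
  let θ : L ≃ₐ[R] F := IsLocalization.algEquiv (nonZeroDivisors R) L F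
  refine ⟨CommRingCat.ofHom (θ : L →+* F), CommRingCat.ofHom (θ.symm : F →+* L), ?_, ?_, ?_⟩
  · ext a
    exact θ.commutes a
  · ext a
    exact θ.symm.commutes a
  · ext a
    exact θ.symm_apply_apply a

lemma transport_gen (R : CommRingCat.{0}) (L : Type) [IsDomain R] [Field L] [Algebra R L]
    [IsFractionRing R L] : ∃ (u : R ⟶ (Spec R).functionField)
      (a : CommRingCat.of L ⟶ (Spec R).functionField)
      (b : (Spec R).functionField ⟶ CommRingCat.of L),
      (Spec R).fromSpecStalk (genericPoint (Spec R)) = Spec.map u ∧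
      CommRingCat.ofHom (algebraMap R L) ≫ a = u ∧ u ≫ b = CommRingCat.ofHom (algebraMap R L) ∧
      a ≫ b = 𝟙 _ := by
  obtain ⟨a, b, h1, h2, h3⟩ := transport R L (Spec R).functionField
  exact ⟨_, a, b, gen_eq R, h1, h2, h3⟩

/-- **Extension of points with values in the field of fractions of a Dedekind domain.** -/
theorem extend_point' (R : CommRingCat.{0}) (L : Type) [IsDedekindDomain R] [Field L]
    [Algebra R L] [IsFractionRing R L] {V Z : Scheme.{0}} (sV : V ⟶ Z) [IsProper sV]
    [V.IsSeparated] (t : Spec R ⟶ Z) (P : Spec (CommRingCat.of L) ⟶ V)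
    (h : P ≫ sV = Spec.map (CommRingCat.ofHom (algebraMap R L)) ≫ t) :
    ∃ P' : Spec R ⟶ V, Spec.map (CommRingCat.ofHom (algebraMap R L)) ≫ P' = P := by
  obtain ⟨u, a, b, h0, h1, h2, h3⟩ := transport_gen R L
  obtain ⟨P', hP'⟩ := exists_extension R sV t (Spec.map a ≫ P) (by
    rw [Category.assoc, h, h0, ← h1, Spec.map_comp, Category.assoc])
  refine ⟨P', ?_⟩
  rw [h0] at hP'
  rw [← h2, Spec.map_comp, Category.assoc, hP', ← Category.assoc, ← Spec.map_comp, h3,
    Spec.map_id, Category.id_comp]

theorem extend_point (A L : Type) [CommRing A] [IsDedekindDomain A] [Field L] [Algebra A L]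
    [IsFractionRing A L] {V Z : Scheme.{0}} (sV : V ⟶ Z) [IsProper sV] [V.IsSeparated]
    (t : Spec (CommRingCat.of A) ⟶ Z) (P : Spec (CommRingCat.of L) ⟶ V)
    (h : P ≫ sV = Spec.map (CommRingCat.ofHom (algebraMap A L)) ≫ t) :
    ∃ P' : Spec (CommRingCat.of A) ⟶ V,
      Spec.map (CommRingCat.ofHom (algebraMap A L)) ≫ P' = P :=
  extend_point' (CommRingCat.of A) L sV t P h

end Pool.Agent.K1H69.DC
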