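import Pool.Agent.K1H69.DC.Core

/-!
From the core theorem to orbits of points with values in a number field.
-/

set_option autoImplicit false

open scoped NumberField

namespace Pool.Agent.K1H69.DC

lemma orbit_ring {K : Type} [Field K] [NumberField K] (σ : K →+* ℂ) {B : Type} [CommRing B]
    (β : 𝓞 K →+* B) {N : ℕ} (b : Fin N → B)
    (hb : Function.Surjective (MvPolynomial.eval₂Hom β b))
    (T : B →+* PowerSeries ℂ)
    (hT : ∀ c, T (β c) = PowerSeries.C (σ (algebraMap (𝓞 K) K c)))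
    {lam : ℂ} (hlam0 : lam ≠ 0) (hroot : ∀ k : ℕ, 0 < k → lam ^ k ≠ 1)
    (w : B) (Φ : Fin N → B) (hw : PowerSeries.constantCoeff (T w) ≠ 0)
    (hΦ : ∀ i, T w * PowerSeries.rescale lam (T (b i)) = T (Φ i)) (h G : B) (hG : T G ≠ 0)
    (hh : ∃ s, 0 < s ∧ PowerSeries.coeff s (T h * (T w)⁻¹) ≠ 0) :
    ∃ (L : Type) (_ : Field L) (_ : NumberField L) (_ : Algebra K L) (χ : ℕ → (B →+* L)),
      (∀ n c, χ n (β c) = algebraMap (𝓞 K) L c) ∧ (∀ n, χ n w ≠ 0) ∧
      (∀ n i, χ n w * χ (n + 1) (b i) = χ n (Φ i)) ∧ (∀ n, χ n G ≠ 0) ∧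
      (Set.range fun n => χ n h / χ n w).Infinite := by
  classical
  let _ : Algebra (𝓞 K) ℂ := (σ.comp (algebraMap (𝓞 K) K)).toAlgebra
  have hft : Algebra.FiniteType ℤ (𝓞 K) := inferInstance
  have hint : ∀ c : 𝓞 K, IsIntegral ℤ c := fun c => NumberField.RingOfIntegers.isIntegral c
  -- lifts
  have haev : ∀ Q : MvPolynomial (Fin N) (𝓞 K),
      MvPolynomial.aeval (fun i => T (b i)) Q = T (MvPolynomial.eval₂Hom β b Q) := by
    intro Q
    have : (MvPolynomial.aeval (fun i => T (b i)) :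
        MvPolynomial (Fin N) (𝓞 K) →ₐ[𝓞 K] PowerSeries ℂ).toRingHom =
        T.comp (MvPolynomial.eval₂Hom β b) := by
      apply MvPolynomial.ringHom_ext
      · intro c
        simp only [AlgHom.toRingHom_eq_coe, RingHom.coe_coe, RingHom.comp_apply,
          MvPolynomial.coe_eval₂Hom, MvPolynomial.eval₂_C, hT]
        rw [MvPolynomial.aeval_C, PowerSeries.algebraMap_apply]
        rfl
      · intro i
        simp
    exact congrArg (fun F => F Q) this
  obtain ⟨q, hq⟩ := hb w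
  choose Ψ hΨ using fun i => hb (Φ i)
  obtain ⟨h', hh'⟩ := hb h
  obtain ⟨G', hG'⟩ := hb G
  obtain ⟨p, hp, ψ, x, h1, h2, h3, h4, h5, h6, h7⟩ := core hint (fun i => T (b i)) hlam0 hroot q Ψ
    (by rw [haev, hq]; exact hw) (fun i => by rw [haev, haev, hq, hΨ]; exact hΦ i) h' G'
    (by rw [haev, hG']; exact hG) (by rw [haev, haev, hq, hh']; exact hh)
  -- the embedding of `K`
  have hψ : Function.Injective ((algebraMap ℤ_[p] ℚ_[p]).comp ψ) := by
    rw [injective_iff_map_eq_zero]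
    intro c hc
    have hc1 : ψ c = 0 := by
      have := hc
      rw [RingHom.comp_apply] at this
      exact (map_eq_zero_iff _ (IsFractionRing.injective ℤ_[p] ℚ_[p])).1 this
    have h8 := h1 c hc1
    have h9 : σ (algebraMap (𝓞 K) K c) = 0 := h8
    rw [map_eq_zero] at h9
    exact (map_eq_zero_iff _ (IsFractionRing.injective (𝓞 K) K)).1 h9
  let ψK : K →+* ℚ_[p] := IsFractionRing.lift hψ
  have hψK : ∀ c : 𝓞 K, ψK (algebraMap (𝓞 K) K c) = ((ψ c : ℤ_[p]) : ℚ_[p]) := fun c =>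
    IsFractionRing.lift_algebraMap hψ c
  let _ : Algebra K ℚ_[p] := ψK.toAlgebra
  have : IsScalarTower ℚ K ℚ_[p] := by
    refine IsScalarTower.of_algebraMap_eq fun c => ?_
    rw [eq_ratCast, eq_ratCast, map_ratCast]
  let L : IntermediateField K ℚ_[p] :=
    IntermediateField.adjoin K (Set.range fun i => ((x 0 i : ℤ_[p]) : ℚ_[p]))
  have hfin : FiniteDimensional K L := by
    refine IntermediateField.finiteDimensional_adjoin ?_
    rintro _ ⟨i, rfl⟩
    exact ((h2 0 i).tower_top K).isIntegral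
  have hfinQ : FiniteDimensional ℚ L := FiniteDimensional.trans ℚ K L
  have : NumberField L := ⟨⟩
  -- the maps of polynomials
  have hval : ∀ (y : Fin N → ℤ_[p]) (Q : MvPolynomial (Fin N) (𝓞 K)),
      ((MvPolynomial.eval₂ ψ y Q : ℤ_[p]) : ℚ_[p]) =
        MvPolynomial.eval₂ (ψK.comp (algebraMap (𝓞 K) K)) (fun i => ((y i : ℤ_[p]) : ℚ_[p])) Q := by
    intro y Q
    have : (algebraMap ℤ_[p] ℚ_[p]).comp (MvPolynomial.eval₂Hom ψ y) =
        MvPolynomial.eval₂Hom (ψK.comp (algebraMap (𝓞 K) K))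
          (fun i => ((y i : ℤ_[p]) : ℚ_[p])) := by
      apply MvPolynomial.ringHom_ext
      · intro c
        simp only [RingHom.comp_apply, MvPolynomial.coe_eval₂Hom, MvPolynomial.eval₂_C]
        exact (hψK c).symm
      · intro i
        simp only [RingHom.comp_apply, MvPolynomial.coe_eval₂Hom, MvPolynomial.eval₂_X]
        rfl
    exact congrArg (fun F => F Q) this
  have hmem : ∀ (y : Fin N → L) (Q : MvPolynomial (Fin N) (𝓞 K)),
      MvPolynomial.eval₂ (ψK.comp (algebraMap (𝓞 K) K)) (fun i => (y i : ℚ_[p])) Q =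
        ((MvPolynomial.eval₂ (algebraMap (𝓞 K) L) y Q : L) : ℚ_[p]) := by
    intro y Q
    have : (algebraMap L ℚ_[p]).comp (MvPolynomial.eval₂Hom (algebraMap (𝓞 K) L) y) =
        MvPolynomial.eval₂Hom (ψK.comp (algebraMap (𝓞 K) K)) (fun i => (y i : ℚ_[p])) := by
      apply MvPolynomial.ringHom_ext
      · intro c
        simp only [RingHom.comp_apply, MvPolynomial.coe_eval₂Hom, MvPolynomial.eval₂_C]
        rfl
      · intro i
        simp only [RingHom.comp_apply, MvPolynomial.coe_eval₂Hom, MvPolynomial.eval₂_X]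
        rfl
    exact (congrArg (fun F => F Q) this).symm
  have hx : ∀ n, ∀ i, ((x n i : ℤ_[p]) : ℚ_[p]) ∈ L := by
    intro n
    induction n with
    | zero => exact fun i => IntermediateField.subset_adjoin _ _ ⟨i, rfl⟩
    | succ n ih =>
      intro i
      have h8 := congrArg (fun t : ℤ_[p] => (t : ℚ_[p])) (h4 n i)
      simp only [PadicInt.coe_mul] at h8
      have hu : ((MvPolynomial.eval₂ ψ (x n) q : ℤ_[p]) : ℚ_[p]) ≠ 0 := by
        intro h0
        have : MvPolynomial.eval₂ ψ (x n) q = 0 := PadicInt.coe_eq_zero.1 h0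
        exact (h3 n).ne_zero this
      have h9 : ((x (n + 1) i : ℤ_[p]) : ℚ_[p]) =
          ((MvPolynomial.eval₂ ψ (x n) (Ψ i) : ℤ_[p]) : ℚ_[p]) /
            ((MvPolynomial.eval₂ ψ (x n) q : ℤ_[p]) : ℚ_[p]) := by
        rw [eq_div_iff hu, mul_comm]
        exact h8
      rw [h9]
      refine div_mem ?_ ?_
      · rw [hval, hmem (fun i => ⟨_, ih i⟩)]
        exact SetLike.coe_mem _
      · rw [hval, hmem (fun i => ⟨_, ih i⟩)]
        exact SetLike.coe_mem _
  let y : ℕ → Fin N → L := fun n i => ⟨_, hx n i⟩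
  have hy : ∀ n (Q : MvPolynomial (Fin N) (𝓞 K)),
      ((MvPolynomial.eval₂ (algebraMap (𝓞 K) L) (y n) Q : L) : ℚ_[p]) =
        ((MvPolynomial.eval₂ ψ (x n) Q : ℤ_[p]) : ℚ_[p]) := by
    intro n Q
    rw [hval]
    exact (hmem (y n) Q).symm
  have hker : ∀ n, RingHom.ker (MvPolynomial.eval₂Hom β b) ≤
      RingHom.ker (MvPolynomial.eval₂Hom (algebraMap (𝓞 K) L) (y n)) := by
    intro n Q hQ
    rw [RingHom.mem_ker] at hQ ⊢
    have h8 : MvPolynomial.aeval (fun i => T (b i)) Q = 0 := by rw [haev, hQ, map_zero]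
    have h9 := h5 n Q h8
    have h10 := hy n Q
    rw [h9] at h10
    apply Subtype.ext
    rw [MvPolynomial.coe_eval₂Hom, h10]
    rfl
  let χ : ℕ → (B →+* L) := fun n =>
    RingHom.liftOfSurjective (MvPolynomial.eval₂Hom β b) hb
      ⟨MvPolynomial.eval₂Hom (algebraMap (𝓞 K) L) (y n), hker n⟩
  have hχ : ∀ n Q, χ n (MvPolynomial.eval₂Hom β b Q) =
      MvPolynomial.eval₂ (algebraMap (𝓞 K) L) (y n) Q := by
    intro n Q
    exact RingHom.liftOfRightInverse_comp_apply _ _ _ ⟨_, hker n⟩ Q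
  have hyinj : ∀ n m (Q R : MvPolynomial (Fin N) (𝓞 K)),
      MvPolynomial.eval₂ ψ (x n) Q = MvPolynomial.eval₂ ψ (x m) R →
      MvPolynomial.eval₂ (algebraMap (𝓞 K) L) (y n) Q =
        MvPolynomial.eval₂ (algebraMap (𝓞 K) L) (y m) R := by
    intro n m Q R hQR
    apply Subtype.ext
    rw [hy, hy, hQR]
  have hyne : ∀ n (Q : MvPolynomial (Fin N) (𝓞 K)), MvPolynomial.eval₂ ψ (x n) Q ≠ 0 →
      MvPolynomial.eval₂ (algebraMap (𝓞 K) L) (y n) Q ≠ 0 := by
    intro n Q hQ h0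
    apply hQ
    have := hy n Q
    rw [h0] at this
    have h8 : ((MvPolynomial.eval₂ ψ (x n) Q : ℤ_[p]) : ℚ_[p]) = 0 := this.symm
    exact PadicInt.coe_eq_zero.1 h8
  refine ⟨L, inferInstance, inferInstance, inferInstance, χ, fun n c => ?_, fun n => ?_,
    fun n i => ?_, fun n => ?_, ?_⟩
  · have h8 := hχ n (MvPolynomial.C c)
    rw [MvPolynomial.coe_eval₂Hom, MvPolynomial.eval₂_C, MvPolynomial.eval₂_C] at h8
    exact h8
  · rw [← hq, hχ]
    exact hyne n q (h3 n).ne_zero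
  · have h8 := hχ (n + 1) (MvPolynomial.X i)
    rw [MvPolynomial.coe_eval₂Hom, MvPolynomial.eval₂_X, MvPolynomial.eval₂_X] at h8
    rw [h8, ← hq, ← hΨ, hχ, hχ]
    apply Subtype.ext
    change ((MvPolynomial.eval₂ (algebraMap (𝓞 K) L) (y n) q : L) : ℚ_[p]) * _ = _
    rw [hy, hy]
    have h9 := congrArg (fun t : ℤ_[p] => (t : ℚ_[p])) (h4 n i)
    simp only [PadicInt.coe_mul] at h9
    exact h9
  · rw [← hG', hχ]
    exact hyne n G' (h6 n)
  · intro hfinite
    apply h7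
    have h8 : (fun n => ((MvPolynomial.eval₂ ψ (x n) h' : ℤ_[p]) : ℚ_[p]) /
        ((MvPolynomial.eval₂ ψ (x n) q : ℤ_[p]) : ℚ_[p])) =
        fun n => ((χ n h / χ n w : L) : ℚ_[p]) := by
      funext n
      rw [← hh', ← hq, hχ, hχ]
      change _ = ((MvPolynomial.eval₂ (algebraMap (𝓞 K) L) (y n) h' : L) : ℚ_[p]) /
        ((MvPolynomial.eval₂ (algebraMap (𝓞 K) L) (y n) q : L) : ℚ_[p])
      rw [hy, hy]
    rw [h8]
    have h9 : (Set.range fun n => ((χ n h / χ n w : L) : ℚ_[p])) =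
        (fun t : L => (t : ℚ_[p])) '' (Set.range fun n => χ n h / χ n w) := by
      rw [← Set.range_comp]
      rfl
    rw [h9]
    exact hfinite.image _

end Pool.Agent.K1H69.DC
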