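import Pool.Agent.K1H69.DC.Formal
import Pool.Agent.K1H69.DC.OrbRing

/-!
Formal curves in a scheme with a dynamical symmetry give infinite orbits of algebraic points.
-/

set_option autoImplicit false

open AlgebraicGeometry CategoryTheory
open scoped NumberField

namespace Pool.Agent.K1H69.DC

theorem orbit_formal {K : Type} [Field K] [NumberField K] (σ : K →+* ℂ) {U Y V V' : Scheme.{0}}
    (sU : U ⟶ Spec (CommRingCat.of (𝓞 K))) [LocallyOfFiniteType sU]
    (sY : Y ⟶ Spec (CommRingCat.of (𝓞 K))) (ι φ : U ⟶ Y) [IsOpenImmersion ι]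
    (hι : ι ≫ sY = sU) (hφ : φ ≫ sY = sU) (π : U ⟶ V) (i : V' ⟶ V) [IsClosedImmersion i]
    (g : Spec CP ⟶ U) (hg : g ≫ sU = Spec.map (strC σ ≫ cst)) {lam : ℂ} (hlam0 : lam ≠ 0)
    (hroot : ∀ k : ℕ, 0 < k → lam ^ k ≠ 1) (hsym : Spec.map (resc lam) ≫ g ≫ ι = g ≫ φ)
    (hV' : ¬ ∃ Q, Q ≫ i = g ≫ π) (hconst : g ≫ π ≠ Spec.map (ccf ≫ cst) ≫ g ≫ π) :
    ∃ (L : Type) (_ : Field L) (_ : NumberField L) (_ : Algebra K L) (B : CommRingCat.{0})
      (j : Spec B ⟶ U) (β : CommRingCat.of (𝓞 K) ⟶ B) (χ : ℕ → (B ⟶ CommRingCat.of L)),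
      β.hom.FiniteType ∧ j ≫ sU = Spec.map β ∧
      (∀ n, β ≫ χ n = CommRingCat.ofHom (algebraMap (𝓞 K) L)) ∧
      (∀ n, Spec.map (χ n) ≫ j ≫ φ = Spec.map (χ (n + 1)) ≫ j ≫ ι) ∧
      (Set.range fun n => Spec.map (χ n) ≫ j ≫ π).Infinite ∧
      ∀ n, ¬ ∃ Q, Q ≫ i = Spec.map (χ n) ≫ j ≫ π := by
  classical
  -- the chart of `U`
  obtain ⟨B, j, hj, hrange⟩ := exists_chart g ccf
  obtain ⟨T, hT⟩ := local_lift g j hrange
  let β : CommRingCat.of (𝓞 K) ⟶ B := Spec.preimage (j ≫ sU)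
  have hβ : Spec.map β = j ≫ sU := Spec.map_preimage _
  have hft : β.hom.FiniteType := by
    rw [← HasRingHomProperty.Spec_iff (P := @LocallyOfFiniteType), hβ]
    infer_instance
  have hTβ : β ≫ T = strC σ ≫ cst := by
    apply Spec.map_injective
    rw [Spec.map_comp, hβ, ← hg, ← hT, Category.assoc]
  -- generators
  obtain ⟨N, b, hb⟩ : ∃ (N : ℕ) (b : Fin N → B),
      Function.Surjective (MvPolynomial.eval₂Hom β.hom b) := by
    let _ : Algebra (𝓞 K) B := β.hom.toAlgebra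
    have hft' : Algebra.FiniteType (𝓞 K) B := hft
    obtain ⟨N, f, hf⟩ := Algebra.FiniteType.iff_quotient_mvPolynomial''.1 hft'
    refine ⟨N, fun i => f (MvPolynomial.X i), ?_⟩
    have : MvPolynomial.eval₂Hom β.hom (fun i => f (MvPolynomial.X i)) = f.toRingHom := by
      apply MvPolynomial.ringHom_ext
      · intro c
        rw [MvPolynomial.coe_eval₂Hom, MvPolynomial.eval₂_C]
        exact (f.commutes c).symm
      · intro i
        rw [MvPolynomial.coe_eval₂Hom, MvPolynomial.eval₂_X]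
        rfl
    rw [this]
    exact hf
  -- the chart of the dynamics
  let e : B ⟶ CommRingCat.of ℂ := T ≫ ccf
  have hk : IsOpenImmersion (j ≫ ι) := inferInstance
  have hF1 : Spec.map T ≫ j ≫ φ = Spec.map (T ≫ resc lam) ≫ j ≫ ι := by
    rw [← Category.assoc, hT, ← hsym, Spec.map_comp, Category.assoc, ← Category.assoc _ j ι, hT]
  have hF2 : Spec.map e ≫ j ≫ φ = Spec.map e ≫ j ≫ ι := by
    have h1 : Spec.map e = Spec.map ccf ≫ Spec.map T := Spec.map_comp _ _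
    rw [h1, Category.assoc, hF1, ← Category.assoc, ← Spec.map_comp, Category.assoc, resc_ccf,
      Spec.map_comp]
  obtain ⟨w1, χ1, hw1, hχ1⟩ := chart_lift (j ≫ φ) (j ≫ ι) e
    (range_of_factor (j ≫ φ) (j ≫ ι) e e hF2)
  have hunit : ∀ w : B, e.hom w ≠ 0 → IsUnit (T.hom w) := fun w hw =>
    PowerSeries.isUnit_iff_constantCoeff.2 (isUnit_iff_ne_zero.2 hw)
  have hcomm : χ1 ≫ extM w1 T (hunit w1 hw1) = T ≫ resc lam := by
    apply Spec.map_injective
    rw [← cancel_mono (j ≫ ι), ← spec_chart hχ1 T (hunit w1 hw1), hF1]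
  obtain ⟨n1, a, ha⟩ := ext_value_le w1 χ1 b
  -- the closed subscheme
  obtain ⟨J, hJ⟩ := exists_ideal i (j ≫ π)
  have hTπ : Spec.map T ≫ j ≫ π = g ≫ π := by rw [← Category.assoc, hT]
  obtain ⟨G, hGJ, hG⟩ : ∃ G ∈ J, T.hom G ≠ 0 := by
    by_contra hcon
    push Not at hcon
    apply hV'
    rw [← hTπ]
    exact (hJ _ T).2 hcon
  -- the chart of `V`
  obtain ⟨C, k, hk2, hrange2⟩ := exists_chart (j ≫ π) e
  obtain ⟨w2, χ2, hw2, hχ2⟩ := chart_lift (j ≫ π) k e hrange2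
  have hTk : g ≫ π = Spec.map (χ2 ≫ extM w2 T (hunit w2 hw2)) ≫ k := by
    rw [← hTπ]
    exact spec_chart hχ2 T (hunit w2 hw2)
  obtain ⟨c, hc⟩ : ∃ c : C, (χ2 ≫ extM w2 T (hunit w2 hw2)).hom c ≠
      PowerSeries.C (PowerSeries.constantCoeff ((χ2 ≫ extM w2 T (hunit w2 hw2)).hom c)) := by
    by_contra hcon
    push Not at hcon
    apply hconst
    have h1 : χ2 ≫ extM w2 T (hunit w2 hw2) =
        (χ2 ≫ extM w2 T (hunit w2 hw2)) ≫ ccf ≫ cst := by
      ext c
      exact congrArg (PowerSeries.coeff _) (hcon c)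
    rw [hTk]
    conv_lhs => rw [h1, Spec.map_comp, Category.assoc]
  obtain ⟨n2, b0, hb0⟩ := ext_value_le w2 χ2 (fun _ : Fin 1 => c)
  -- the data for the core
  have hTw : PowerSeries.constantCoeff (T.hom (w1 ^ (n1 + 1) * w2 ^ (n2 + 1))) ≠ 0 := by
    rw [map_mul, map_mul, map_pow, map_pow, map_pow, map_pow]
    exact mul_ne_zero (pow_ne_zero _ hw1) (pow_ne_zero _ hw2)
  obtain ⟨L, i1, i2, i3, χ, hχβ, hχw, hχΦ, hχG, hχh⟩ := orbit_ring σ β.hom b hb T.hom
    (fun c => congrArg (fun F => F.hom c) hTβ) hlam0 hroot (w1 ^ (n1 + 1) * w2 ^ (n2 + 1))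
    (fun i => w2 ^ (n2 + 1) * a i) hTw
    (fun i => by
      have h1 : PowerSeries.rescale lam (T.hom (b i)) =
          (χ1 ≫ extM w1 T (hunit w1 hw1)).hom (b i) := by
        rw [hcomm]
        rfl
      have h2 := ha i _ T (hunit w1 hw1)
      rw [h1, map_mul, map_mul, ← h2, map_pow]
      ring)
    (b0 0 * w1 ^ (n1 + 1)) G hG
    (by
      have h2 := hb0 0 _ T (hunit w2 hw2)
      have h3 : T.hom (b0 0 * w1 ^ (n1 + 1)) * (T.hom (w1 ^ (n1 + 1) * w2 ^ (n2 + 1)))⁻¹ =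
          (χ2 ≫ extM w2 T (hunit w2 hw2)).hom c := by
        symm
        rw [PowerSeries.eq_mul_inv_iff_mul_eq hTw, map_mul, map_mul, ← h2, map_pow, map_pow]
        ring
      rw [h3]
      by_contra hcon
      push Not at hcon
      apply hc
      ext s
      rcases Nat.eq_zero_or_pos s with hs | hs
      · subst hs
        simp
      · rw [hcon s hs, PowerSeries.coeff_C, if_neg hs.ne'])
  have hw1n : ∀ n, IsUnit (χ n w1) := fun n => by
    refine isUnit_iff_ne_zero.2 fun h0 => hχw n ?_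
    rw [map_mul, map_pow, h0, zero_pow (Nat.succ_ne_zero _), zero_mul]
  have hw2n : ∀ n, IsUnit (χ n w2) := fun n => by
    refine isUnit_iff_ne_zero.2 fun h0 => hχw n ?_
    rw [map_mul, map_pow, map_pow, h0, zero_pow (Nat.succ_ne_zero _), mul_zero]
  let X : ℕ → (B ⟶ CommRingCat.of L) := fun n => CommRingCat.ofHom (χ n)
  have hstr : β ≫ χ1 = β ≫ locM w1 := by
    apply Spec.map_injective
    have h1 : Spec.map β = j ≫ ι ≫ sY := by rw [hβ, hι]
    have h2 : Spec.map β = j ≫ φ ≫ sY := by rw [hβ, hφ]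
    rw [Spec.map_comp, Spec.map_comp, h1, ← Category.assoc _ _ sY, ← Category.assoc, hχ1,
      Category.assoc, Category.assoc, ← h2, h1, Category.assoc]
  have hnext : ∀ n, χ1 ≫ extM w1 (X n) (hw1n n) = X (n + 1) := by
    intro n
    have h1 : ((χ1 ≫ extM w1 (X n) (hw1n n)).hom).comp (MvPolynomial.eval₂Hom β.hom b) =
        (X (n + 1)).hom.comp (MvPolynomial.eval₂Hom β.hom b) := by
      apply MvPolynomial.ringHom_ext
      · intro c
        simp only [RingHom.comp_apply, MvPolynomial.coe_eval₂Hom, MvPolynomial.eval₂_C]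
        have h2 : β ≫ χ1 ≫ extM w1 (X n) (hw1n n) = β ≫ X n := by
          rw [← Category.assoc, hstr, Category.assoc, locM_extM]
        have h3 := congrArg (fun F => F.hom c) h2
        refine Eq.trans h3 ?_
        change χ n (β.hom c) = χ (n + 1) (β.hom c)
        rw [hχβ, hχβ]
      · intro i
        simp only [RingHom.comp_apply, MvPolynomial.coe_eval₂Hom, MvPolynomial.eval₂_X]
        have h2 := ha i _ (X n) (hw1n n)
        have h3 := hχΦ n i
        have h4 : (X n).hom (a i) = χ n (a i) := rfl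
        have h5 : (X n).hom w1 = χ n w1 := rfl
        rw [h4, h5] at h2
        rw [map_mul, map_mul, map_pow, map_pow, ← h2] at h3
        have h6 : χ n w1 ^ (n1 + 1) * χ n w2 ^ (n2 + 1) ≠ 0 :=
          mul_ne_zero (pow_ne_zero _ (hw1n n).ne_zero) (pow_ne_zero _ (hw2n n).ne_zero)
        have h7 : χ n w1 ^ (n1 + 1) * χ n w2 ^ (n2 + 1) * χ (n + 1) (b i) =
            χ n w1 ^ (n1 + 1) * χ n w2 ^ (n2 + 1) *
              (χ1 ≫ extM w1 (X n) (hw1n n)).hom (b i) := by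
          rw [h3]
          ring
        exact (mul_left_cancel₀ h6 h7).symm
    ext y
    obtain ⟨Q, rfl⟩ := hb y
    exact congrArg (fun F => F Q) h1
  refine ⟨L, i1, i2, i3, B, j, β, X, hft, hβ.symm, fun n => ?_, fun n => ?_, ?_, fun n => ?_⟩
  · ext c
    exact hχβ n c
  · rw [spec_chart hχ1 (X n) (hw1n n), hnext]
  · intro hfinite
    apply hχh
    have hval : ∀ n, χ n (b0 0 * w1 ^ (n1 + 1)) / χ n (w1 ^ (n1 + 1) * w2 ^ (n2 + 1)) =
        (χ2 ≫ extM w2 (X n) (hw2n n)).hom c := by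
      intro n
      have h2 := hb0 0 _ (X n) (hw2n n)
      rw [div_eq_iff (hχw n)]
      have h4 : (X n).hom (b0 0) = χ n (b0 0) := rfl
      have h5 : (X n).hom w2 = χ n w2 := rfl
      rw [h4, h5] at h2
      rw [map_mul, ← h2, map_mul, map_pow, map_pow]
      ring
    have hinj : ∀ n m, Spec.map (X n) ≫ j ≫ π = Spec.map (X m) ≫ j ≫ π →
        χ n (b0 0 * w1 ^ (n1 + 1)) / χ n (w1 ^ (n1 + 1) * w2 ^ (n2 + 1)) =
        χ m (b0 0 * w1 ^ (n1 + 1)) / χ m (w1 ^ (n1 + 1) * w2 ^ (n2 + 1)) := by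
      intro n m hnm
      rw [hval, hval]
      rw [spec_chart hχ2 (X n) (hw2n n), spec_chart hχ2 (X m) (hw2n m), cancel_mono] at hnm
      rw [Spec.map_injective hnm]
    have h1 : (Set.range fun n => χ n (b0 0 * w1 ^ (n1 + 1)) /
        χ n (w1 ^ (n1 + 1) * w2 ^ (n2 + 1))) ⊆
        (fun P : Spec (CommRingCat.of L) ⟶ V => if hP : ∃ n, Spec.map (X n) ≫ j ≫ π = P then
          χ hP.choose (b0 0 * w1 ^ (n1 + 1)) /
            χ hP.choose (w1 ^ (n1 + 1) * w2 ^ (n2 + 1)) else 0) ''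
          (Set.range fun n => Spec.map (X n) ≫ j ≫ π) := by
      rintro _ ⟨n, rfl⟩
      have hP : ∃ m, Spec.map (X m) ≫ j ≫ π = Spec.map (X n) ≫ j ≫ π := ⟨n, rfl⟩
      refine ⟨_, ⟨n, rfl⟩, ?_⟩
      simp only [hP, dif_pos]
      exact hinj _ _ hP.choose_spec
    exact (hfinite.image _).subset h1
  · intro hQ
    exact hχG n ((hJ _ (X n)).1 hQ G hGJ)

end Pool.Agent.K1H69.DC
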