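import Pool.Agent.K1H69.DC.Defs

/-!
Holomorphic maps from the complex plane to the complex points of a scheme.
-/

set_option autoImplicit false

open AlgebraicGeometry CategoryTheory

namespace Pool.Agent.K1H69.DC

/-- localization -/
noncomputable def locM {B : CommRingCat.{0}} (w : B) : B ⟶ CommRingCat.of (Localization.Away w) :=
  CommRingCat.ofHom (algebraMap B (Localization.Away w))

/-- the extension to the localization -/
noncomputable def extM {B E : CommRingCat.{0}} (w : B) (e : B ⟶ E) (h : IsUnit (e.hom w)) :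
    CommRingCat.of (Localization.Away w) ⟶ E :=
  CommRingCat.ofHom (IsLocalization.Away.lift w h)

lemma locM_extM {B E : CommRingCat.{0}} (w : B) (e : B ⟶ E) (h : IsUnit (e.hom w)) :
    locM w ≫ extM w e h = e := by
  ext b
  exact IsLocalization.Away.lift_eq w h b

lemma spec_ext {B E : CommRingCat.{0}} (w : B) (e : B ⟶ E) (h : IsUnit (e.hom w)) :
    Spec.map (extM w e h) ≫ Spec.map (locM w) = Spec.map e := by
  rw [← Spec.map_comp, locM_extM]

/-- the point of the spectrum given by a homomorphism to a field -/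
noncomputable def kerPt {B : CommRingCat.{0}} {E : Type} [Field E] (e : B ⟶ CommRingCat.of E) :
    PrimeSpectrum B := PrimeSpectrum.comap e.hom ⊥

lemma mem_kerPt {B : CommRingCat.{0}} {E : Type} [Field E] (e : B ⟶ CommRingCat.of E) (w : B) :
    kerPt e ∈ PrimeSpectrum.basicOpen w ↔ e.hom w ≠ 0 := by
  rw [PrimeSpectrum.mem_basicOpen]
  rfl

/-- **Charts.** -/
lemma chart_lift {B C : CommRingCat.{0}} {Z : Scheme.{0}} (F : Spec B ⟶ Z) (k : Spec C ⟶ Z)
    [IsOpenImmersion k] {E : Type} [Field E] (e : B ⟶ CommRingCat.of E)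
    (h : F (kerPt e) ∈ Set.range k) :
    ∃ (w : B) (χ : C ⟶ CommRingCat.of (Localization.Away w)), e.hom w ≠ 0 ∧
      Spec.map χ ≫ k = Spec.map (locM w) ≫ F := by
  have hU : IsOpen (F ⁻¹' (Set.range k)) := k.isOpenEmbedding.isOpen_range.preimage F.continuous
  obtain ⟨_, ⟨w, rfl⟩, hx, hsub⟩ :=
    PrimeSpectrum.isTopologicalBasis_basic_opens.exists_subset_of_mem_open
      (show kerPt e ∈ F ⁻¹' (Set.range k) from h) hU
  have hr : Set.range (Spec.map (locM w) ≫ F) ⊆ Set.range k := by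
    rintro _ ⟨y, rfl⟩
    have h1 : PrimeSpectrum.comap (algebraMap B (Localization.Away w)) y ∈
        (PrimeSpectrum.basicOpen w : Set (PrimeSpectrum B)) := by
      rw [← PrimeSpectrum.localization_away_comap_range (Localization.Away w) w]
      exact ⟨y, rfl⟩
    exact hsub h1
  refine ⟨w, Spec.preimage (IsOpenImmersion.lift k (Spec.map (locM w) ≫ F) hr),
    (mem_kerPt e w).1 hx, ?_⟩
  rw [Spec.map_preimage, IsOpenImmersion.lift_fac]

/-- the point of the scheme -/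
lemma range_of_factor {B C : CommRingCat.{0}} {Z : Scheme.{0}} (F : Spec B ⟶ Z) (k : Spec C ⟶ Z)
    {E : Type} [Field E] (e : B ⟶ CommRingCat.of E) (e' : C ⟶ CommRingCat.of E)
    (h : Spec.map e ≫ F = Spec.map e' ≫ k) : F (kerPt e) ∈ Set.range k := by
  refine ⟨kerPt e', ?_⟩
  have h1 : (Spec.map e ≫ F) (⊥ : PrimeSpectrum E) = (Spec.map e' ≫ k) (⊥ : PrimeSpectrum E) := by
    rw [h]
  exact h1.symm

/-- A field valued point lies in an affine chart. -/
lemma exists_chart {B : CommRingCat.{0}} {Z : Scheme.{0}} (F : Spec B ⟶ Z)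
    {E : Type} [Field E] (e : B ⟶ CommRingCat.of E) :
    ∃ (C : CommRingCat.{0}) (k : Spec C ⟶ Z), IsOpenImmersion k ∧ F (kerPt e) ∈ Set.range k :=
  ⟨_, Z.affineOpenCover.f (Z.affineOpenCover.idx (F (kerPt e))), inferInstance,
    Z.affineOpenCover.covers _⟩

/-- **Closed subschemes of affine schemes.** -/
lemma exists_ideal {B : CommRingCat.{0}} {V V' : Scheme.{0}} (i : V' ⟶ V) [IsClosedImmersion i]
    (F : Spec B ⟶ V) : ∃ J : Ideal B, ∀ (A : CommRingCat.{0}) (e : B ⟶ A),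
      (∃ Q : Spec A ⟶ V', Q ≫ i = Spec.map e ≫ F) ↔ ∀ b ∈ J, e.hom b = 0 := by
  have hcl : IsClosedImmersion (Limits.pullback.fst F i) := inferInstance
  obtain ⟨J, iso, hJ⟩ := IsClosedImmersion.Spec_iff.1 hcl
  refine ⟨J, fun A e => ⟨?_, fun h => ?_⟩⟩
  · rintro ⟨Q, hQ⟩ b hb
    have h1 : Limits.pullback.lift (Spec.map e) Q hQ.symm ≫ Limits.pullback.fst F i =
        Spec.map e := Limits.pullback.lift_fst _ _ _
    rw [hJ] at h1
    let θ : CommRingCat.of (B ⧸ J) ⟶ A :=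
      Spec.preimage (Limits.pullback.lift (Spec.map e) Q hQ.symm ≫ iso.hom)
    have h2 : Spec.map (CommRingCat.ofHom (Ideal.Quotient.mk J) ≫ θ) = Spec.map e := by
      rw [Spec.map_comp, Spec.map_preimage, Category.assoc]
      exact h1
    have h3 := Spec.map_injective h2
    rw [← h3]
    change θ.hom (Ideal.Quotient.mk J b) = 0
    rw [Ideal.Quotient.eq_zero_iff_mem.2 hb, map_zero]
  · let e' : CommRingCat.of (B ⧸ J) ⟶ A := CommRingCat.ofHom (Ideal.Quotient.lift J e.hom h)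
    have he : CommRingCat.ofHom (Ideal.Quotient.mk J) ≫ e' = e := by
      ext b
      rfl
    refine ⟨Spec.map e' ≫ iso.inv ≫ Limits.pullback.snd F i, ?_⟩
    rw [Category.assoc, Category.assoc, ← Limits.pullback.condition, hJ, Category.assoc,
      Iso.inv_hom_id_assoc, ← Category.assoc, ← Spec.map_comp, he]

/-- The values on the localization. -/
lemma ext_value {B C : CommRingCat.{0}} (w : B) (χ : C ⟶ CommRingCat.of (Localization.Away w))
    (c : C) : ∃ (n : ℕ) (a : B), ∀ (E : CommRingCat.{0}) (e : B ⟶ E) (h : IsUnit (e.hom w)),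
      (χ ≫ extM w e h).hom c * (e.hom w) ^ n = e.hom a := by
  obtain ⟨n, a, hna⟩ := IsLocalization.Away.surj w (χ.hom c : Localization.Away w)
  refine ⟨n, a, fun E e h => ?_⟩
  have h1 := congrArg (IsLocalization.Away.lift w h) hna
  rw [map_mul, map_pow, IsLocalization.Away.lift_eq, IsLocalization.Away.lift_eq] at h1
  exact h1

lemma spec_chart {B C E : CommRingCat.{0}} {Z : Scheme.{0}} {F : Spec B ⟶ Z} {k : Spec C ⟶ Z}
    {w : B} {χ : C ⟶ CommRingCat.of (Localization.Away w)}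
    (hχ : Spec.map χ ≫ k = Spec.map (locM w) ≫ F) (e : B ⟶ E) (h : IsUnit (e.hom w)) :
    Spec.map e ≫ F = Spec.map (χ ≫ extM w e h) ≫ k := by
  rw [Spec.map_comp, Category.assoc, hχ, ← Category.assoc, spec_ext]

/-- Differentiable functions are nonzero near a point where they are nonzero. -/
lemma exists_ball_ne {f : ℂ → ℂ} {z0 : ℂ} {r : ℝ} (hr : 0 < r)
    (hf : DifferentiableOn ℂ f (Metric.ball z0 r)) (h0 : f z0 ≠ 0) :
    ∃ r', 0 < r' ∧ r' ≤ r ∧ ∀ z ∈ Metric.ball z0 r', f z ≠ 0 := by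
  have hc : ContinuousAt f z0 :=
    (hf.differentiableAt (Metric.ball_mem_nhds _ hr)).continuousAt
  have h1 := hc.eventually_ne h0
  obtain ⟨ε, hε, h⟩ := Metric.eventually_nhds_iff_ball.1 h1
  exact ⟨min ε r, lt_min hε hr, min_le_right _ _, fun z hz =>
    h z (Metric.ball_subset_ball (min_le_left _ _) hz)⟩

/-- **Composition with a morphism**, with a given chart. -/
lemma hol_chart {B C : CommRingCat.{0}} {Z : Scheme.{0}} {F : Spec B ⟶ Z} {k : Spec C ⟶ Z}
    {w : B} {χ : C ⟶ CommRingCat.of (Localization.Away w)}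
    (hχ : Spec.map χ ≫ k = Spec.map (locM w) ≫ F) {ev : ℂ → (B ⟶ CommRingCat.of ℂ)} {z0 : ℂ}
    {r : ℝ} (hr : 0 < r)
    (hev : ∀ b : B, DifferentiableOn ℂ (fun z => ((ev z).hom b : ℂ)) (Metric.ball z0 r))
    (hw : (ev z0).hom w ≠ 0) :
    ∃ (ev' : ℂ → (C ⟶ CommRingCat.of ℂ)) (r' : ℝ), 0 < r' ∧ r' ≤ r ∧
      (∀ z ∈ Metric.ball z0 r', (ev z).hom w ≠ 0) ∧
      (∀ z ∈ Metric.ball z0 r', ∀ h : IsUnit ((ev z).hom w), ev' z = χ ≫ extM w (ev z) h) ∧
      (∀ z ∈ Metric.ball z0 r', Spec.map (ev z) ≫ F = Spec.map (ev' z) ≫ k) ∧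
      ∀ c : C, DifferentiableOn ℂ (fun z => ((ev' z).hom c : ℂ)) (Metric.ball z0 r') := by
  classical
  obtain ⟨r', hr', hrr, hne⟩ := exists_ball_ne hr (hev w) hw
  have hu0 : IsUnit ((ev z0).hom w) := isUnit_iff_ne_zero.2 hw
  let ev' : ℂ → (C ⟶ CommRingCat.of ℂ) := fun z => if h : IsUnit ((ev z).hom w) then
    χ ≫ extM w (ev z) h else χ ≫ extM w (ev z0) hu0
  have hev' : ∀ z (h : IsUnit ((ev z).hom w)), ev' z = χ ≫ extM w (ev z) h := fun z h => by
    simp only [ev', h, dif_pos]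
  refine ⟨ev', r', hr', hrr, hne, fun z _ h => hev' z h, fun z hz => ?_, fun c => ?_⟩
  · have h : IsUnit ((ev z).hom w) := isUnit_iff_ne_zero.2 (hne z hz)
    rw [hev' z h]
    exact spec_chart hχ _ h
  · obtain ⟨n, a, hna⟩ := ext_value w χ c
    have h1 : ∀ z ∈ Metric.ball z0 r', ((ev' z).hom c : ℂ) =
        ((ev z).hom a : ℂ) / ((ev z).hom w : ℂ) ^ n := by
      intro z hz
      have h : IsUnit ((ev z).hom w) := isUnit_iff_ne_zero.2 (hne z hz)
      rw [hev' z h]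
      have h2 := hna _ (ev z) h
      rw [eq_div_iff (pow_ne_zero _ (hne z hz))]
      exact h2
    have hsub := Metric.ball_subset_ball (x := z0) hrr
    exact (((hev a).mono hsub).fun_div (((hev w).mono hsub).fun_pow n)
      (fun z hz => pow_ne_zero _ (hne z hz))).congr h1

lemma HolAt.comp {Y Z : Scheme.{0}} {g : ℂ → (Spec (CommRingCat.of ℂ) ⟶ Y)} {z0 : ℂ}
    (hg : HolAt g z0) (π : Y ⟶ Z) : HolAt (fun z => g z ≫ π) z0 := by
  obtain ⟨B, j, ev, r, hj, hr, hgz, hev⟩ := hg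
  obtain ⟨C, k, hk, hrange⟩ := exists_chart (j ≫ π) (ev z0)
  obtain ⟨w, χ, hw, hχ⟩ := chart_lift (j ≫ π) k (ev z0) hrange
  obtain ⟨ev', r', hr', hrr, -, -, h1, h2⟩ := hol_chart hχ hr hev hw
  refine ⟨C, k, ev', r', hk, hr', fun z hz => ?_, h2⟩
  change g z ≫ π = _
  rw [hgz z (Metric.ball_subset_ball hrr hz), Category.assoc]
  exact h1 z hz

/-- Connectedness of the plane. -/
lemma all_of_clopen (P : ℂ → Prop) (h0 : ∀ᶠ z in nhds (0 : ℂ), P z)
    (hcl : ∀ z1, z1 ∈ closure {z | ∀ᶠ y in nhds z, P y} → ∀ᶠ z in nhds z1, P z) : ∀ z, P z := by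
  have hopen : IsOpen {z | ∀ᶠ y in nhds z, P y} := isOpen_setOfPred_eventually_nhds
  have hclosed : IsClosed {z | ∀ᶠ y in nhds z, P y} :=
    isClosed_of_closure_subset fun z hz => hcl z hz
  have h1 : {z | ∀ᶠ y in nhds z, P y} = Set.univ :=
    (IsClopen.eq_univ ⟨hclosed, hopen⟩ ⟨0, h0⟩)
  intro z
  have h2 : z ∈ {z | ∀ᶠ y in nhds z, P y} := by rw [h1]; trivial
  exact Filter.Eventually.self_of_nhds h2

/-- A holomorphic function on a ball which vanishes near a point of the ball vanishes. -/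
lemma ball_zero {f : ℂ → ℂ} {z0 z1 : ℂ} {r : ℝ} (hf : DifferentiableOn ℂ f (Metric.ball z0 r))
    (hz : z1 ∈ Metric.ball z0 r) (h : ∀ᶠ z in nhds z1, f z = 0) :
    ∀ z ∈ Metric.ball z0 r, f z = 0 := by
  have h1 : AnalyticOnNhd ℂ f (Metric.ball z0 r) := hf.analyticOnNhd Metric.isOpen_ball
  exact h1.eqOn_zero_of_preconnected_of_eventuallyEq_zero
    (convex_ball z0 r).isPreconnected hz h

/-- An entire curve which is constant near `0` is constant. -/
lemma const_of_near {Z : Scheme.{0}} {f : ℂ → (Spec (CommRingCat.of ℂ) ⟶ Z)}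
    (hf : ∀ z0, HolAt f z0) (h0 : ∀ᶠ z in nhds (0 : ℂ), f z = f 0) : ∀ z, f z = f 0 := by
  refine all_of_clopen _ h0 fun z1 hz1 => ?_
  obtain ⟨B, j, ev, r, hj, hr, hgz, hev⟩ := hf z1
  obtain ⟨z2, hz2, hz2b⟩ := mem_closure_iff_nhds.1 hz1 _ (Metric.ball_mem_nhds z1 hr)
  have hz2e : ∀ᶠ y in nhds z2, f y = f 0 := hz2b
  have h1 : ∀ᶠ y in nhds z2, ev y = ev z2 := by
    filter_upwards [hz2e, Metric.isOpen_ball.mem_nhds hz2] with y hy hyb
    have h2 : f y = f z2 := hy.trans hz2e.self_of_nhds.symm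
    rw [hgz y hyb, hgz z2 hz2] at h2
    exact Spec.map_injective ((cancel_mono j).1 h2)
  have h3 : ∀ z ∈ Metric.ball z1 r, ev z = ev z2 := by
    intro z hz
    ext b
    have h4 : DifferentiableOn ℂ (fun z => ((ev z).hom b : ℂ) - ((ev z2).hom b : ℂ))
        (Metric.ball z1 r) := (hev b).sub_const _
    have h5 := ball_zero h4 hz2 (by
      filter_upwards [h1] with y hy
      rw [hy, sub_self]) z hz
    exact sub_eq_zero.1 h5
  filter_upwards [Metric.ball_mem_nhds z1 hr] with z hz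
  rw [hgz z hz, h3 z hz, ← hgz z2 hz2]
  exact hz2e.self_of_nhds

/-- An entire curve which lies in a closed subscheme near `0` lies in it. -/
lemma closed_of_near {V V' : Scheme.{0}} (i : V' ⟶ V) [IsClosedImmersion i]
    {f : ℂ → (Spec (CommRingCat.of ℂ) ⟶ V)}
    (hf : ∀ z0, HolAt f z0) (h0 : ∀ᶠ z in nhds (0 : ℂ), ∃ Q, Q ≫ i = f z) :
    ∀ z, ∃ Q, Q ≫ i = f z := by
  refine all_of_clopen _ h0 fun z1 hz1 => ?_
  obtain ⟨B, j, ev, r, hj, hr, hgz, hev⟩ := hf z1
  obtain ⟨J, hJ⟩ := exists_ideal i j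
  obtain ⟨z2, hz2, hz2b⟩ := mem_closure_iff_nhds.1 hz1 _ (Metric.ball_mem_nhds z1 hr)
  have hz2e : ∀ᶠ y in nhds z2, ∃ Q, Q ≫ i = f y := hz2b
  have h1 : ∀ b ∈ J, ∀ z ∈ Metric.ball z1 r, (ev z).hom b = 0 := by
    intro b hb
    refine ball_zero (hev b) hz2 ?_
    filter_upwards [hz2e, Metric.isOpen_ball.mem_nhds hz2] with y hy hyb
    rw [hgz y hyb] at hy
    exact (hJ _ _).1 hy b hb
  filter_upwards [Metric.ball_mem_nhds z1 hr] with z hz
  rw [hgz z hz]
  exact (hJ _ _).2 fun b hb => h1 b hb z hz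

end Pool.Agent.K1H69.DC
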