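import Pool.Agent.K1H69.DC.Core
import Pool.Agent.K1H69.DC.Sch

/-!
Formal curves in a scheme with a dynamical symmetry: the chart computations.
-/

set_option autoImplicit false

open AlgebraicGeometry CategoryTheory
open scoped NumberField

namespace Pool.Agent.K1H69.DC

/-- formal power series over the complex numbers -/
noncomputable abbrev CP : CommRingCat.{0} := CommRingCat.of (PowerSeries ℂ)

/-- the substitution of `λ z` -/
noncomputable def resc (lam : ℂ) : CP ⟶ CP := CommRingCat.ofHom (PowerSeries.rescale lam)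

/-- the constant coefficient -/
noncomputable def ccf : CP ⟶ CommRingCat.of ℂ := CommRingCat.ofHom PowerSeries.constantCoeff

/-- the constants -/
noncomputable def cst : CommRingCat.of ℂ ⟶ CP := CommRingCat.ofHom PowerSeries.C

lemma resc_ccf (lam : ℂ) : resc lam ≫ ccf = ccf := by
  ext f
  change PowerSeries.constantCoeff (PowerSeries.rescale lam f) = PowerSeries.constantCoeff f
  rw [← PowerSeries.coeff_zero_eq_constantCoeff_apply, PowerSeries.coeff_rescale, pow_zero,
    one_mul, PowerSeries.coeff_zero_eq_constantCoeff_apply]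

lemma cst_ccf : cst ≫ ccf = 𝟙 _ := by
  ext f
  exact PowerSeries.constantCoeff_C f

/-- A map from the spectrum of a local ring lies in each chart which contains the image of the
closed point. -/
lemma local_lift {B : CommRingCat.{0}} {U : Scheme.{0}} (G : Spec CP ⟶ U) (j : Spec B ⟶ U)
    [IsOpenImmersion j] (h : G (kerPt ccf) ∈ Set.range j) : ∃ T : B ⟶ CP, Spec.map T ≫ j = G := by
  have hU : IsOpen (G ⁻¹' (Set.range j)) := j.isOpenEmbedding.isOpen_range.preimage G.continuous
  have hcl : kerPt ccf = IsLocalRing.closedPoint (PowerSeries ℂ) := by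
    apply PrimeSpectrum.ext
    change Ideal.comap (PowerSeries.constantCoeff (R := ℂ)) ⊥ = IsLocalRing.maximalIdeal _
    have h1 : (Ideal.comap (PowerSeries.constantCoeff (R := ℂ)) ⊥).IsMaximal :=
      Ideal.comap_isMaximal_of_surjective _ PowerSeries.constantCoeff_surj
    exact IsLocalRing.eq_maximalIdeal h1
  have h2 : (⟨_, hU⟩ : TopologicalSpace.Opens (PrimeSpectrum (PowerSeries ℂ))) = ⊤ := by
    rw [← IsLocalRing.closed_point_mem_iff, ← hcl]
    exact h
  have hr : Set.range G ⊆ Set.range j := by
    rintro _ ⟨y, rfl⟩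
    have h3 : y ∈ (⟨_, hU⟩ : TopologicalSpace.Opens (PrimeSpectrum (PowerSeries ℂ))) := by
      rw [h2]; trivial
    exact h3
  exact ⟨Spec.preimage (IsOpenImmersion.lift j G hr), by
    rw [Spec.map_preimage, IsOpenImmersion.lift_fac]⟩

/-- common exponents -/
lemma ext_value_le {B C : CommRingCat.{0}} (w : B)
    (χ : C ⟶ CommRingCat.of (Localization.Away w)) {N : ℕ}
    (c : Fin N → C) : ∃ (n : ℕ) (a : Fin N → B), ∀ i, ∀ (E : CommRingCat.{0}) (e : B ⟶ E)
      (h : IsUnit (e.hom w)),
      (χ ≫ extM w e h).hom (c i) * (e.hom w) ^ (n + 1) = e.hom (a i) := by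
  choose n a h using fun i => ext_value w χ (c i)
  refine ⟨∑ i, n i, fun i => a i * w ^ (∑ i, n i - n i + 1), fun i E e he => ?_⟩
  rw [map_mul, ← h i E e he, map_pow, mul_assoc, ← pow_add]
  congr 2
  have : n i ≤ ∑ i, n i := Finset.single_le_sum (fun _ _ => Nat.zero_le _) (Finset.mem_univ i)
  omega

end Pool.Agent.K1H69.DC
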