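import Pool.Agent.K1H69.DC.FThm

/-!
Formal curves in a scheme with a dynamical symmetry give infinite sets of integral points.
-/

set_option autoImplicit false

open AlgebraicGeometry CategoryTheory IsDedekindDomain
open scoped NumberField

namespace Pool.Agent.K1H69.DC

/-- iterates of an endomorphism -/
noncomputable def iter {Y : Scheme.{0}} (φ : Y ⟶ Y) : ℕ → (Y ⟶ Y)
  | 0 => 𝟙 Y
  | n + 1 => iter φ n ≫ φ

lemma iter_str {Y Z : Scheme.{0}} (φ : Y ⟶ Y) (s : Y ⟶ Z) (h : φ ≫ s = s) (n : ℕ) :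
    iter φ n ≫ s = s := by
  induction n with
  | zero => exact Category.id_comp _
  | succ n ih => rw [iter, Category.assoc, h, ih]

/-- A point with values in a number field of an affine scheme of finite type over the integers is
integral outside of finitely many primes. -/
lemma exists_integral {K L : Type} [Field K] [NumberField K] [Field L] [NumberField L] [Algebra K L]
    {B : CommRingCat.{0}} (β : CommRingCat.of (𝓞 K) ⟶ B) (hβ : β.hom.FiniteType)
    (χ : B ⟶ CommRingCat.of L) (hχ : β ≫ χ = CommRingCat.ofHom (algebraMap (𝓞 K) L)) :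
    ∃ (S : Set (HeightOneSpectrum (𝓞 L))) (χ' : B ⟶ CommRingCat.of (S.integer L)), S.Finite ∧
      β ≫ χ' = CommRingCat.ofHom (algebraMap (𝓞 K) (S.integer L)) ∧
      χ' ≫ CommRingCat.ofHom (algebraMap (S.integer L) L) = χ := by
  classical
  let _ : Algebra (𝓞 K) B := β.hom.toAlgebra
  have hft' : Algebra.FiniteType (𝓞 K) B := hβ
  obtain ⟨N, f, hf⟩ := Algebra.FiniteType.iff_quotient_mvPolynomial''.1 hft'
  let S : Set (HeightOneSpectrum (𝓞 L)) :=
    ⋃ m : Fin N, HeightOneSpectrum.Support (𝓞 L) (χ.hom (f (MvPolynomial.X m)))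
  have hS : S.Finite := Set.finite_iUnion fun m => HeightOneSpectrum.Support.finite _ _
  have hc : ∀ c : 𝓞 K, χ.hom (algebraMap (𝓞 K) B c) = algebraMap (𝓞 K) L c := fun c =>
    congrArg (fun F => F.hom c) hχ
  have hmem : ∀ y : B, χ.hom y ∈ S.integer L := by
    intro y
    obtain ⟨Q, rfl⟩ := hf y
    induction Q using MvPolynomial.induction_on with
    | C c =>
      rw [← MvPolynomial.algebraMap_eq, f.commutes, hc]
      exact (algebraMap (𝓞 K) (S.integer L) c).2
    | add p q hp hq =>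
      rw [map_add, map_add]
      exact add_mem hp hq
    | mul_X p m hp =>
      rw [map_mul, map_mul]
      refine mul_mem hp ?_
      intro v hv
      by_contra hcon
      apply hv
      refine Set.mem_iUnion.2 ⟨m, ?_⟩
      exact not_le.1 hcon
  let χ' : B ⟶ CommRingCat.of (S.integer L) :=
    CommRingCat.ofHom (χ.hom.codRestrict (S.integer L) hmem)
  refine ⟨S, χ', hS, ?_, ?_⟩
  · ext c
    exact hc c
  · ext y
    rfl

theorem integral_formal {K : Type} [Field K] [NumberField K] (σ : K →+* ℂ)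
    {Y V V' : Scheme.{0}} (sY : Y ⟶ Spec (CommRingCat.of (𝓞 K))) [LocallyOfFiniteType sY]
    (sV : V ⟶ Spec (CommRingCat.of (𝓞 K)))
    (φ : Y ⟶ Y) (hφ : φ ≫ sY = sY) (π : Y ⟶ V) (hπ : π ≫ sV = sY) (i : V' ⟶ V)
    [IsClosedImmersion i] (hfin : IntegralFinite sV i)
    (g : Spec CP ⟶ Y) (hg : g ≫ sY = Spec.map (strC σ ≫ cst)) {lam : ℂ} (hlam0 : lam ≠ 0)
    (hroot : ∀ k : ℕ, 0 < k → lam ^ k ≠ 1) (hsym : Spec.map (resc lam) ≫ g = g ≫ φ) :
    (∃ Q, Q ≫ i = g ≫ π) ∨ g ≫ π = Spec.map (ccf ≫ cst) ≫ g ≫ π := by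
  by_contra hcon
  push Not at hcon
  obtain ⟨h1, h2⟩ := hcon
  obtain ⟨L, i1, i2, i3, B, j, β, χ, hft, hβ, hχβ, hnext, hinf, hV'⟩ := orbit_formal σ sY sY (𝟙 Y)
    φ (Category.id_comp _) hφ π i g hg hlam0 hroot (by rw [Category.comp_id]; exact hsym)
    (by push Not; exact h1) h2
  obtain ⟨S, χ', hS, hβχ', hχ'⟩ := exists_integral β hft (χ 0) (hχβ 0)
  let P : ℕ → (Spec (CommRingCat.of (S.integer L)) ⟶ Y) := fun n => Spec.map χ' ≫ j ≫ iter φ n
  let ε : Spec (CommRingCat.of L) ⟶ Spec (CommRingCat.of (S.integer L)) :=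
    Spec.map (CommRingCat.ofHom (algebraMap (S.integer L) L))
  have hP : ∀ n, ε ≫ P n = Spec.map (χ n) ≫ j := by
    intro n
    induction n with
    | zero =>
      change ε ≫ Spec.map χ' ≫ j ≫ 𝟙 Y = _
      rw [Category.comp_id, ← Category.assoc, ← Spec.map_comp, hχ']
    | succ n ih =>
      have h3 : P (n + 1) = P n ≫ φ := by
        change Spec.map χ' ≫ j ≫ iter φ n ≫ φ = (Spec.map χ' ≫ j ≫ iter φ n) ≫ φ
        simp only [Category.assoc]
      rw [h3, ← Category.assoc, ih, Category.assoc, hnext n, Category.comp_id]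
  have h3 := hfin L S hS
  apply hinf
  have h4 : (Set.range fun n => Spec.map (χ n) ≫ j ≫ π) ⊆ (fun R => ε ≫ R) ''
      {P : Spec (CommRingCat.of (S.integer L)) ⟶ V |
        P ≫ sV = Spec.map (CommRingCat.ofHom (algebraMap (𝓞 K) (S.integer L))) ∧
          ¬ ∃ Q : Spec (CommRingCat.of (S.integer L)) ⟶ V', Q ≫ i = P} := by
    rintro _ ⟨n, rfl⟩
    have h5 : ε ≫ P n ≫ π = Spec.map (χ n) ≫ j ≫ π := by
      rw [← Category.assoc, hP, Category.assoc]
    refine ⟨P n ≫ π, ⟨?_, ?_⟩, h5⟩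
    · change (Spec.map χ' ≫ j ≫ iter φ n) ≫ π ≫ sV = _
      rw [hπ, Category.assoc, Category.assoc, iter_str φ sY hφ, hβ, ← Spec.map_comp, hβχ']
    · rintro ⟨Q, hQ⟩
      apply hV' n
      refine ⟨ε ≫ Q, ?_⟩
      rw [Category.assoc, hQ, h5]
  exact (h3.image _).subset h4

end Pool.Agent.K1H69.DC
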