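import Pool.Agent.K1H69.DC.Lin
import Pool.Agent.K1H69.DC.IThm

/-!
Formal curves with a symmetry given by a formal germ.
-/

set_option autoImplicit false

open AlgebraicGeometry CategoryTheory
open scoped NumberField

namespace Pool.Agent.K1H69.DC

open PowerSeries

/-- substitution -/
noncomputable def sb (a : PowerSeries ℂ) (ha : constantCoeff a = 0) : CP ⟶ CP :=
  CommRingCat.ofHom (substAlgHom (R := ℂ) (hasSubst_of ha)).toRingHom

lemma sb_apply (a : PowerSeries ℂ) (ha : constantCoeff a = 0) (f : PowerSeries ℂ) :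
    (sb a ha).hom f = (f.subst a : PowerSeries ℂ) := by
  change substAlgHom (R := ℂ) (hasSubst_of ha) f = _
  rw [coe_substAlgHom]

lemma subst_const {a b : PowerSeries ℂ} (ha : constantCoeff a = 0) (hb : constantCoeff b = 0) :
    constantCoeff (b.subst a : PowerSeries ℂ) = 0 := by
  rw [← coeff_zero_eq_constantCoeff_apply, coeff_subst_range ha]
  simp [hb]

lemma sb_comp {a b : PowerSeries ℂ} (ha : constantCoeff a = 0) (hb : constantCoeff b = 0) :
    sb b hb ≫ sb a ha = sb (b.subst a) (subst_const ha hb) := by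
  ext1
  ext1 f
  change (sb a ha).hom ((sb b hb).hom f) = (sb (b.subst a) (subst_const ha hb)).hom f
  rw [sb_apply, sb_apply, sb_apply, subst_comp_subst_apply (hasSubst_of hb) (hasSubst_of ha)]

lemma sb_congr {a b : PowerSeries ℂ} (ha : constantCoeff a = 0) (h : a = b) :
    sb a ha = sb b (h ▸ ha) := by
  subst h
  rfl

lemma sb_X : sb X constantCoeff_X = 𝟙 _ := by
  ext1
  ext1 f
  change (sb X constantCoeff_X).hom f = f
  rw [sb_apply, X_subst]

lemma smul_X_const (lam : ℂ) : constantCoeff (lam • (X : PowerSeries ℂ)) = 0 := by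
  rw [← coeff_zero_eq_constantCoeff_apply, coeff_smul, coeff_zero_X, smul_zero]

lemma resc_eq (lam : ℂ) : resc lam = sb (lam • X) (smul_X_const lam) := by
  ext1
  ext1 f
  change rescale lam f = (sb (lam • X) (smul_X_const lam)).hom f
  rw [sb_apply, rescale_eq_subst]

lemma sb_ccf (a : PowerSeries ℂ) (ha : constantCoeff a = 0) : sb a ha ≫ ccf = ccf := by
  ext1
  ext1 f
  change constantCoeff ((sb a ha).hom f) = constantCoeff f
  rw [sb_apply, ← coeff_zero_eq_constantCoeff_apply, coeff_subst_range ha]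
  simp

lemma cst_sb (a : PowerSeries ℂ) (ha : constantCoeff a = 0) : cst ≫ sb a ha = cst := by
  ext1
  ext1 f
  change (sb a ha).hom (C f) = C f
  rw [sb_apply, subst_C]
  rfl

/-- the composition inverse -/
lemma exists_inv (ζ : PowerSeries ℂ) (hζ : constantCoeff ζ = 0) (h1 : coeff 1 ζ = 1) :
    ∃ η : PowerSeries ℂ, constantCoeff η = 0 ∧ ζ.subst η = (X : PowerSeries ℂ) ∧
      η.subst ζ = (X : PowerSeries ℂ) := by
  have hu : IsUnit (coeff 1 ζ) := by
    rw [h1]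
    exact isUnit_one
  exact ⟨ζ.substInvOfIsUnit hu, constantCoeff_substInvOfIsUnit ζ hu,
    subst_substInvOfIsUnit_right _ hζ hu, subst_substInvOfIsUnit_left _ hζ hu⟩

/-- **Formal linearisation.** -/
theorem linearise (a : PowerSeries ℂ) (ha : constantCoeff a = 0) (hlam0 : coeff 1 a ≠ 0)
    (hroot : ∀ k : ℕ, 0 < k → (coeff 1 a) ^ k ≠ 1) :
    ∃ (η ζ : PowerSeries ℂ) (hη : constantCoeff η = 0) (hζ : constantCoeff ζ = 0),
      sb η hη ≫ sb ζ hζ = 𝟙 _ ∧ sb η hη ≫ resc (coeff 1 a) = sb a ha ≫ sb η hη := by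
  obtain ⟨ζ, hζ, hζ1, hζ2⟩ : ∃ ζ : PowerSeries ℂ, constantCoeff ζ = 0 ∧ coeff 1 ζ = 1 ∧
      ζ.subst a = (coeff 1 a) • ζ := ⟨schro a, schro_zero a, schro_one a, schro_eq ha hlam0 hroot⟩
  obtain ⟨η, hη, h1, h2⟩ := exists_inv ζ hζ hζ1
  have h3 : sb η hη ≫ sb ζ hζ = 𝟙 _ := by
    rw [sb_comp, sb_congr _ h2, sb_X]
  have h4 : sb ζ hζ ≫ sb η hη = 𝟙 _ := by
    rw [sb_comp, sb_congr _ h1, sb_X]
  have h5 : sb ζ hζ ≫ sb a ha = resc (coeff 1 a) ≫ sb ζ hζ := by
    rw [sb_comp, resc_eq, sb_comp]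
    apply sb_congr
    rw [hζ2, subst_smul (hasSubst_of hζ), subst_X (hasSubst_of hζ)]
  refine ⟨η, ζ, hη, hζ, h3, ?_⟩
  calc sb η hη ≫ resc (coeff 1 a)
      = sb η hη ≫ resc (coeff 1 a) ≫ sb ζ hζ ≫ sb η hη := by
        rw [h4, Category.comp_id]
    _ = sb η hη ≫ (resc (coeff 1 a) ≫ sb ζ hζ) ≫ sb η hη := by
        rw [Category.assoc]
    _ = (sb η hη ≫ sb ζ hζ) ≫ sb a ha ≫ sb η hη := by
        rw [← h5]
        simp only [Category.assoc]
    _ = sb a ha ≫ sb η hη := by rw [h3, Category.id_comp]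

theorem integral_gen {K : Type} [Field K] [NumberField K] (σ : K →+* ℂ)
    {Y V V' : Scheme.{0}} (sY : Y ⟶ Spec (CommRingCat.of (𝓞 K))) [LocallyOfFiniteType sY]
    (sV : V ⟶ Spec (CommRingCat.of (𝓞 K)))
    (φ : Y ⟶ Y) (hφ : φ ≫ sY = sY) (π : Y ⟶ V) (hπ : π ≫ sV = sY) (i : V' ⟶ V)
    [IsClosedImmersion i] (hfin : IntegralFinite sV i)
    (g : Spec CP ⟶ Y) (hg : g ≫ sY = Spec.map (strC σ ≫ cst)) (a : PowerSeries ℂ)
    (ha : constantCoeff a = 0) (hlam0 : coeff 1 a ≠ 0)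
    (hroot : ∀ k : ℕ, 0 < k → (coeff 1 a) ^ k ≠ 1) (hsym : Spec.map (sb a ha) ≫ g = g ≫ φ) :
    (∃ Q, Q ≫ i = g ≫ π) ∨ g ≫ π = Spec.map (ccf ≫ cst) ≫ g ≫ π := by
  obtain ⟨η, ζ, hη, hζ, h1, h2⟩ := linearise a ha hlam0 hroot
  have h3 := integral_formal σ sY sV φ hφ π hπ i hfin (Spec.map (sb η hη) ≫ g)
    (by rw [Category.assoc, hg, ← Spec.map_comp, Category.assoc, cst_sb]) hlam0 hroot
    (by rw [← Category.assoc, ← Spec.map_comp, h2, Spec.map_comp, Category.assoc, hsym,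
          Category.assoc])
  have h4 : Spec.map (sb ζ hζ) ≫ Spec.map (sb η hη) ≫ g = g := by
    rw [← Category.assoc, ← Spec.map_comp, h1, Spec.map_id, Category.id_comp]
  rcases h3 with ⟨Q, hQ⟩ | h3
  · left
    refine ⟨Spec.map (sb ζ hζ) ≫ Q, ?_⟩
    rw [Category.assoc, hQ, ← Category.assoc, h4]
  · right
    have h5 : Spec.map (sb ζ hζ) ≫ (Spec.map (sb η hη) ≫ g) ≫ π =
        Spec.map (sb ζ hζ) ≫ Spec.map (ccf ≫ cst) ≫ (Spec.map (sb η hη) ≫ g) ≫ π := by
      rw [← h3]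
    rw [← Category.assoc, h4, ← Category.assoc, ← Spec.map_comp, Category.assoc, cst_sb,
      Category.assoc, ← Category.assoc _ _ (g ≫ π), ← Spec.map_comp,
      ← Category.assoc (sb η hη) ccf cst, sb_ccf] at h5
    exact h5

end Pool.Agent.K1H69.DC
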