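import Pool.Agent.K1H69.DC.Tay
import Pool.Agent.K1H69.DC.Gen

/-!
From holomorphic germs to formal curves.
-/

set_option autoImplicit false

open AlgebraicGeometry CategoryTheory
open scoped NumberField

namespace Pool.Agent.K1H69.DC

open PowerSeries Topology

lemma analyticAt_of {f : ℂ → ℂ} {r : ℝ} (hr : 0 < r)
    (h : DifferentiableOn ℂ f (Metric.ball 0 r)) : AnalyticAt ℂ f 0 :=
  h.analyticAt (Metric.ball_mem_nhds _ hr)

/-- The Taylor homomorphism. -/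
noncomputable def tayHom {B : CommRingCat.{0}} (ev : ℂ → (B ⟶ CommRingCat.of ℂ)) {r : ℝ}
    (hr : 0 < r)
    (hev : ∀ b : B, DifferentiableOn ℂ (fun z => ((ev z).hom b : ℂ)) (Metric.ball 0 r)) :
    B ⟶ CP :=
  CommRingCat.ofHom
    { toFun := fun b => tay fun z => ((ev z).hom b : ℂ)
      map_one' := by
        simp only [map_one]
        exact (tay_const 1).trans (map_one _)
      map_mul' := fun b c => by
        simp only [map_mul]
        exact tay_mul (analyticAt_of hr (hev b)) (analyticAt_of hr (hev c))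
      map_zero' := by
        simp only [map_zero]
        exact (tay_const 0).trans (map_zero _)
      map_add' := fun b c => by
        simp only [map_add]
        exact tay_add (analyticAt_of hr (hev b)) (analyticAt_of hr (hev c)) }

lemma tayHom_apply {B : CommRingCat.{0}} (ev : ℂ → (B ⟶ CommRingCat.of ℂ)) {r : ℝ}
    (hr : 0 < r)
    (hev : ∀ b : B, DifferentiableOn ℂ (fun z => ((ev z).hom b : ℂ)) (Metric.ball 0 r)) (b : B) :
    (tayHom ev hr hev).hom b = tay fun z => ((ev z).hom b : ℂ) := rfl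

lemma tayHom_ccf {B : CommRingCat.{0}} (ev : ℂ → (B ⟶ CommRingCat.of ℂ)) {r : ℝ}
    (hr : 0 < r)
    (hev : ∀ b : B, DifferentiableOn ℂ (fun z => ((ev z).hom b : ℂ)) (Metric.ball 0 r)) :
    tayHom ev hr hev ≫ ccf = ev 0 := by
  ext1
  ext1 b
  change constantCoeff (tay fun z => ((ev z).hom b : ℂ)) = (ev 0).hom b
  rw [tay_zero]

/-- The Taylor homomorphism in another chart. -/
lemma tayHom_chart {B C : CommRingCat.{0}} {w : B} {χ : C ⟶ CommRingCat.of (Localization.Away w)}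
    {ev : ℂ → (B ⟶ CommRingCat.of ℂ)} {r : ℝ} (hr : 0 < r)
    (hev : ∀ b : B, DifferentiableOn ℂ (fun z => ((ev z).hom b : ℂ)) (Metric.ball 0 r))
    {ev' : ℂ → (C ⟶ CommRingCat.of ℂ)} {r' : ℝ} (hr' : 0 < r')
    (hne : ∀ z ∈ Metric.ball (0 : ℂ) r', (ev z).hom w ≠ 0)
    (hev1 : ∀ z ∈ Metric.ball (0 : ℂ) r', ∀ h : IsUnit ((ev z).hom w),
      ev' z = χ ≫ extM w (ev z) h)
    (hev' : ∀ c : C, DifferentiableOn ℂ (fun z => ((ev' z).hom c : ℂ)) (Metric.ball 0 r'))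
    (hu : IsUnit ((tayHom ev hr hev).hom w)) :
    χ ≫ extM w (tayHom ev hr hev) hu = tayHom ev' hr' hev' := by
  ext1
  ext1 c
  obtain ⟨n, a, ha⟩ := ext_value w χ c
  have h1 := ha _ (tayHom ev hr hev) hu
  have h2 : tay (fun z => ((ev' z).hom c : ℂ)) * tay (fun z => ((ev z).hom w : ℂ)) ^ n =
      tay (fun z => ((ev z).hom a : ℂ)) := by
    rw [← tay_pow (analyticAt_of hr (hev w)), ← tay_mul (analyticAt_of hr' (hev' c))
      ((analyticAt_of hr (hev w)).fun_pow n)]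
    apply tay_congr
    filter_upwards [Metric.ball_mem_nhds (0 : ℂ) hr'] with z hz
    have hu' : IsUnit ((ev z).hom w) := isUnit_iff_ne_zero.2 (hne z hz)
    rw [hev1 z hz hu']
    exact ha _ (ev z) hu'
  have h3 : IsUnit ((tayHom ev hr hev).hom w ^ n) := hu.pow n
  apply h3.mul_right_cancel
  rw [h1]
  exact h2.symm

lemma isUnit_tay {B : CommRingCat.{0}} (ev : ℂ → (B ⟶ CommRingCat.of ℂ)) {r : ℝ}
    (hr : 0 < r)
    (hev : ∀ b : B, DifferentiableOn ℂ (fun z => ((ev z).hom b : ℂ)) (Metric.ball 0 r)) {w : B}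
    (hw : (ev 0).hom w ≠ 0) : IsUnit ((tayHom ev hr hev).hom w) := by
  rw [tayHom_apply]
  refine PowerSeries.isUnit_iff_constantCoeff.2 (isUnit_iff_ne_zero.2 ?_)
  rw [tay_zero]
  exact hw

/-- The structure morphism. -/
lemma tayHom_str {K : Type} [Field K] [NumberField K] (σ : K →+* ℂ) {Y : Scheme.{0}}
    (sY : Y ⟶ Spec (CommRingCat.of (𝓞 K))) {B : CommRingCat.{0}} (j : Spec B ⟶ Y)
    (ev : ℂ → (B ⟶ CommRingCat.of ℂ)) {r : ℝ} (hr : 0 < r)
    (hev : ∀ b : B, DifferentiableOn ℂ (fun z => ((ev z).hom b : ℂ)) (Metric.ball 0 r))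
    (hs : ∀ᶠ z in 𝓝 (0 : ℂ), Spec.map (ev z) ≫ j ≫ sY = Spec.map (strC σ)) :
    (Spec.map (tayHom ev hr hev) ≫ j) ≫ sY = Spec.map (strC σ ≫ cst) := by
  have hβ : Spec.map (Spec.preimage (j ≫ sY)) = j ≫ sY := Spec.map_preimage _
  rw [Category.assoc, ← hβ, ← Spec.map_comp]
  congr 1
  ext1
  ext1 c
  have h1 : ∀ᶠ z in 𝓝 (0 : ℂ), ((ev z).hom ((Spec.preimage (j ≫ sY)).hom c) : ℂ) =
      (strC σ).hom c := by
    filter_upwards [hs] with z hz
    rw [← hβ, ← Spec.map_comp] at hz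
    exact congrArg (fun F => F.hom c) (Spec.map_injective hz)
  change tay (fun z => ((ev z).hom ((Spec.preimage (j ≫ sY)).hom c) : ℂ)) = C ((strC σ).hom c)
  rw [tay_congr h1, tay_const]

/-- The symmetry. -/
lemma tayHom_sym {Y : Scheme.{0}} {B : CommRingCat.{0}} (j : Spec B ⟶ Y) [IsOpenImmersion j]
    (ev : ℂ → (B ⟶ CommRingCat.of ℂ)) {r : ℝ} (hr : 0 < r)
    (hev : ∀ b : B, DifferentiableOn ℂ (fun z => ((ev z).hom b : ℂ)) (Metric.ball 0 r))
    (φ : Y ⟶ Y) {a : ℂ → ℂ} (ha : AnalyticAt ℂ a 0) (ha0 : a 0 = 0)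
    (hs : ∀ᶠ z in 𝓝 (0 : ℂ), Spec.map (ev (a z)) ≫ j = Spec.map (ev z) ≫ j ≫ φ)
    (hc : constantCoeff (tay a) = 0) :
    Spec.map (sb (tay a) hc) ≫ Spec.map (tayHom ev hr hev) ≫ j =
      (Spec.map (tayHom ev hr hev) ≫ j) ≫ φ := by
  have h0 : Spec.map (ev 0) ≫ j ≫ φ = Spec.map (ev 0) ≫ j := by
    have := hs.self_of_nhds
    rw [ha0] at this
    exact this.symm
  obtain ⟨w, χ, hw, hχ⟩ := chart_lift (j ≫ φ) j (ev 0) (range_of_factor (j ≫ φ) j (ev 0) (ev 0) h0)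
  obtain ⟨ev', r', hr', hrr, hne, hev1, hev2, hev'⟩ := hol_chart hχ hr hev hw
  have hu := isUnit_tay ev hr hev hw
  rw [Category.assoc, spec_chart hχ (tayHom ev hr hev) hu,
    tayHom_chart hr hev hr' hne hev1 hev' hu, ← Category.assoc, ← Spec.map_comp]
  congr 2
  ext1
  ext1 b
  change (sb (tay a) hc).hom (tay fun z => ((ev z).hom b : ℂ)) = tay fun z => ((ev' z).hom b : ℂ)
  rw [sb_apply, ← tay_comp (analyticAt_of hr (hev b)) ha ha0]
  apply tay_congr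
  filter_upwards [hs, Metric.ball_mem_nhds (0 : ℂ) hr'] with z hz hz'
  rw [hev2 z hz'] at hz
  have h1 := Spec.map_injective ((cancel_mono j).1 hz)
  rw [h1]

/-- Vanishing of the formal curve on a closed subscheme. -/
lemma closed_of_formal {Y V V' : Scheme.{0}} {B : CommRingCat.{0}} (j : Spec B ⟶ Y)
    (ev : ℂ → (B ⟶ CommRingCat.of ℂ)) {r : ℝ} (hr : 0 < r)
    (hev : ∀ b : B, DifferentiableOn ℂ (fun z => ((ev z).hom b : ℂ)) (Metric.ball 0 r))
    (π : Y ⟶ V) (i : V' ⟶ V) [IsClosedImmersion i]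
    (h : ∃ Q, Q ≫ i = (Spec.map (tayHom ev hr hev) ≫ j) ≫ π) :
    ∀ᶠ z in 𝓝 (0 : ℂ), ∃ Q, Q ≫ i = Spec.map (ev z) ≫ j ≫ π := by
  obtain ⟨J, hJ⟩ := exists_ideal i (j ≫ π)
  rw [Category.assoc, hJ] at h
  filter_upwards [Metric.ball_mem_nhds (0 : ℂ) hr] with z hz
  rw [hJ]
  intro b hb
  have h1 : tay (fun z => ((ev z).hom b : ℂ)) = 0 := h b hb
  exact ball_zero (hev b) (Metric.mem_ball_self hr)
    (tay_eq_zero (analyticAt_of hr (hev b)) h1) z hz

/-- Constant formal curves. -/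
lemma const_of_formal {Y V : Scheme.{0}} {B : CommRingCat.{0}} (j : Spec B ⟶ Y)
    (ev : ℂ → (B ⟶ CommRingCat.of ℂ)) {r : ℝ} (hr : 0 < r)
    (hev : ∀ b : B, DifferentiableOn ℂ (fun z => ((ev z).hom b : ℂ)) (Metric.ball 0 r))
    (π : Y ⟶ V)
    (h : (Spec.map (tayHom ev hr hev) ≫ j) ≫ π =
      Spec.map (ccf ≫ cst) ≫ (Spec.map (tayHom ev hr hev) ≫ j) ≫ π) :
    ∀ᶠ z in 𝓝 (0 : ℂ), Spec.map (ev z) ≫ j ≫ π = Spec.map (ev 0) ≫ j ≫ π := by
  obtain ⟨C, k, hk, hrange⟩ := exists_chart (j ≫ π) (ev 0)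
  obtain ⟨w, χ, hw, hχ⟩ := chart_lift (j ≫ π) k (ev 0) hrange
  obtain ⟨ev', r', hr', hrr, hne, hev1, hev2, hev'⟩ := hol_chart hχ hr hev hw
  have hu := isUnit_tay ev hr hev hw
  rw [Category.assoc, spec_chart hχ (tayHom ev hr hev) hu,
    tayHom_chart hr hev hr' hne hev1 hev' hu, ← Category.assoc, ← Spec.map_comp] at h
  have h1 := Spec.map_injective ((cancel_mono k).1 h)
  have h2 : ∀ z ∈ Metric.ball (0 : ℂ) r', ev' z = ev' 0 := by
    intro z hz
    ext1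
    ext1 c
    have h3 : tay (fun z => ((ev' z).hom c : ℂ)) = PowerSeries.C ((ev' 0).hom c : ℂ) := by
      have h4 := congrArg (fun F => F.hom c) h1
      change tay (fun z => ((ev' z).hom c : ℂ)) = PowerSeries.C (constantCoeff
        (tay (fun z => ((ev' z).hom c : ℂ)))) at h4
      rw [tay_zero] at h4
      exact h4
    have h5 : DifferentiableOn ℂ (fun z => ((ev' z).hom c : ℂ) - ((ev' 0).hom c : ℂ))
        (Metric.ball 0 r') := (hev' c).sub_const _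
    have h6 : tay (fun z => ((ev' z).hom c : ℂ) - ((ev' 0).hom c : ℂ)) = 0 := by
      rw [tay_sub (analyticAt_of hr' (hev' c)) analyticAt_const, h3, tay_const, sub_self]
    exact sub_eq_zero.1 (ball_zero h5 (Metric.mem_ball_self hr')
      (tay_eq_zero (analyticAt_of hr' h5) h6) z hz)
  filter_upwards [Metric.ball_mem_nhds (0 : ℂ) hr'] with z hz
  rw [hev2 z hz, hev2 0 (Metric.mem_ball_self hr'), h2 z hz]

end Pool.Agent.K1H69.DC
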