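import Mathlib

/-!
Formal linearisation: the formal solution of the functional equation of Schröder.
-/

set_option autoImplicit false

namespace Pool.Agent.K1H69.DC

open PowerSeries Finset

lemma hasSubst_of {a : PowerSeries ℂ} (ha : constantCoeff a = 0) : HasSubst a :=
  HasSubst.of_constantCoeff_zero' ha

lemma coeff_pow_gt {a : PowerSeries ℂ} (ha : constantCoeff a = 0) {n d : ℕ} (h : n < d) :
    coeff n (a ^ d) = 0 := by
  obtain ⟨b, rfl⟩ := X_dvd_iff.2 ha
  rw [mul_pow]
  exact X_pow_dvd_iff.1 (Dvd.intro _ rfl) n h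

lemma coeff_pow_self {a : PowerSeries ℂ} (ha : constantCoeff a = 0) (n : ℕ) :
    coeff n (a ^ n) = (coeff 1 a) ^ n := by
  obtain ⟨b, rfl⟩ := X_dvd_iff.2 ha
  have h1 : coeff 1 (X * b) = constantCoeff b := by
    have := coeff_succ_X_mul 0 b
    rw [coeff_zero_eq_constantCoeff_apply] at this
    exact this
  rw [h1, mul_pow]
  have h2 := coeff_X_pow_mul (b ^ n) n 0
  rw [zero_add] at h2
  rw [h2, coeff_zero_eq_constantCoeff_apply, map_pow]

/-- The coefficients of a composition. -/
lemma coeff_subst_range {a f : PowerSeries ℂ} (ha : constantCoeff a = 0) (n : ℕ) :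
    coeff n (f.subst a : PowerSeries ℂ) =
      ∑ d ∈ Finset.range (n + 1), coeff d f * coeff n (a ^ d) := by
  rw [coeff_subst' (hasSubst_of ha)]
  refine finsum_eq_sum_of_support_subset _ fun d hd => ?_
  rw [Finset.coe_range, Set.mem_Iio]
  by_contra hcon
  apply hd
  change coeff d f • coeff n (a ^ d) = 0
  rw [coeff_pow_gt ha (by omega), smul_zero]

/-- the coefficients of the solution -/
noncomputable def schroF (a : PowerSeries ℂ) : ℕ → ℂ
  | 0 => 0
  | 1 => 1
  | n + 2 => (coeff 1 a - (coeff 1 a) ^ (n + 2))⁻¹ *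
      ∑ d : Fin (n + 2), schroF a d.1 * coeff (n + 2) (a ^ d.1)

/-- the formal solution of the functional equation of Schröder -/
noncomputable def schro (a : PowerSeries ℂ) : PowerSeries ℂ := PowerSeries.mk (schroF a)

lemma schro_zero (a : PowerSeries ℂ) : constantCoeff (schro a) = 0 := by
  rw [← coeff_zero_eq_constantCoeff_apply, schro, coeff_mk, schroF]

lemma schro_one (a : PowerSeries ℂ) : coeff 1 (schro a) = 1 := by
  rw [schro, coeff_mk, schroF]

lemma schro_eq {a : PowerSeries ℂ} (ha : constantCoeff a = 0) (hlam0 : coeff 1 a ≠ 0)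
    (hroot : ∀ k : ℕ, 0 < k → (coeff 1 a) ^ k ≠ 1) :
    (schro a).subst a = (coeff 1 a) • schro a := by
  ext n
  rw [coeff_subst_range ha, coeff_smul, smul_eq_mul]
  rcases n with _ | _ | n
  · rw [Finset.sum_range_one, schro, coeff_mk, schroF]
    simp
  · rw [Finset.sum_range_succ, Finset.sum_range_one, schro, coeff_mk, coeff_mk, schroF, schroF]
    simp
  · rw [Finset.sum_range_succ, coeff_pow_self ha]
    have h1 : coeff (n + 2) (schro a) = (coeff 1 a - (coeff 1 a) ^ (n + 2))⁻¹ *
        ∑ d ∈ Finset.range (n + 2), coeff d (schro a) * coeff (n + 2) (a ^ d) := by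
      rw [← Fin.sum_univ_eq_sum_range (fun d => coeff d (schro a) * coeff (n + 2) (a ^ d))]
      simp only [schro, coeff_mk]
      rw [schroF]
    have h2 : coeff 1 a - (coeff 1 a) ^ (n + 2) ≠ 0 := by
      intro h0
      have h3 : coeff 1 a * (1 - (coeff 1 a) ^ (n + 1)) = 0 := by
        rw [← h0]; ring
      rcases mul_eq_zero.1 h3 with h4 | h4
      · exact hlam0 h4
      · exact hroot (n + 1) (Nat.succ_pos _) (sub_eq_zero.1 h4).symm
    have h3 : ∑ d ∈ Finset.range (n + 2), coeff d (schro a) * coeff (n + 2) (a ^ d) =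
        (coeff 1 a - (coeff 1 a) ^ (n + 2)) * coeff (n + 2) (schro a) := by
      rw [h1, mul_inv_cancel_left₀ h2]
    rw [h3]
    ring

end Pool.Agent.K1H69.DC
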