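import Pool.Agent.K1H69.DC.RDyn

/-!
Rational points of schemes which are proper over a nonempty open subset of the integers.
-/

set_option autoImplicit false

open AlgebraicGeometry CategoryTheory IsDedekindDomain
open scoped NumberField

namespace Pool.Agent.K1H69.DC

/-- The ring `𝓞 L [1 / N]`. -/
lemma exists_away {L : Type} [Field L] [NumberField L] (N : 𝓞 L) (hN : N ≠ 0) :
    ∃ (S : Set (HeightOneSpectrum (𝓞 L))) (A : Subalgebra (𝓞 L) L), S.Finite ∧
      IsDedekindDomain A ∧ IsFractionRing A L ∧ IsUnit (algebraMap (𝓞 L) A N) ∧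
      A ≤ S.integer L := by
  have hM : Submonoid.powers N ≤ nonZeroDivisors (𝓞 L) :=
    powers_le_nonZeroDivisors_of_noZeroDivisors hN
  let A := Localization.subalgebra.ofField L (Submonoid.powers N) hM
  have hloc : IsLocalization (Submonoid.powers N) A :=
    Localization.subalgebra.isLocalization_ofField L _ hM
  let S : Set (HeightOneSpectrum (𝓞 L)) := {v | N ∈ v.asIdeal}
  refine ⟨S, A, ?_, IsLocalization.isDedekindDomain (𝓞 L) hM A,
    Localization.subalgebra.isFractionRing_ofField L _ hM,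
    IsLocalization.map_units A ⟨N, Submonoid.mem_powers N⟩, ?_⟩
  · have h0 := Ideal.finite_factors (R := 𝓞 L) (I := Ideal.span {N}) (by
      rw [Ne, Submodule.zero_eq_bot, Ideal.span_singleton_eq_bot]
      exact hN)
    refine h0.subset fun v hv => ?_
    change v.asIdeal ∣ Ideal.span {N}
    rw [Ideal.dvd_span_singleton]
    exact hv
  · rintro x hx v hv
    obtain ⟨⟨a, ⟨_, k, rfl⟩⟩, hx'⟩ := IsLocalization.surj (Submonoid.powers N) (⟨x, hx⟩ : A)
    have h1 : x * (algebraMap (𝓞 L) L N) ^ k = algebraMap (𝓞 L) L a := by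
      have := congrArg (fun y : A => (y : L)) hx'
      simp only [map_pow] at this
      exact this
    have h2 : v.valuation L (algebraMap (𝓞 L) L N) = 1 := v.valuation_eq_one_iff_notMem.2 hv
    have h3 := congrArg (v.valuation L) h1
    rw [map_mul, map_pow, h2, one_pow, mul_one] at h3
    rw [h3]
    exact v.valuation_le_one a

/-- The points of a scheme which is proper over a nonempty open subset of the integers with values
in a number field are integral outside of a fixed finite set. -/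
theorem rational_of_integral_open {K : Type} [Field K] [NumberField K] {V V' : Scheme.{0}}
    (sV : V ⟶ Spec (CommRingCat.of (𝓞 K))) (N : 𝓞 K) (hN : N ≠ 0)
    (hp : IsProper (sV ∣_ (PrimeSpectrum.basicOpen N : (Spec (CommRingCat.of (𝓞 K))).Opens)))
    (i : V' ⟶ V) (h : IntegralFinite sV i) : RationalFinite sV i := by
  intro L _ _ _
  have hN' : algebraMap (𝓞 K) (𝓞 L) N ≠ 0 := by
    rw [Ne, map_eq_zero_iff _ (FaithfulSMul.algebraMap_injective (𝓞 K) (𝓞 L))]
    exact hN
  obtain ⟨S, A, hS, hA1, hA2, hA3, hA4⟩ := exists_away (L := L) (algebraMap (𝓞 K) (𝓞 L) N) hN'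
  set O : (Spec (CommRingCat.of (𝓞 K))).Opens := PrimeSpectrum.basicOpen N with hO
  have hsep : (sV ⁻¹ᵁ O).toScheme.IsSeparated := by
    constructor
    rw [show Limits.terminal.from ((sV ⁻¹ᵁ O).toScheme) = (sV ∣_ O) ≫ O.ι ≫
      Limits.terminal.from _ from Limits.terminal.hom_ext _ _]
    infer_instance
  have h1 := h L S hS
  let ε : Spec (CommRingCat.of L) ⟶ Spec (CommRingCat.of (S.integer L)) :=
    Spec.map (CommRingCat.ofHom (algebraMap (S.integer L) L))
  refine (h1.image (fun R => ε ≫ R)).subset ?_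
  rintro P ⟨hP, hP'⟩
  -- the structure map over the open subset
  let t : Spec (CommRingCat.of A) ⟶ Spec (CommRingCat.of (𝓞 K)) :=
    Spec.map (CommRingCat.ofHom ((algebraMap (𝓞 L) A).comp (algebraMap (𝓞 K) (𝓞 L))))
  have htr : Set.range t ⊆ Set.range O.ι := by
    rintro _ ⟨y, rfl⟩
    rw [Scheme.Opens.range_ι]
    change t y ∈ O
    rw [hO]
    change PrimeSpectrum.comap ((algebraMap (𝓞 L) A).comp (algebraMap (𝓞 K) (𝓞 L))) y ∈
      PrimeSpectrum.basicOpen N
    rw [PrimeSpectrum.mem_basicOpen]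
    intro hmem
    exact (PrimeSpectrum.isPrime y).ne_top (Ideal.eq_top_of_isUnit_mem _ hmem hA3)
  let t1 : Spec (CommRingCat.of A) ⟶ O.toScheme := IsOpenImmersion.lift O.ι t htr
  have ht1 : t1 ≫ O.ι = t := IsOpenImmersion.lift_fac _ _ _
  have hPt : P ≫ sV = Spec.map (CommRingCat.ofHom (algebraMap A L)) ≫ t := by
    rw [hP, ← Spec.map_comp]
    rfl
  have hPr : Set.range P ⊆ Set.range (sV ⁻¹ᵁ O).ι := by
    rintro _ ⟨y, rfl⟩
    rw [Scheme.Opens.range_ι]
    change sV (P y) ∈ O
    have h2 : sV (P y) = t ((Spec.map (CommRingCat.ofHom (algebraMap A L))) y) := by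
      rw [← Scheme.Hom.comp_apply, ← Scheme.Hom.comp_apply, hPt]
    rw [h2]
    have h3 := htr ⟨(Spec.map (CommRingCat.ofHom (algebraMap A L))) y, rfl⟩
    rw [Scheme.Opens.range_ι] at h3
    exact h3
  let P1 : Spec (CommRingCat.of L) ⟶ (sV ⁻¹ᵁ O).toScheme :=
    IsOpenImmersion.lift (sV ⁻¹ᵁ O).ι P hPr
  have hP1 : P1 ≫ (sV ⁻¹ᵁ O).ι = P := IsOpenImmersion.lift_fac _ _ _
  obtain ⟨P1', hP1'⟩ := extend_point A L (sV ∣_ O) t1 P1 (by
    rw [← cancel_mono O.ι, Category.assoc, Category.assoc, morphismRestrict_ι, ← Category.assoc,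
      hP1, ht1, hPt])
  let R : Spec (CommRingCat.of (S.integer L)) ⟶ V :=
    Spec.map (CommRingCat.ofHom (Subalgebra.inclusion hA4).toRingHom) ≫ P1' ≫ (sV ⁻¹ᵁ O).ι
  have hR : ε ≫ R = P := by
    change Spec.map (CommRingCat.ofHom (algebraMap (S.integer L) L)) ≫
      Spec.map (CommRingCat.ofHom (Subalgebra.inclusion hA4).toRingHom) ≫ P1' ≫
        (sV ⁻¹ᵁ O).ι = P
    rw [← Category.assoc, ← Spec.map_comp, ← hP1, ← hP1', Category.assoc]
    rfl
  refine ⟨R, ⟨?_, ?_⟩, hR⟩
  · have h2 : ε ≫ R ≫ sV =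
        ε ≫ Spec.map (CommRingCat.ofHom (algebraMap (𝓞 K) (S.integer L))) := by
      rw [← Category.assoc, hR, hP]
      change _ = Spec.map (CommRingCat.ofHom (algebraMap (S.integer L) L)) ≫ _
      rw [← Spec.map_comp]
      rfl
    let u : CommRingCat.of (𝓞 K) ⟶ CommRingCat.of (S.integer L) := Spec.preimage (R ≫ sV)
    have hu : Spec.map u = R ≫ sV := Spec.map_preimage _
    rw [← hu] at h2 ⊢
    have h3 : Spec.map (u ≫ CommRingCat.ofHom (algebraMap (S.integer L) L)) =
        Spec.map (CommRingCat.ofHom (algebraMap (𝓞 K) (S.integer L)) ≫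
          CommRingCat.ofHom (algebraMap (S.integer L) L)) := by
      rw [Spec.map_comp, Spec.map_comp]
      exact h2
    have h4 := Spec.map_injective h3
    congr 1
    ext c
    exact congrArg (fun F => F.hom c) h4
  · rintro ⟨Q, hQ⟩
    apply hP'
    refine ⟨ε ≫ Q, ?_⟩
    rw [Category.assoc, hQ, hR]

end Pool.Agent.K1H69.DC
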