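import Pool.Agent.K1H69.DC.Ring2
import Pool.Agent.K1H69.DC.Approx

/-!
Orbits of rational self-maps which shadow a formal curve, over the `p`-adic integers.
-/

set_option autoImplicit false

namespace Pool.Agent.K1H69.DC

open Finset

/-- Homogenization. -/
lemma homog {A0 I : Type} [CommRing A0] (q : MvPolynomial I A0) (Φ : I → MvPolynomial I A0)
    (Q : MvPolynomial I A0) : ∃ (d : ℕ) (Q' : MvPolynomial I A0), ∀ (C : Type) [CommRing C]
      [Algebra A0 C] (y y' : I → C), (∀ i, MvPolynomial.aeval y q * y' i =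
        MvPolynomial.aeval y (Φ i)) →
      (MvPolynomial.aeval y q) ^ d * MvPolynomial.aeval y' Q = MvPolynomial.aeval y Q' := by
  induction Q using MvPolynomial.induction_on with
  | C c =>
    refine ⟨0, MvPolynomial.C c, fun C _ _ y y' _ => ?_⟩
    rw [pow_zero, one_mul, MvPolynomial.aeval_C, MvPolynomial.aeval_C]
  | add P Q hP hQ =>
    obtain ⟨d, P', hP⟩ := hP
    obtain ⟨e, Q', hQ⟩ := hQ
    refine ⟨d + e, q ^ e * P' + q ^ d * Q', fun C _ _ y y' h => ?_⟩
    have h1 := hP C y y' h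
    have h2 := hQ C y y' h
    simp only [map_add, map_mul, map_pow]
    rw [← h1, ← h2]
    ring
  | mul_X P i hP =>
    obtain ⟨d, P', hP⟩ := hP
    refine ⟨d + 1, P' * Φ i, fun C _ _ y y' h => ?_⟩
    have h1 := hP C y y' h
    rw [map_mul, map_mul, MvPolynomial.aeval_X, ← h1, ← h i]
    ring

lemma rescale_aeval {k A0 I : Type} [Field k] [CommRing A0] [Algebra A0 k] (c : k)
    (T : I → PowerSeries k) (Q : MvPolynomial I A0) :
    MvPolynomial.aeval (fun i => PowerSeries.rescale c (T i)) Q =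
      PowerSeries.rescale c (MvPolynomial.aeval T Q) := by
  induction Q using MvPolynomial.induction_on with
  | C a =>
    rw [MvPolynomial.aeval_C, MvPolynomial.aeval_C, PowerSeries.algebraMap_apply]
    ext n
    rw [PowerSeries.coeff_rescale, PowerSeries.coeff_C]
    split_ifs with h
    · rw [h, pow_zero, one_mul]
    · rw [mul_zero]
  | add P Q hP hQ => rw [map_add, map_add, map_add, hP, hQ]
  | mul_X P i hP =>
    rw [map_mul, map_mul, map_mul, hP, MvPolynomial.aeval_X, MvPolynomial.aeval_X]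

/-- The first coefficients of `w = q · q(cz) · (ρ(cz) - ρ)`, `ρ = h / q`. -/
lemma w_coeff {k : Type} [Field k] (h q : PowerSeries k) (hq : PowerSeries.constantCoeff q ≠ 0)
    {s : ℕ} (hs : PowerSeries.coeff s (h * q⁻¹) ≠ 0)
    (hlt : ∀ n < s, 0 < n → PowerSeries.coeff n (h * q⁻¹) = 0) (c : k) (hc : c ^ s ≠ 1) :
    PowerSeries.coeff s (PowerSeries.rescale c h * q - h * PowerSeries.rescale c q) ≠ 0 ∧
    ∀ n < s, PowerSeries.coeff n (PowerSeries.rescale c h * q - h * PowerSeries.rescale c q) =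
      0 := by
  set r := h * q⁻¹ with hr
  have hqq : q * q⁻¹ = 1 := PowerSeries.mul_inv_cancel q hq
  have hh : h = r * q := by rw [hr, mul_assoc, mul_comm q⁻¹ q, hqq, mul_one]
  have e : PowerSeries.rescale c h * q - h * PowerSeries.rescale c q =
      (PowerSeries.rescale c r - r) * (q * PowerSeries.rescale c q) := by
    rw [hh, map_mul]; ring
  have hd : ∀ n, PowerSeries.coeff n (PowerSeries.rescale c r - r) =
      (c ^ n - 1) * PowerSeries.coeff n r := by
    intro n
    rw [map_sub, PowerSeries.coeff_rescale]; ring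
  have hd0 : ∀ n < s, PowerSeries.coeff n (PowerSeries.rescale c r - r) = 0 := by
    intro n hn
    rw [hd]
    rcases Nat.eq_zero_or_pos n with h0 | h0
    · rw [h0, pow_zero, sub_self, zero_mul]
    · rw [hlt n hn h0, mul_zero]
  have hc0 : PowerSeries.coeff 0 (q * PowerSeries.rescale c q) ≠ 0 := by
    rw [PowerSeries.coeff_zero_eq_constantCoeff, map_mul]
    refine mul_ne_zero hq ?_
    rw [← PowerSeries.coeff_zero_eq_constantCoeff, PowerSeries.coeff_rescale, pow_zero, one_mul,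
      PowerSeries.coeff_zero_eq_constantCoeff]
    exact hq
  rw [e]
  constructor
  · rw [PowerSeries.coeff_mul, Finset.sum_eq_single (s, 0)]
    · refine mul_ne_zero ?_ hc0
      rw [hd]
      exact mul_ne_zero (sub_ne_zero.2 hc) hs
    · rintro ⟨i, j⟩ hij hne
      rw [Finset.HasAntidiagonal.mem_antidiagonal] at hij
      simp only at hij
      have : i < s := by
        rcases Nat.lt_or_ge i s with h1 | h1
        · exact h1
        · exfalso
          apply hne
          have : i = s := by omega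
          have : j = 0 := by omega
          simp [*]
      rw [hd0 i this, zero_mul]
    · intro h1
      exact absurd (Finset.HasAntidiagonal.mem_antidiagonal.2 (by simp)) h1
  · intro n hn
    rw [PowerSeries.coeff_mul]
    refine Finset.sum_eq_zero fun x hx => ?_
    have := Finset.HasAntidiagonal.mem_antidiagonal.1 hx
    rw [hd0 x.1 (by omega), zero_mul]

variable {p : ℕ} [hp : Fact p.Prime] {R : Type} [CommRing R]

lemma norm_ev_sub (ι : R →+* ℤ_[p]) (t : Polynomial R) (s : ℤ_[p]) :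
    ‖t.eval₂ ι s - ι (t.coeff 0)‖ ≤ ‖s‖ := by
  have h := norm_ev_le ι (m := 1) (w := t - Polynomial.C (t.coeff 0)) (by
    intro n hn
    have : n = 0 := by omega
    subst this
    simp) s
  rw [Polynomial.eval₂_sub, Polynomial.eval₂_C, pow_one] at h
  exact h

lemma dvd_of_norm {x s : ℤ_[p]} (hs : ‖s‖ < 1) (h : ‖x‖ ≤ ‖s‖) : (p : ℤ_[p]) ∣ x :=
  (PadicInt.norm_lt_one_iff_dvd x).1 (lt_of_le_of_lt h hs)

/-- **Shadowing.** -/
theorem shadow {k : Type} [Field k] {A0 : Type} [CommRing A0] [Algebra A0 k] [Algebra A0 ℤ_[p]]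
    [Algebra A0 R] {N : ℕ} {T : Fin N → PowerSeries k} {q : MvPolynomial (Fin N) A0}
    {Φ : Fin N → MvPolynomial (Fin N) A0} (ρ : R →ₐ[A0] k) (ι : R →ₐ[A0] ℤ_[p])
    (t : Fin N → Polynomial R) {lamR lamI : R} (hlam : lamR * lamI = 1)
    (hΦ : ∀ i, MvPolynomial.aeval T q * PowerSeries.rescale (ρ lamR) (T i) =
      MvPolynomial.aeval T (Φ i)) (hρ : Function.Injective ρ)
    {m m' : ℕ} (hm : 1 ≤ m) (hmm : m ≤ m') (ht : ∀ i, Near ρ.toRingHom m' (T i) (t i))
    {v0 : ℤ_[p]} (hv0 : MvPolynomial.aeval (fun i => ι ((t i).coeff 0)) q * v0 = 1)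
    {s0 : ℤ_[p]} (hs0 : ‖s0‖ < 1)
    (x0 : Fin N → ℤ_[p]) (hx0 : ∀ i, ‖x0 i - (t i).eval₂ ι.toRingHom s0‖ ≤ ‖s0‖ ^ m)
    (hrel : ∀ Q : MvPolynomial (Fin N) A0, MvPolynomial.aeval T Q = 0 →
      MvPolynomial.aeval x0 Q = 0) :
    ∃ (x : ℕ → Fin N → ℤ_[p]) (v : ℕ → ℤ_[p]), x 0 = x0 ∧
      (∀ n, MvPolynomial.aeval (x n) q * v n = 1) ∧
      (∀ n i, MvPolynomial.aeval (x n) q * x (n + 1) i = MvPolynomial.aeval (x n) (Φ i)) ∧
      (∀ n i, ‖x n i - (t i).eval₂ ι.toRingHom (ι lamR ^ n * s0)‖ ≤ ‖s0‖ ^ m) ∧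
      (∀ n i, (p : ℤ_[p]) ∣ x n i - ι ((t i).coeff 0)) ∧
      ∀ n, ∀ Q : MvPolynomial (Fin N) A0, MvPolynomial.aeval T Q = 0 →
        MvPolynomial.aeval (x n) Q = 0 := by
  classical
  have hlam1 : ‖ι lamR‖ = 1 := by
    have h1 : ι lamR * ι lamI = 1 := by rw [← map_mul, hlam, map_one]
    exact PadicInt.isUnit_iff.1 (IsUnit.of_mul_eq_one _ h1)
  have hnorm : ∀ n : ℕ, ‖ι lamR ^ n * s0‖ = ‖s0‖ := by
    intro n
    rw [norm_mul, norm_pow, hlam1, one_pow, one_mul]
  set a : Fin N → ℤ_[p] := fun i => ι ((t i).coeff 0) with ha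
  have hqa : ‖MvPolynomial.aeval a q‖ = 1 :=
    PadicInt.isUnit_iff.1 (IsUnit.of_mul_eq_one _ hv0)
  have hsm : ‖s0‖ ^ m ≤ ‖s0‖ := by
    calc ‖s0‖ ^ m ≤ ‖s0‖ ^ 1 := pow_le_pow_of_le_one (norm_nonneg _) hs0.le hm
      _ = ‖s0‖ := pow_one _
  -- units
  have hunit : ∀ (y : Fin N → ℤ_[p]) (n : ℕ),
      (∀ i, ‖y i - (t i).eval₂ ι.toRingHom (ι lamR ^ n * s0)‖ ≤ ‖s0‖ ^ m) →
      (∀ i, ‖y i - a i‖ ≤ ‖s0‖) ∧ ‖MvPolynomial.aeval y q‖ = 1 := by
    intro y n hy
    have h1 : ∀ i, ‖y i - a i‖ ≤ ‖s0‖ := by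
      intro i
      have e : y i - a i = (y i - (t i).eval₂ ι.toRingHom (ι lamR ^ n * s0)) +
        ((t i).eval₂ ι.toRingHom (ι lamR ^ n * s0) - a i) := by ring
      rw [e]
      refine norm_add_le' ((hy i).trans hsm) ?_
      have := norm_ev_sub ι.toRingHom (t i) (ι lamR ^ n * s0)
      rw [hnorm] at this
      exact this
    refine ⟨h1, ?_⟩
    have h2 := lip (A0 := A0) (norm_nonneg s0) h1 q
    have e : MvPolynomial.aeval y q = (MvPolynomial.aeval y q - MvPolynomial.aeval a q) +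
      MvPolynomial.aeval a q := by ring
    have h3 : ‖MvPolynomial.aeval y q - MvPolynomial.aeval a q‖ < ‖MvPolynomial.aeval a q‖ := by
      rw [hqa]; exact lt_of_le_of_lt h2 hs0
    rw [e, PadicInt.norm_add_eq_max_of_ne h3.ne, max_eq_right h3.le, hqa]
  -- the orbit
  let x : ℕ → Fin N → ℤ_[p] := fun n => Nat.rec x0 (fun _ y => fun i =>
    MvPolynomial.aeval y (Φ i) * Ring.inverse (MvPolynomial.aeval y q)) n
  have hxs : ∀ n i, x (n + 1) i = MvPolynomial.aeval (x n) (Φ i) *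
    Ring.inverse (MvPolynomial.aeval (x n) q) := fun n i => rfl
  have hstep : ∀ n, (∀ i, ‖x n i - (t i).eval₂ ι.toRingHom (ι lamR ^ n * s0)‖ ≤ ‖s0‖ ^ m) →
      MvPolynomial.aeval (x n) q * Ring.inverse (MvPolynomial.aeval (x n) q) = 1 := by
    intro n hn
    exact Ring.mul_inverse_cancel _ (PadicInt.isUnit_iff.2 (hunit _ n hn).2)
  have hstep2 : ∀ n, (∀ i, ‖x n i - (t i).eval₂ ι.toRingHom (ι lamR ^ n * s0)‖ ≤ ‖s0‖ ^ m) →
      ∀ i, MvPolynomial.aeval (x n) q * x (n + 1) i = MvPolynomial.aeval (x n) (Φ i) := by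
    intro n hn i
    rw [hxs]
    have := hstep n hn
    linear_combination (MvPolynomial.aeval (x n) (Φ i)) * this
  have hclose : ∀ n i, ‖x n i - (t i).eval₂ ι.toRingHom (ι lamR ^ n * s0)‖ ≤ ‖s0‖ ^ m := by
    intro n
    induction n with
    | zero => intro i; rw [pow_zero, one_mul]; exact hx0 i
    | succ n ih =>
      intro i
      set b : Fin N → ℤ_[p] := fun i => (t i).eval₂ ι.toRingHom (ι lamR ^ n * s0) with hb
      set b' : ℤ_[p] := (t i).eval₂ ι.toRingHom (ι lamR ^ (n + 1) * s0) with hb'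
      -- the relation
      have hE : Near ρ.toRingHom m' 0 (MvPolynomial.aeval t q *
          (t i).comp (Polynomial.C lamR * Polynomial.X) - MvPolynomial.aeval t (Φ i)) := by
        have h1 := ((Near.aeval ρ ht q).mul ((ht i).rescale lamR)).sub (Near.aeval ρ ht (Φ i))
        have h2 : MvPolynomial.aeval T q * PowerSeries.rescale (ρ.toRingHom lamR) (T i) -
          MvPolynomial.aeval T (Φ i) = 0 := sub_eq_zero.2 (hΦ i)
        rwa [h2] at h1
      have hE0 : ∀ n < m', (MvPolynomial.aeval t q *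
          (t i).comp (Polynomial.C lamR * Polynomial.X) - MvPolynomial.aeval t (Φ i) :
          Polynomial R).coeff n = 0 := by
        intro n hn
        have h1 := hE n hn
        rw [map_zero] at h1
        exact (map_eq_zero_iff _ (show Function.Injective ρ.toRingHom from hρ)).1 h1.symm
      have h1 := norm_ev_le ι.toRingHom hE0 (ι lamR ^ n * s0)
      rw [Polynomial.eval₂_sub, Polynomial.eval₂_mul, comp_ev, aeval_ev, aeval_ev, hnorm] at h1
      have e1 : ι.toRingHom lamR * (ι lamR ^ n * s0) = ι lamR ^ (n + 1) * s0 := by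
        change ι lamR * (ι lamR ^ n * s0) = _
        ring
      rw [e1] at h1
      have h2 : ‖MvPolynomial.aeval b q * b' - MvPolynomial.aeval b (Φ i)‖ ≤ ‖s0‖ ^ m :=
        h1.trans (pow_le_pow_of_le_one (norm_nonneg _) hs0.le hmm)
      have h3 := lip (A0 := A0) (by positivity) ih q
      have h4 := lip (A0 := A0) (by positivity) ih (Φ i)
      have h5 := hstep2 n ih i
      have h6 : MvPolynomial.aeval (x n) q * (x (n + 1) i - b') =
          (MvPolynomial.aeval (x n) (Φ i) - MvPolynomial.aeval b (Φ i)) -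
          (MvPolynomial.aeval b q * b' - MvPolynomial.aeval b (Φ i)) -
          (MvPolynomial.aeval (x n) q - MvPolynomial.aeval b q) * b' := by
        rw [mul_sub, h5]; ring
      have h7 : ‖MvPolynomial.aeval (x n) q * (x (n + 1) i - b')‖ ≤ ‖s0‖ ^ m := by
        rw [h6]
        exact norm_sub_le' (norm_sub_le' h4 h2) (norm_mul_le_left' _ h3)
      rwa [norm_mul, (hunit _ n ih).2, one_mul] at h7
  have hrel' : ∀ n, ∀ Q : MvPolynomial (Fin N) A0, MvPolynomial.aeval T Q = 0 →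
      MvPolynomial.aeval (x n) Q = 0 := by
    intro n
    induction n with
    | zero => exact hrel
    | succ n ih =>
      intro Q hQ
      obtain ⟨d, Q', hQ'⟩ := homog q Φ Q
      have h1 := hQ' (PowerSeries k) T (fun i => PowerSeries.rescale (ρ lamR) (T i)) hΦ
      rw [rescale_aeval, hQ, map_zero, mul_zero] at h1
      have h2 := ih Q' h1.symm
      have h3 := hQ' ℤ_[p] (x n) (x (n + 1)) (hstep2 n (hclose n))
      rw [h2] at h3
      have h4 : IsUnit (MvPolynomial.aeval (x n) q ^ d) :=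
        (PadicInt.isUnit_iff.2 (hunit _ n (hclose n)).2).pow d
      exact (h4.mul_right_eq_zero).1 h3
  refine ⟨x, fun n => Ring.inverse (MvPolynomial.aeval (x n) q), rfl, fun n => hstep n (hclose n),
    fun n => hstep2 n (hclose n), hclose, fun n i => ?_, hrel'⟩
  exact dvd_of_norm hs0 ((hunit _ n (hclose n)).1 i)

end Pool.Agent.K1H69.DC
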