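import Pool.Agent.K1H69.DC.Disc
import Pool.Agent.K1H69.DC.Ext
import Pool.Agent.K1H69.DC.Defs2

/-!
Rational dynamics and rational points of proper schemes.
-/

set_option autoImplicit false

open AlgebraicGeometry CategoryTheory IsDedekindDomain
open scoped NumberField

namespace Pool.Agent.K1H69.DC

open PowerSeries Topology

/-- Only finitely many points with values in `L` do not lie on `V'`. -/
def RationalFinite {K : Type} [Field K] [NumberField K] {V V' : Scheme.{0}}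
    (sV : V ⟶ Spec (CommRingCat.of (𝓞 K))) (i : V' ⟶ V) : Prop :=
  ∀ (L : Type) [Field L] [NumberField L] [Algebra K L],
    {P : Spec (CommRingCat.of L) ⟶ V |
      P ≫ sV = Spec.map (CommRingCat.ofHom (algebraMap (𝓞 K) L)) ∧
        ¬ ∃ Q : Spec (CommRingCat.of L) ⟶ V', Q ≫ i = P}.Finite

/-- The points of a proper scheme with values in a number field are integral. -/
theorem rational_of_integral {K : Type} [Field K] [NumberField K] {V V' : Scheme.{0}}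
    (sV : V ⟶ Spec (CommRingCat.of (𝓞 K))) [IsProper sV] (i : V' ⟶ V)
    (h : IntegralFinite sV i) : RationalFinite sV i := by
  intro L _ _ _
  have hsep : V.IsSeparated := by
    constructor
    rw [show Limits.terminal.from V = sV ≫ Limits.terminal.from _ from
      Limits.terminal.hom_ext _ _]
    infer_instance
  have h1 := h L ∅ Set.finite_empty
  let ε : Spec (CommRingCat.of L) ⟶
      Spec (CommRingCat.of ((∅ : Set (HeightOneSpectrum (𝓞 L))).integer L)) :=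
    Spec.map (CommRingCat.ofHom (algebraMap _ L))
  refine (h1.image (fun R => ε ≫ R)).subset ?_
  rintro P ⟨hP, hP'⟩
  let A : Subalgebra (𝓞 L) L := (∅ : Set (HeightOneSpectrum (𝓞 L))).integer L
  let t : Spec (CommRingCat.of (𝓞 L)) ⟶ Spec (CommRingCat.of (𝓞 K)) :=
    Spec.map (CommRingCat.ofHom (algebraMap (𝓞 K) (𝓞 L)))
  have ht : P ≫ sV = Spec.map (CommRingCat.ofHom (algebraMap (𝓞 L) L)) ≫ t := by
    rw [hP, ← Spec.map_comp]
    rfl
  obtain ⟨P', hP'1⟩ := extend_point (𝓞 L) L sV t P ht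
  let R : Spec (CommRingCat.of A) ⟶ V :=
    Spec.map (CommRingCat.ofHom (algebraMap (𝓞 L) A)) ≫ P'
  have hR : ε ≫ R = P := by
    change Spec.map (CommRingCat.ofHom (algebraMap A L)) ≫
      Spec.map (CommRingCat.ofHom (algebraMap (𝓞 L) A)) ≫ P' = P
    rw [← Category.assoc, ← Spec.map_comp]
    exact hP'1
  refine ⟨R, ⟨?_, ?_⟩, hR⟩
  · have h2 : ε ≫ R ≫ sV = ε ≫ Spec.map (CommRingCat.ofHom (algebraMap (𝓞 K) A)) := by
      rw [← Category.assoc, hR, hP]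
      change _ = Spec.map (CommRingCat.ofHom (algebraMap A L)) ≫ _
      rw [← Spec.map_comp]
      rfl
    let u : CommRingCat.of (𝓞 K) ⟶ CommRingCat.of A := Spec.preimage (R ≫ sV)
    have hu : Spec.map u = R ≫ sV := Spec.map_preimage _
    rw [← hu] at h2 ⊢
    have h3 : Spec.map (u ≫ CommRingCat.ofHom (algebraMap A L)) =
        Spec.map (CommRingCat.ofHom (algebraMap (𝓞 K) A) ≫ CommRingCat.ofHom (algebraMap A L)) := by
      rw [Spec.map_comp, Spec.map_comp]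
      exact h2
    have h4 := Spec.map_injective h3
    congr 1
    ext c
    exact congrArg (fun F => F.hom c) h4
  · rintro ⟨Q, hQ⟩
    apply hP'
    refine ⟨ε ≫ Q, ?_⟩
    rw [Category.assoc, hQ, hR]

theorem rational_formal {K : Type} [Field K] [NumberField K] (σ : K →+* ℂ)
    {U Y V V' : Scheme.{0}} (sY : Y ⟶ Spec (CommRingCat.of (𝓞 K))) [LocallyOfFiniteType sY]
    (sV : V ⟶ Spec (CommRingCat.of (𝓞 K))) (ι φ : U ⟶ Y) [IsOpenImmersion ι]
    (hφ : φ ≫ sY = ι ≫ sY) (π : U ⟶ V) (hπ : π ≫ sV = ι ≫ sY) (i : V' ⟶ V)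
    [IsClosedImmersion i] (hfin : RationalFinite sV i)
    (g : Spec CP ⟶ U) (hg : g ≫ ι ≫ sY = Spec.map (strC σ ≫ cst)) {lam : ℂ} (hlam0 : lam ≠ 0)
    (hroot : ∀ k : ℕ, 0 < k → lam ^ k ≠ 1) (hsym : Spec.map (resc lam) ≫ g ≫ ι = g ≫ φ) :
    (∃ Q, Q ≫ i = g ≫ π) ∨ g ≫ π = Spec.map (ccf ≫ cst) ≫ g ≫ π := by
  by_contra hcon
  push Not at hcon
  obtain ⟨h1, h2⟩ := hcon
  obtain ⟨L, i1, i2, i3, B, j, β, χ, hft, hβ, hχβ, hnext, hinf, hV'⟩ := orbit_formal σ (ι ≫ sY) sY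
    ι φ rfl hφ π i g hg hlam0 hroot hsym (by push Not; exact h1) h2
  apply hinf
  refine (hfin L).subset ?_
  rintro _ ⟨n, rfl⟩
  refine ⟨?_, hV' n⟩
  change (Spec.map (χ n) ≫ j ≫ π) ≫ sV = _
  rw [Category.assoc, Category.assoc, hπ, hβ, ← Spec.map_comp, hχβ]

theorem rational_gen {K : Type} [Field K] [NumberField K] (σ : K →+* ℂ)
    {U Y V V' : Scheme.{0}} (sY : Y ⟶ Spec (CommRingCat.of (𝓞 K))) [LocallyOfFiniteType sY]
    (sV : V ⟶ Spec (CommRingCat.of (𝓞 K))) (ι φ : U ⟶ Y) [IsOpenImmersion ι]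
    (hφ : φ ≫ sY = ι ≫ sY) (π : U ⟶ V) (hπ : π ≫ sV = ι ≫ sY) (i : V' ⟶ V)
    [IsClosedImmersion i] (hfin : RationalFinite sV i)
    (g : Spec CP ⟶ U) (hg : g ≫ ι ≫ sY = Spec.map (strC σ ≫ cst)) (a : PowerSeries ℂ)
    (ha : constantCoeff a = 0) (hlam0 : coeff 1 a ≠ 0)
    (hroot : ∀ k : ℕ, 0 < k → (coeff 1 a) ^ k ≠ 1)
    (hsym : Spec.map (sb a ha) ≫ g ≫ ι = g ≫ φ) :
    (∃ Q, Q ≫ i = g ≫ π) ∨ g ≫ π = Spec.map (ccf ≫ cst) ≫ g ≫ π := by
  obtain ⟨η, ζ, hη, hζ, h1, h2⟩ := linearise a ha hlam0 hroot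
  have h3 := rational_formal σ sY sV ι φ hφ π hπ i hfin (Spec.map (sb η hη) ≫ g)
    (by rw [Category.assoc, hg, ← Spec.map_comp, Category.assoc, cst_sb]) hlam0 hroot
    (by rw [Category.assoc, ← Category.assoc, ← Spec.map_comp, h2, Spec.map_comp, Category.assoc,
          hsym, Category.assoc])
  have h4 : Spec.map (sb ζ hζ) ≫ Spec.map (sb η hη) ≫ g = g := by
    rw [← Category.assoc, ← Spec.map_comp, h1, Spec.map_id, Category.id_comp]
  rcases h3 with ⟨Q, hQ⟩ | h3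
  · left
    refine ⟨Spec.map (sb ζ hζ) ≫ Q, ?_⟩
    rw [Category.assoc, hQ, ← Category.assoc, h4]
  · right
    have h5 : Spec.map (sb ζ hζ) ≫ (Spec.map (sb η hη) ≫ g) ≫ π =
        Spec.map (sb ζ hζ) ≫ Spec.map (ccf ≫ cst) ≫ (Spec.map (sb η hη) ≫ g) ≫ π := by
      rw [← h3]
    rw [← Category.assoc, h4, ← Category.assoc, ← Spec.map_comp, Category.assoc, cst_sb,
      Category.assoc, ← Category.assoc _ _ (g ≫ π), ← Spec.map_comp,
      ← Category.assoc (sb η hη) ccf cst, sb_ccf] at h5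
    exact h5

/-- The symmetry. -/
lemma tayHom_sym' {U Y : Scheme.{0}} {B : CommRingCat.{0}} (j : Spec B ⟶ U) [IsOpenImmersion j]
    (ev : ℂ → (B ⟶ CommRingCat.of ℂ)) {r : ℝ} (hr : 0 < r)
    (hev : ∀ b : B, DifferentiableOn ℂ (fun z => ((ev z).hom b : ℂ)) (Metric.ball 0 r))
    (ι φ : U ⟶ Y) [IsOpenImmersion ι] {a : ℂ → ℂ} (ha : AnalyticAt ℂ a 0) (ha0 : a 0 = 0)
    (hs : ∀ᶠ z in 𝓝 (0 : ℂ), Spec.map (ev (a z)) ≫ j ≫ ι = Spec.map (ev z) ≫ j ≫ φ)
    (hc : constantCoeff (tay a) = 0) :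
    Spec.map (sb (tay a) hc) ≫ (Spec.map (tayHom ev hr hev) ≫ j) ≫ ι =
      (Spec.map (tayHom ev hr hev) ≫ j) ≫ φ := by
  have h0 : Spec.map (ev 0) ≫ j ≫ φ = Spec.map (ev 0) ≫ j ≫ ι := by
    have := hs.self_of_nhds
    rw [ha0] at this
    exact this.symm
  obtain ⟨w, χ, hw, hχ⟩ := chart_lift (j ≫ φ) (j ≫ ι) (ev 0)
    (range_of_factor (j ≫ φ) (j ≫ ι) (ev 0) (ev 0) h0)
  obtain ⟨ev', r', hr', hrr, hne, hev1, hev2, hev'⟩ := hol_chart hχ hr hev hw
  have hu := isUnit_tay ev hr hev hw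
  rw [Category.assoc, Category.assoc, spec_chart hχ (tayHom ev hr hev) hu,
    tayHom_chart hr hev hr' hne hev1 hev' hu, ← Category.assoc, ← Spec.map_comp]
  congr 2
  ext1
  ext1 b
  change (sb (tay a) hc).hom (tay fun z => ((ev z).hom b : ℂ)) = tay fun z => ((ev' z).hom b : ℂ)
  rw [sb_apply, ← tay_comp (analyticAt_of hr (hev b)) ha ha0]
  apply tay_congr
  filter_upwards [hs, Metric.ball_mem_nhds (0 : ℂ) hr'] with z hz hz'
  rw [hev2 z hz'] at hz
  have h1 := Spec.map_injective ((cancel_mono (j ≫ ι)).1 hz)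
  rw [h1]

/-- The theorem at the point `0`. -/
theorem rlocal_zero {K : Type} [Field K] [NumberField K] (σ : K →+* ℂ)
    {U Y V V' : Scheme.{0}} (sY : Y ⟶ Spec (CommRingCat.of (𝓞 K))) [LocallyOfFiniteType sY]
    (sV : V ⟶ Spec (CommRingCat.of (𝓞 K)))
    (ι φ : U ⟶ Y) [IsOpenImmersion ι] (hφ : φ ≫ sY = ι ≫ sY) (π : U ⟶ V)
    (hπ : π ≫ sV = ι ≫ sY) (i : V' ⟶ V) [IsClosedImmersion i] (hfin : RationalFinite sV i)
    (f : ℂ → (Spec (CommRingCat.of ℂ) ⟶ V))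
    (g : ℂ → (Spec (CommRingCat.of ℂ) ⟶ U)) (hg : HolAt g 0)
    (hgs : ∀ᶠ z in 𝓝 (0 : ℂ), g z ≫ ι ≫ sY = Spec.map (strC σ))
    (hfg : ∀ᶠ z in 𝓝 (0 : ℂ), f z = g z ≫ π)
    (a : ℂ → ℂ) (ha : AnalyticAt ℂ a 0) (ha0 : a 0 = 0) (ha1 : deriv a 0 ≠ 0)
    (hroot : ∀ k : ℕ, 0 < k → (deriv a 0) ^ k ≠ 1)
    (hsym : ∀ᶠ z in 𝓝 (0 : ℂ), g (a z) ≫ ι = g z ≫ φ) :
    (∀ᶠ z in 𝓝 (0 : ℂ), ∃ Q, Q ≫ i = f z) ∨ ∀ᶠ z in 𝓝 (0 : ℂ), f z = f 0 := by
  obtain ⟨B, j, ev, r, hj, hr, hgz, hev⟩ := hg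
  have hnhds := Metric.ball_mem_nhds (0 : ℂ) hr
  have hgev : ∀ᶠ z in 𝓝 (0 : ℂ), g z = Spec.map (ev z) ≫ j := by
    filter_upwards [hnhds] with z hz
    exact hgz z hz
  have hcont : Filter.Tendsto a (𝓝 0) (𝓝 0) := by
    have := ha.continuousAt
    rw [ContinuousAt, ha0] at this
    exact this
  have hgeva : ∀ᶠ z in 𝓝 (0 : ℂ), g (a z) = Spec.map (ev (a z)) ≫ j := hcont.eventually hgev
  have hc : constantCoeff (tay a) = 0 := by rw [tay_zero, ha0]
  have h1 := tayHom_str σ (ι ≫ sY) j ev hr hev (by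
    filter_upwards [hgs, hgev] with z h1 h2
    rw [h2, Category.assoc] at h1
    exact h1)
  have h2 := tayHom_sym' j ev hr hev ι φ ha ha0 (by
    filter_upwards [hsym, hgev, hgeva] with z h1 h2 h3
    rw [h2, h3, Category.assoc, Category.assoc] at h1
    exact h1) hc
  have h3 := rational_gen σ sY sV ι φ hφ π hπ i hfin (Spec.map (tayHom ev hr hev) ≫ j) h1 (tay a)
    hc (by rw [tay_one]; exact ha1) (by rw [tay_one]; exact hroot) h2
  have hfev : ∀ᶠ z in 𝓝 (0 : ℂ), f z = Spec.map (ev z) ≫ j ≫ π := by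
    filter_upwards [hfg, hgev] with z h4 h5
    rw [h4, h5, Category.assoc]
  rcases h3 with h3 | h3
  · left
    filter_upwards [closed_of_formal j ev hr hev π i h3, hfev] with z h4 h5
    rw [h5]
    exact h4
  · right
    filter_upwards [const_of_formal j ev hr hev π h3, hfev] with z h4 h5
    rw [h5, h4, ← hfev.self_of_nhds]

/-- **The local theorem.** -/
theorem rlocal_thm {K : Type} [Field K] [NumberField K] (σ : K →+* ℂ)
    {V V' : Scheme.{0}} (sV : V ⟶ Spec (CommRingCat.of (𝓞 K))) (i : V' ⟶ V)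
    [IsClosedImmersion i] (hfin : RationalFinite sV i)
    (f : ℂ → (Spec (CommRingCat.of ℂ) ⟶ V)) (z0 : ℂ) (hdyn : RatDynAt σ sV f z0) :
    (∀ᶠ z in 𝓝 z0, ∃ Q, Q ≫ i = f z) ∨ ∀ᶠ z in 𝓝 z0, f z = f z0 := by
  obtain ⟨U, Y, sY, ι, φ, π, g, a, hsY, hι, hφ, hπ, hg, hgs, ha, ha0, ha1, hroot, hsym, hfg⟩ :=
    hdyn
  have hlim : Filter.Tendsto (fun z : ℂ => z0 + z) (𝓝 0) (𝓝 z0) := by
    have : Filter.Tendsto (fun z : ℂ => z0 + z) (𝓝 0) (𝓝 (z0 + 0)) :=
      (continuous_const.add continuous_id).tendsto 0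
    rwa [add_zero] at this
  have hlim' : Filter.Tendsto (fun z : ℂ => z - z0) (𝓝 z0) (𝓝 0) := by
    have : Filter.Tendsto (fun z : ℂ => z - z0) (𝓝 z0) (𝓝 (z0 - z0)) :=
      (continuous_id.sub continuous_const).tendsto z0
    rwa [sub_self] at this
  have hd : deriv (fun z : ℂ => a (z0 + z) - z0) 0 = deriv a z0 := by
    rw [deriv_sub_const, deriv_comp_const_add, add_zero]
  have han : AnalyticAt ℂ (fun z : ℂ => a (z0 + z) - z0) 0 := by
    have h1 : AnalyticAt ℂ (fun z : ℂ => z0 + z) 0 := analyticAt_const.add analyticAt_id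
    have h2 : AnalyticAt ℂ a (z0 + 0) := by rw [add_zero]; exact ha
    exact (AnalyticAt.comp (f := fun z : ℂ => z0 + z) (x := 0) h2 h1).sub analyticAt_const
  have h := rlocal_zero σ sY sV ι φ hφ π hπ i hfin (fun z => f (z0 + z))
    (fun z => g (z0 + z))
    (HolAt.translate (z1 := 0) (by rw [add_zero]; exact hg)) (hlim.eventually hgs)
    (hlim.eventually hfg) (fun z => a (z0 + z) - z0) han (by simp [ha0])
    (by rw [hd]; exact ha1) (by rw [hd]; exact hroot) (by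
      filter_upwards [hlim.eventually hsym] with z hz
      rw [← hz]
      congr 2
      ring)
  rcases h with h | h
  · left
    filter_upwards [hlim'.eventually h] with z hz
    simp only [add_sub_cancel] at hz
    exact hz
  · right
    filter_upwards [hlim'.eventually h] with z hz
    simp only [add_sub_cancel, add_zero] at hz
    exact hz

theorem ratDynPoint_closed {K : Type} [Field K] [NumberField K] (σ : K →+* ℂ)
    {V V' : Scheme.{0}} (sV : V ⟶ Spec (CommRingCat.of (𝓞 K))) (i : V' ⟶ V)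
    [IsClosedImmersion i] (hfin : RationalFinite sV i) {v : Spec (CommRingCat.of ℂ) ⟶ V}
    (hv : RatDynPoint σ sV v) : ∃ Q, Q ≫ i = v := by
  obtain ⟨Ω, h, -, hc, hh, ⟨z1, hz1, rfl⟩, ⟨z2, hz2, z3, hz3, hne⟩, z0, hz0, hdyn⟩ := hv
  rcases rlocal_thm σ sV i hfin h z0 hdyn with h1 | h1
  · exact closed_on i hc hh hz0 h1 z1 hz1
  · have h2 := const_on hc hh hz0 h1
    exact absurd ((h2 z2 hz2).trans (h2 z3 hz3).symm) hne

/-- **Entire curves through rationally dynamical points.** -/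
theorem entire_rdyn {K : Type} [Field K] [NumberField K] (σ : K →+* ℂ)
    {V V' : Scheme.{0}} (sV : V ⟶ Spec (CommRingCat.of (𝓞 K))) (i : V' ⟶ V)
    [IsClosedImmersion i] (hfin : RationalFinite sV i)
    (f : ℂ → (Spec (CommRingCat.of ℂ) ⟶ V)) (hf : ∀ z, HolAt f z)
    (hdyn : ∃ z1, ∃ᶠ z in 𝓝[≠] z1, RatDynPoint σ sV (f z)) : ∀ z, ∃ Q, Q ≫ i = f z := by
  obtain ⟨z1, hz1⟩ := hdyn
  have h1 := closed_of_frequently i (hf z1)
    (hz1.mono fun z hz => ratDynPoint_closed σ sV i hfin hz)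
  intro z
  exact closed_on i isPreconnected_univ (fun z _ => hf z) (Set.mem_univ z1) h1 z (Set.mem_univ z)

end Pool.Agent.K1H69.DC
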