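import Pool.Agent.K1H69.DC.Seq

/-!
Orbits of rational self-maps of a residue polydisc: all regular functions along an orbit, at the
times in an arithmetic progression with a fixed difference, satisfy the condition of
`eventually_const`.  The map need not be étale.
-/

set_option autoImplicit false

namespace Pool.Agent.K1H69.DC

open Finset MvPolynomial

section taylor

variable {A0 C : Type} [CommRing A0] [CommRing C] [Algebra A0 C] {I : Type} [Fintype I]
  [DecidableEq I]

/-- Taylor expansion with the remainder in a subring. -/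
lemma taylor (R : Subring C) (hA : ∀ c : A0, algebraMap A0 C c ∈ R) (a b : I → C) (t : C)
    (ha : ∀ i, a i ∈ R) (hb : ∀ i, b i ∈ R) (ht : t ∈ R) (P : MvPolynomial I A0) :
    ∃ r ∈ R, aeval (fun i => a i + t * b i) P =
      aeval a P + t * ∑ j, aeval a (pderiv j P) * b j + t ^ 2 * r := by
  have haR : ∀ P : MvPolynomial I A0, aeval a P ∈ R := by
    intro P
    induction P using MvPolynomial.induction_on with
    | C c => rw [aeval_C]; exact hA c
    | add P Q hP hQ => rw [map_add]; exact R.add_mem hP hQ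
    | mul_X P i hP => rw [map_mul, aeval_X]; exact R.mul_mem hP (ha i)
  induction P using MvPolynomial.induction_on with
  | C c => exact ⟨0, R.zero_mem, by simp⟩
  | add P Q hP hQ =>
    obtain ⟨r, hr, hP⟩ := hP
    obtain ⟨s, hs, hQ⟩ := hQ
    refine ⟨r + s, R.add_mem hr hs, ?_⟩
    rw [map_add, hP, hQ]
    simp only [map_add, add_mul, Finset.sum_add_distrib]
    ring
  | mul_X P i hP =>
    obtain ⟨r, hr, hP⟩ := hP
    refine ⟨(∑ j, aeval a (pderiv j P) * b j) * b i + r * a i + t * r * b i,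
      R.add_mem (R.add_mem (R.mul_mem (R.sum_mem fun j _ => R.mul_mem (haR _) (hb j)) (hb i))
        (R.mul_mem hr (ha i))) (R.mul_mem (R.mul_mem ht hr) (hb i)), ?_⟩
    have h1 : ∑ j, aeval a (pderiv j (P * X i)) * b j =
        (∑ j, aeval a (pderiv j P) * b j) * a i + aeval a P * b i := by
      have h2 : ∀ j, aeval a (pderiv j (P * X i)) * b j =
          aeval a (pderiv j P) * b j * a i + (if j = i then aeval a P * b i else 0) := by
        intro j
        rw [Derivation.leibniz, pderiv_X]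
        by_cases hj : j = i
        · subst hj
          simp
          ring
        · rw [Pi.single_eq_of_ne (Ne.symm hj)]
          simp [hj]
          ring
      rw [Finset.sum_congr rfl fun j _ => h2 j, Finset.sum_add_distrib, ← Finset.sum_mul]
      simp
    rw [map_mul, hP, aeval_X, h1, map_mul, aeval_X]
    ring

end taylor

variable {p : ℕ} [hp : Fact p.Prime]

/-- shift of sequences -/
noncomputable def sh (l : ℕ) : (ℕ → ℤ_[p]) →+* (ℕ → ℤ_[p]) :=
  RingHom.pi fun n => Pi.evalRingHom (fun _ => ℤ_[p]) (n + l)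

@[simp] lemma sh_apply (l n : ℕ) (x : ℕ → ℤ_[p]) : sh l x n = x (n + l) := rfl

lemma sh_sh (l k : ℕ) (x : ℕ → ℤ_[p]) : sh l (sh k x) = sh (l + k) x := by
  funext n
  simp only [sh_apply]
  congr 1
  ring

lemma sh_comm (l k : ℕ) (x : ℕ → ℤ_[p]) : sh l (sh k x) = sh k (sh l x) := by
  rw [sh_sh, sh_sh, add_comm]

variable {I : Type}

/-- generators -/
def gen (u : I → ℕ → ℤ_[p]) (v : ℕ → ℤ_[p]) : Set (ℕ → ℤ_[p]) :=
  {x | (∃ c : ℤ_[p], x = fun _ => c) ∨ (∃ i l, x = sh l (u i)) ∨ ∃ l, x = sh l v}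

/-- the ring generated by constants and the shifts of `u i`, `v` -/
noncomputable def CC (u : I → ℕ → ℤ_[p]) (v : ℕ → ℤ_[p]) : Subring (ℕ → ℤ_[p]) :=
  Subring.closure (gen u v)

lemma const_mem (u : I → ℕ → ℤ_[p]) (v : ℕ → ℤ_[p]) (c : ℤ_[p]) : (fun _ => c) ∈ CC u v :=
  Subring.subset_closure (Or.inl ⟨c, rfl⟩)

lemma u_mem (u : I → ℕ → ℤ_[p]) (v : ℕ → ℤ_[p]) (i : I) : u i ∈ CC u v :=
  Subring.subset_closure (Or.inr (Or.inl ⟨i, 0, rfl⟩))

lemma v_mem (u : I → ℕ → ℤ_[p]) (v : ℕ → ℤ_[p]) : v ∈ CC u v :=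
  Subring.subset_closure (Or.inr (Or.inr ⟨0, rfl⟩))

lemma sh_mem (u : I → ℕ → ℤ_[p]) (v : ℕ → ℤ_[p]) (l : ℕ) {x : ℕ → ℤ_[p]} (hx : x ∈ CC u v) :
    sh l x ∈ CC u v := by
  have : CC u v ≤ (CC u v).comap (sh l) := by
    refine Subring.closure_le.2 ?_
    rintro x (⟨c, rfl⟩ | ⟨i, k, rfl⟩ | ⟨k, rfl⟩)
    · exact const_mem u v c
    · exact Subring.subset_closure (Or.inr (Or.inl ⟨i, l + k, sh_sh _ _ _⟩))
    · exact Subring.subset_closure (Or.inr (Or.inr ⟨l + k, sh_sh _ _ _⟩))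
  exact this hx

/-- the sequences divisible by `p` in the ring -/
def PP (u : I → ℕ → ℤ_[p]) (v : ℕ → ℤ_[p]) (x : ℕ → ℤ_[p]) : Prop :=
  ∃ y ∈ CC u v, x = fun n => (p : ℤ_[p]) * y n

section

variable {u : I → ℕ → ℤ_[p]} {v : ℕ → ℤ_[p]}

lemma PP.add {x y : ℕ → ℤ_[p]} (hx : PP u v x) (hy : PP u v y) : PP u v (x + y) := by
  obtain ⟨a, ha, rfl⟩ := hx
  obtain ⟨b, hb, rfl⟩ := hy
  exact ⟨a + b, (CC u v).add_mem ha hb, by funext n; simp [mul_add]⟩

lemma PP.mul {x y : ℕ → ℤ_[p]} (hx : PP u v x) (hy : y ∈ CC u v) : PP u v (x * y) := by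
  obtain ⟨a, ha, rfl⟩ := hx
  exact ⟨a * y, (CC u v).mul_mem ha hy, by funext n; simp [mul_assoc]⟩

lemma PP.sh {x : ℕ → ℤ_[p]} (l : ℕ) (hx : PP u v x) : PP u v (sh l x) := by
  obtain ⟨a, ha, rfl⟩ := hx
  exact ⟨_, sh_mem u v l ha, by funext n; simp⟩

lemma PP.zero : PP u v 0 := ⟨0, (CC u v).zero_mem, by funext n; simp⟩

lemma PP.sum {J : Type} (s : Finset J) {f : J → ℕ → ℤ_[p]} (h : ∀ j ∈ s, PP u v (f j)) :
    PP u v (∑ j ∈ s, f j) := by
  classical
  induction s using Finset.induction_on with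
  | empty => simpa using PP.zero
  | insert j s hj ih =>
    rw [Finset.sum_insert hj]
    exact (h j (Finset.mem_insert_self _ _)).add (ih fun i hi => h i (Finset.mem_insert_of_mem hi))

/-- From the generators to the ring. -/
lemma dS_mem (k : ℕ) (hu : ∀ i, PP u v (DC.sh (2 * k) (u i) - DC.sh k (u i)))
    {w : ℕ → ℤ_[p]} {q0 : ℤ_[p]} (hw : w ∈ CC u v)
    (hv : (fun n => (q0 + p * w n) * v n) = 1) {x : ℕ → ℤ_[p]} (hx : x ∈ CC u v) :
    PP u v (DC.sh (2 * k) x - DC.sh k x) := by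
  unfold CC at hx
  induction hx using Subring.closure_induction with
  | mem x hx =>
    rcases hx with ⟨c, rfl⟩ | ⟨i, l, rfl⟩ | ⟨l, rfl⟩
    · refine ⟨0, (CC u v).zero_mem, ?_⟩
      funext n
      simp
    · rw [sh_comm, sh_comm k l, ← map_sub]
      exact (hu i).sh l
    · rw [sh_comm, sh_comm k l, ← map_sub]
      refine PP.sh l ?_
      have h1 : ∀ n, (q0 + p * w n) * v n = 1 := fun n => congrFun hv n
      refine ⟨(DC.sh k w - DC.sh (2 * k) w) * (DC.sh (2 * k) v * DC.sh k v), (CC u v).mul_mem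
        ((CC u v).sub_mem (sh_mem u v _ hw) (sh_mem u v _ hw))
        ((CC u v).mul_mem (sh_mem u v _ (v_mem u v)) (sh_mem u v _ (v_mem u v))), ?_⟩
      funext n
      simp only [Pi.sub_apply, Pi.mul_apply, sh_apply]
      have h2 := h1 (n + 2 * k)
      have h3 := h1 (n + k)
      linear_combination (v (n + k)) * h2 - (v (n + 2 * k)) * h3
  | zero => rw [map_zero, map_zero, sub_zero]; exact PP.zero
  | one => rw [map_one, map_one, sub_self]; exact PP.zero
  | add x y hx hy ihx ihy =>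
    rw [map_add, map_add, add_sub_add_comm]
    exact ihx.add ihy
  | neg x hx ih =>
    obtain ⟨y, hy, h⟩ := ih
    refine ⟨-y, (CC u v).neg_mem hy, ?_⟩
    rw [map_neg, map_neg]
    funext n
    have := congrFun h n
    simp only [Pi.sub_apply, Pi.neg_apply] at this ⊢
    linear_combination -this
  | mul x y hx hy ihx ihy =>
    have e : DC.sh (2 * k) (x * y) - DC.sh k (x * y) =
        (DC.sh (2 * k) x - DC.sh k x) * DC.sh (2 * k) y +
        (DC.sh (2 * k) y - DC.sh k y) * DC.sh k x := by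
      rw [map_mul, map_mul]; ring
    rw [e]
    exact (ihx.mul (sh_mem u v _ hy)).add (ihy.mul (sh_mem u v _ hx))

/-- The powers of `S ^ 2 - S`. -/
lemma dd_dvd (k : ℕ) (h : ∀ x ∈ CC u v, PP u v (DC.sh (2 * k) x - DC.sh k x)) (j : ℕ) :
    ∀ x ∈ CC u v, ∀ i n, (p : ℤ_[p]) ^ j ∣ dd^[j] (fun n => x (k * n + i)) n := by
  have key : ∀ j, ∀ x ∈ CC u v, ∃ y ∈ CC u v, ∀ i n, dd^[j] (fun n => x (k * n + i)) n =
      (p : ℤ_[p]) ^ j * y (k * n + i) := by
    intro j
    induction j with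
    | zero => exact fun x hx => ⟨x, hx, fun i n => by simp⟩
    | succ j ih =>
      intro x hx
      obtain ⟨y, hy, hxy⟩ := ih x hx
      obtain ⟨z, hz, hyz⟩ := h y hy
      refine ⟨z, hz, fun i n => ?_⟩
      rw [Function.iterate_succ_apply']
      simp only [dd, hxy]
      have := congrFun hyz (k * n + i)
      simp only [Pi.sub_apply, sh_apply] at this
      rw [show k * (n + 2) + i = k * n + i + 2 * k by ring,
        show k * (n + 1) + i = k * n + i + k by ring, pow_succ]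
      linear_combination (p : ℤ_[p]) ^ j * this
  intro x hx i n
  obtain ⟨y, _, h1⟩ := key j x hx
  exact ⟨_, h1 i n⟩

end

end Pool.Agent.K1H69.DC
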