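import Pool.Agent.K1H69.DC.Ring

/-!
Orbits of rational self-maps near a fixed point.
-/

set_option autoImplicit false

namespace Pool.Agent.K1H69.DC

open Finset MvPolynomial

variable {p : ℕ} [hp : Fact p.Prime]

lemma exists_pow_idem {M : Type} [Monoid M] [Finite M] (a : M) :
    ∃ k : ℕ, 0 < k ∧ a ^ (2 * k) = a ^ k := by
  obtain ⟨i, j, hne, h⟩ := Finite.exists_ne_map_eq_of_infinite (fun n : ℕ => a ^ (n + 1))
  wlog hlt : i < j generalizing i j with H
  · exact H j i hne.symm h.symm (lt_of_le_of_ne (not_lt.1 hlt) hne.symm)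
  have h1 : ∀ t, i + 1 ≤ t → ∀ s, a ^ (t + s * (j - i)) = a ^ t := by
    intro t ht s
    induction s with
    | zero => simp
    | succ s ih =>
      rw [← ih]
      have e1 : t + (s + 1) * (j - i) = (j + 1) + (t + s * (j - i) - (i + 1)) := by
        have : (s + 1) * (j - i) = s * (j - i) + (j - i) := by ring
        omega
      have e2 : t + s * (j - i) = (i + 1) + (t + s * (j - i) - (i + 1)) := by omega
      have h' : a ^ (i + 1) = a ^ (j + 1) := h
      rw [e1, pow_add, ← h', ← pow_add, ← e2]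
  refine ⟨(i + 1) * (j - i), Nat.mul_pos (by omega) (by omega), ?_⟩
  have := h1 ((i + 1) * (j - i)) (Nat.le_mul_of_pos_right _ (by omega)) (i + 1)
  rw [two_mul]
  exact this

lemma exists_pow_mod {I : Type} [Fintype I] [DecidableEq I] (A : Matrix I I ℤ_[p]) :
    ∃ k : ℕ, 0 < k ∧ ∀ i j, (p : ℤ_[p]) ∣ (A ^ (2 * k)) i j - (A ^ k) i j := by
  obtain ⟨k, hk, h⟩ := exists_pow_idem (A.map (PadicInt.toZMod (p := p)))
  refine ⟨k, hk, fun i j => ?_⟩
  have h1 : ∀ l, (A.map (PadicInt.toZMod (p := p))) ^ l = (A ^ l).map PadicInt.toZMod := by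
    intro l
    exact (map_pow (PadicInt.toZMod (p := p)).mapMatrix A l).symm
  rw [h1, h1] at h
  have h2 : PadicInt.toZMod ((A ^ (2 * k)) i j) = PadicInt.toZMod ((A ^ k) i j) := by
    have := congrFun (congrFun h i) j
    simpa using this
  have h3 : (A ^ (2 * k)) i j - (A ^ k) i j ∈ RingHom.ker (PadicInt.toZMod (p := p)) := by
    rw [RingHom.mem_ker, map_sub, h2, sub_self]
  rw [PadicInt.ker_toZMod, PadicInt.maximalIdeal_eq_span_p] at h3
  exact Ideal.mem_span_singleton.1 h3

variable {A0 : Type} [CommRing A0] [Algebra A0 ℤ_[p]] {I : Type} [Fintype I] [DecidableEq I]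

omit [Fintype I] [DecidableEq I] in
lemma aeval_seq (X : I → ℕ → ℤ_[p]) (P : MvPolynomial I A0) (n : ℕ) :
    (aeval X P : ℕ → ℤ_[p]) n = aeval (fun i => X i n) P := by
  have h := comp_aeval (R := A0) X (Pi.evalAlgHom A0 (fun _ : ℕ => ℤ_[p]) n)
  have h1 := congrArg (fun f => f P) h
  simpa using h1

/-- The linear part. -/
noncomputable def linA (q : MvPolynomial I A0) (Φ : I → MvPolynomial I A0) (a : I → ℤ_[p])
    (v0 : ℤ_[p]) : Matrix I I ℤ_[p] :=
  fun i j => v0 * (aeval a (pderiv j (Φ i)) - a i * aeval a (pderiv j q))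

omit [Fintype I] [DecidableEq I] in
lemma PP.neg {u : I → ℕ → ℤ_[p]} {v : ℕ → ℤ_[p]} {x : ℕ → ℤ_[p]} (hx : PP u v x) :
    PP u v (-x) := by
  obtain ⟨a, ha, rfl⟩ := hx
  exact ⟨-a, (CC u v).neg_mem ha, by funext n; simp⟩

omit [Fintype I] [DecidableEq I] in
lemma PP.sub {u : I → ℕ → ℤ_[p]} {v : ℕ → ℤ_[p]} {x y : ℕ → ℤ_[p]} (hx : PP u v x)
    (hy : PP u v y) : PP u v (x - y) := by
  rw [sub_eq_add_neg]; exact hx.add hy.neg

lemma step (q : MvPolynomial I A0) (Φ : I → MvPolynomial I A0) (a : I → ℤ_[p]) (v0 : ℤ_[p])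
    (hv0 : aeval a q * v0 = 1) (hfix : ∀ i, aeval a q * a i = aeval a (Φ i))
    (x : ℕ → I → ℤ_[p]) (v : ℕ → ℤ_[p]) (u : I → ℕ → ℤ_[p])
    (hu : ∀ n i, x n i = a i + p * u i n) (hv : ∀ n, aeval (x n) q * v n = 1)
    (hx : ∀ n i, aeval (x n) q * x (n + 1) i = aeval (x n) (Φ i)) :
    (∃ w ∈ CC u v, ∀ n, aeval (x n) q = aeval a q + p * w n) ∧
    ∀ i, PP u v (sh 1 (u i) - ∑ j, (fun _ => linA q Φ a v0 i j) * u j) := by
  have hp0 : (p : ℤ_[p]) ≠ 0 := by exact_mod_cast hp.out.ne_zero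
  have hA : ∀ c : A0, algebraMap A0 (ℕ → ℤ_[p]) c ∈ CC u v := fun c => const_mem u v _
  have ht : ∀ P : MvPolynomial I A0, ∃ r ∈ CC u v, ∀ n, aeval (x n) P =
      aeval a P + p * ∑ j, aeval a (pderiv j P) * u j n + p ^ 2 * r n := by
    intro P
    obtain ⟨r, hr, h⟩ := taylor (CC u v) hA (fun i _ => a i) u (fun _ => (p : ℤ_[p]))
      (fun i => const_mem u v _) (fun i => u_mem u v i) (const_mem u v _) P
    refine ⟨r, hr, fun n => ?_⟩
    have h1 := congrFun h n
    rw [aeval_seq] at h1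
    have e : (fun i => ((fun _ => a i) + (fun _ => (p : ℤ_[p])) * u i : ℕ → ℤ_[p]) n) = x n := by
      funext i
      simp [hu]
    rw [e] at h1
    rw [h1]
    simp only [Pi.add_apply, Pi.mul_apply, aeval_seq, Finset.sum_apply, Pi.pow_apply]
  obtain ⟨rq, hrq, hq⟩ := ht q
  choose rr hrr hΦ using fun i => ht (Φ i)
  constructor
  · refine ⟨∑ j, (fun _ => aeval a (pderiv j q)) * u j + (fun _ => (p : ℤ_[p])) * rq,
      (CC u v).add_mem ((CC u v).sum_mem fun j _ => (CC u v).mul_mem (const_mem u v _)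
        (u_mem u v j)) ((CC u v).mul_mem (const_mem u v _) hrq), fun n => ?_⟩
    rw [hq]
    simp only [Pi.add_apply, Pi.mul_apply, Finset.sum_apply]
    ring
  · intro i
    set Lq : ℕ → ℤ_[p] := ∑ j, (fun _ => aeval a (pderiv j q)) * u j with hLq
    set Li : ℕ → ℤ_[p] := ∑ j, (fun _ => aeval a (pderiv j (Φ i))) * u j with hLi
    have hLqm : Lq ∈ CC u v := (CC u v).sum_mem fun j _ => (CC u v).mul_mem (const_mem u v _)
        (u_mem u v j)
    have hLim : Li ∈ CC u v := (CC u v).sum_mem fun j _ => (CC u v).mul_mem (const_mem u v _)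
        (u_mem u v j)
    have hLq' : ∀ n, Lq n = ∑ j, aeval a (pderiv j q) * u j n := fun n => by
      simp [hLq]
    have hLi' : ∀ n, Li n = ∑ j, aeval a (pderiv j (Φ i)) * u j n := fun n => by
      simp [hLi]
    refine ⟨v * (rr i - (fun _ => a i) * rq) - (fun _ => v0) * v * (Lq + (fun _ => (p : ℤ_[p])) * rq)
      * (Li - (fun _ => a i) * Lq), ?_, ?_⟩
    · have hvm := v_mem u v
      exact (CC u v).sub_mem ((CC u v).mul_mem hvm ((CC u v).sub_mem (hrr i)
        ((CC u v).mul_mem (const_mem u v _) hrq))) ((CC u v).mul_mem ((CC u v).mul_mem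
        ((CC u v).mul_mem (const_mem u v _) hvm) ((CC u v).add_mem hLqm ((CC u v).mul_mem
        (const_mem u v _) hrq))) ((CC u v).sub_mem hLim ((CC u v).mul_mem (const_mem u v _) hLqm)))
    · funext n
      have h1 := hx n i
      have h2 := hq n
      have h3 := hΦ i n
      have h4 := hv n
      rw [← hLq'] at h2
      rw [← hLi'] at h3
      rw [h3, h2, hu (n + 1) i] at h1
      rw [h2] at h4
      have h5 : (aeval a q + p * Lq n + p ^ 2 * rq n) * u i (n + 1) =
          Li n - a i * Lq n + p * (rr i n - a i * rq n) := by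
        apply mul_left_cancel₀ hp0
        linear_combination h1 - hfix i
      have h6 : ∑ j, linA q Φ a v0 i j * u j n = v0 * (Li n - a i * Lq n) := by
        rw [hLi', hLq', Finset.mul_sum, ← Finset.sum_sub_distrib, Finset.mul_sum]
        refine Finset.sum_congr rfl fun j _ => ?_
        simp only [linA]
        ring
      simp only [Pi.sub_apply, Pi.mul_apply, Pi.add_apply, sh_apply, Finset.sum_apply]
      rw [h6]
      linear_combination (v n) * h5 - (u i (n + 1) - v0 * (Li n - a i * Lq n)) * h4 -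
        (v n) * (Li n - a i * Lq n) * hv0

omit [DecidableEq I] in
lemma sh_iter [DecidableEq I] {u : I → ℕ → ℤ_[p]} {v : ℕ → ℤ_[p]} (A : Matrix I I ℤ_[p])
    (h : ∀ i, PP u v (sh 1 (u i) - ∑ j, (fun _ => A i j) * u j)) (k : ℕ) :
    ∀ i, PP u v (sh k (u i) - ∑ j, (fun _ => (A ^ k) i j) * u j) := by
  induction k with
  | zero =>
    intro i
    have e : sh 0 (u i) - ∑ j, (fun _ => (A ^ 0) i j) * u j = 0 := by
      funext n
      simp [Matrix.one_apply]
    rw [e]
    exact PP.zero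
  | succ k ih =>
    intro i
    have h1 := (ih i).sh 1
    have h2 : PP u v (∑ j, (fun _ => (A ^ k) i j) * (sh 1 (u j) -
        ∑ l, (fun _ => A j l) * u l)) := by
      refine PP.sum _ fun j _ => ?_
      rw [mul_comm]
      exact (h j).mul (const_mem u v _)
    have h3 := h1.add h2
    have e : sh 1 (sh k (u i) - ∑ j, (fun _ => (A ^ k) i j) * u j) +
        ∑ j, (fun _ => (A ^ k) i j) * (sh 1 (u j) - ∑ l, (fun _ => A j l) * u l) =
        sh (k + 1) (u i) - ∑ j, (fun _ => (A ^ (k + 1)) i j) * u j := by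
      funext n
      simp only [Pi.add_apply, Pi.sub_apply, sh_apply, Finset.sum_apply, Pi.mul_apply, mul_sub,
        Finset.sum_sub_distrib, pow_succ, Matrix.mul_apply]
      have e1 : ∑ j, (A ^ k) i j * ∑ l, A j l * u l n =
          ∑ l, (∑ j, (A ^ k) i j * A j l) * u l n := by
        simp only [Finset.mul_sum, Finset.sum_mul]
        rw [Finset.sum_comm]
        refine Finset.sum_congr rfl fun l _ => Finset.sum_congr rfl fun j _ => by ring
      rw [e1, show n + 1 + k = n + (k + 1) by ring]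
      ring
    rw [← e]
    exact h3

/-- **The times in an arithmetic progression.** -/
theorem orbit_dd (q : MvPolynomial I A0) (Φ : I → MvPolynomial I A0) (a : I → ℤ_[p])
    (v0 : ℤ_[p]) (hv0 : aeval a q * v0 = 1) (hfix : ∀ i, aeval a q * a i = aeval a (Φ i)) :
    ∃ k : ℕ, 0 < k ∧ ∀ (x : ℕ → I → ℤ_[p]) (v : ℕ → ℤ_[p]), (∀ n i, (p : ℤ_[p]) ∣ x n i - a i) →
      (∀ n, aeval (x n) q * v n = 1) →
      (∀ n i, aeval (x n) q * x (n + 1) i = aeval (x n) (Φ i)) →
      ∀ (h : MvPolynomial I A0) (j i n : ℕ),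
        (p : ℤ_[p]) ^ j ∣ dd^[j] (fun n => aeval (x (k * n + i)) h * v (k * n + i)) n := by
  obtain ⟨k, hk, hA⟩ := exists_pow_mod (linA q Φ a v0)
  refine ⟨k, hk, fun x v hxa hv hx h j i n => ?_⟩
  choose u' hu' using hxa
  set u : I → ℕ → ℤ_[p] := fun i n => u' n i with hu
  have hxu : ∀ n i, x n i = a i + p * u i n := fun n i => by rw [← hu' n i]; ring
  obtain ⟨⟨w, hw, hqw⟩, h1⟩ := step q Φ a v0 hv0 hfix x v u hxu hv hx
  have h2 : ∀ i, PP u v (sh (2 * k) (u i) - sh k (u i)) := by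
    intro i
    have h3 := (sh_iter _ h1 (2 * k) i).sub (sh_iter _ h1 k i)
    have h4 : PP u v (∑ j, (fun _ => (linA q Φ a v0 ^ (2 * k)) i j -
        (linA q Φ a v0 ^ k) i j) * u j) := by
      refine PP.sum _ fun j _ => ?_
      obtain ⟨c, hc⟩ := hA i j
      refine ⟨(fun _ => c) * u j, (CC u v).mul_mem (const_mem u v _) (u_mem u v j), ?_⟩
      funext n
      simp only [Pi.mul_apply, hc, mul_assoc]
    have h5 := h3.add h4
    have e : sh (2 * k) (u i) - ∑ j, (fun _ => (linA q Φ a v0 ^ (2 * k)) i j) * u j -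
        (sh k (u i) - ∑ j, (fun _ => (linA q Φ a v0 ^ k) i j) * u j) +
        ∑ j, (fun _ => (linA q Φ a v0 ^ (2 * k)) i j - (linA q Φ a v0 ^ k) i j) * u j =
        sh (2 * k) (u i) - sh k (u i) := by
      funext n
      simp only [Pi.add_apply, Pi.sub_apply, sh_apply, Finset.sum_apply, Pi.mul_apply, sub_mul,
        Finset.sum_sub_distrib]
      ring
    rw [← e]
    exact h5
  have hv' : (fun n => (aeval a q + p * w n) * v n) = 1 := by
    funext n
    rw [← hqw, hv]
    rfl
  have h3 : ∀ y ∈ CC u v, PP u v (sh (2 * k) y - sh k y) := fun y hy => dS_mem k h2 hw hv' hy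
  have hmem : (fun n => aeval (x n) h * v n) ∈ CC u v := by
    have e : (fun n => aeval (x n) h) ∈ CC u v := by
      have hX : ∀ i, (fun n => x n i) ∈ CC u v := by
        intro i
        have e1 : (fun n => x n i) = (fun _ => a i) + (fun _ => (p : ℤ_[p])) * u i := by
          funext n
          simp [hxu]
        rw [e1]
        exact (CC u v).add_mem (const_mem u v _) ((CC u v).mul_mem (const_mem u v _) (u_mem u v i))
      induction h using MvPolynomial.induction_on with
      | C c => simp only [aeval_C]; exact const_mem u v _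
      | add P Q hP hQ =>
        simp only [map_add]
        exact (CC u v).add_mem hP hQ
      | mul_X P i hP =>
        simp only [map_mul, aeval_X]
        exact (CC u v).mul_mem hP (hX i)
    exact (CC u v).mul_mem e (v_mem u v)
  exact dd_dvd k h3 j _ hmem i n

end Pool.Agent.K1H69.DC
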