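import Mathlib
import Pool.Agent.H936R2.Zeros

/-!
Sequences of `p`-adic integers on which the powers of `S ^ 2 - S`, for the shift `S`, are divisible
by high powers of `p`: if such a sequence has only finitely many different terms then it is
eventually constant.
-/

set_option autoImplicit false

namespace Pool.Agent.K1H69.DC

open Finset

variable {p : ℕ} [hp : Fact p.Prime]

/-- `(S ^ 2 - S) a` for the shift `S`. -/
noncomputable def dd (a : ℕ → ℤ_[p]) : ℕ → ℤ_[p] := fun n => a (n + 2) - a (n + 1)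

lemma dd_iter (a : ℕ → ℤ_[p]) (j n : ℕ) : dd^[j] a n = (fwdDiff 1)^[j] a (n + j) := by
  induction j generalizing n with
  | zero => rfl
  | succ j ih =>
    rw [Function.iterate_succ_apply', Function.iterate_succ_apply']
    simp only [dd, fwdDiff, ih]
    rw [show n + 2 + j = n + (j + 1) + 1 by ring, show n + 1 + j = n + (j + 1) by ring]

lemma exists_sep (a : ℕ → ℤ_[p]) (hfin : (Set.range a).Finite) :
    ∃ M : ℕ, ∀ i j, (p : ℤ_[p]) ^ M ∣ a i - a j → a i = a j := by
  classical
  refine ⟨(hfin.toFinset ×ˢ hfin.toFinset).sup fun x => (x.1 - x.2).valuation + 1, fun i j h => ?_⟩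
  by_contra hne
  have h0 : a i - a j ≠ 0 := sub_ne_zero.2 hne
  have h1 := (PadicInt.mem_span_pow_iff_le_valuation _ h0 _).1 (Ideal.mem_span_singleton.2 h)
  have h2 : (a i - a j).valuation + 1 ≤
      (hfin.toFinset ×ˢ hfin.toFinset).sup fun x => (x.1 - x.2).valuation + 1 :=
    Finset.le_sup (f := fun x : ℤ_[p] × ℤ_[p] => (x.1 - x.2).valuation + 1)
      (b := (a i, a j)) (by simp)
  omega

lemma exists_period (a : ℕ → ℤ_[p]) (hfin : (Set.range a).Finite)
    (h : ∀ j n, (p : ℤ_[p]) ^ j ∣ dd^[j] a n) :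
    ∃ q n0 : ℕ, 0 < q ∧ ∀ n, n0 ≤ n → a (n + q) = a n := by
  classical
  obtain ⟨M, hM⟩ := exists_sep a hfin
  have hdet : ∀ N N', M ≤ N → M ≤ N' → (∀ k < M, a (N + k) = a (N' + k)) →
      a (N + M) = a (N' + M) := by
    intro N N' hN hN' hk
    apply hM
    have h1 : ∀ N, M ≤ N → (p : ℤ_[p]) ^ M ∣ (fwdDiff 1)^[M] a N := by
      intro N hN
      have := h M (N - M)
      rwa [dd_iter, Nat.sub_add_cancel hN] at this
    have h2 := dvd_sub (h1 N hN) (h1 N' hN')
    rw [fwdDiff_iter_eq_sum_shift, fwdDiff_iter_eq_sum_shift, ← Finset.sum_sub_distrib,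
      Finset.sum_range_succ, Finset.sum_eq_zero] at h2
    · simpa using h2
    · intro k hk'
      rw [Finset.mem_range] at hk'
      simp [hk k hk']
  have : Finite (Set.range a) := hfin
  obtain ⟨n1, n2, hne, heq⟩ := Finite.exists_ne_map_eq_of_infinite
    (fun n : ℕ => fun k : Fin M => (⟨a (n + M + k), Set.mem_range_self _⟩ : Set.range a))
  wlog hlt : n1 < n2 generalizing n1 n2 with H
  · exact H n2 n1 hne.symm heq.symm (lt_of_le_of_ne (not_lt.1 hlt) hne.symm)
  have hst : ∀ k < M, a (n1 + M + k) = a (n2 + M + k) := by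
    intro k hk
    have := congrFun heq ⟨k, hk⟩
    simpa using congrArg Subtype.val this
  have hall : ∀ i, a (n1 + M + i) = a (n2 + M + i) := by
    intro i
    induction i using Nat.strong_induction_on with
    | _ i ih =>
      by_cases hi : i < M
      · exact hst i hi
      · push Not at hi
        have := hdet (n1 + i) (n2 + i) (by omega) (by omega) (fun k hk => by
          have := ih (i - M + k) (by omega)
          have e1 : n1 + M + (i - M + k) = n1 + i + k := by omega
          have e2 : n2 + M + (i - M + k) = n2 + i + k := by omega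
          rwa [e1, e2] at this)
        have e1 : n1 + i + M = n1 + M + i := by omega
        have e2 : n2 + i + M = n2 + M + i := by omega
        rwa [e1, e2] at this
  refine ⟨n2 - n1, n1 + M, by omega, fun n hn => ?_⟩
  have := hall (n - (n1 + M))
  have e1 : n1 + M + (n - (n1 + M)) = n := by omega
  have e2 : n2 + M + (n - (n1 + M)) = n + (n2 - n1) := by omega
  rw [e1, e2] at this
  exact this.symm

lemma pow_norm_le_factorial (hp3 : 2 < p) (k : ℕ) :
    (p : ℝ) ^ (-((k / 2 : ℕ) : ℤ)) ≤ ‖(k.factorial : ℚ_[p])‖ := by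
  have hk0 : (k.factorial : ℚ_[p]) ≠ 0 := by exact_mod_cast k.factorial_ne_zero
  rw [Padic.norm_eq_zpow_neg_valuation hk0, Padic.valuation_natCast]
  have h1 := sub_one_mul_padicValNat_factorial (p := p) k
  have hp1 : (1 : ℝ) < p := by exact_mod_cast hp.out.one_lt
  apply zpow_le_zpow_right₀ hp1.le
  have h2 : 2 * padicValNat p k.factorial ≤ (p - 1) * padicValNat p k.factorial :=
    Nat.mul_le_mul_right _ (by omega)
  have h3 : padicValNat p k.factorial ≤ k / 2 := by omega
  omega

/-- A sequence with finitely many different terms such that all `(S ^ 2 - S) ^ j a` are divisible by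
`p ^ j` is eventually constant. -/
theorem eventually_const (hp3 : 2 < p) (a : ℕ → ℤ_[p]) (hfin : (Set.range a).Finite)
    (h : ∀ j n, (p : ℤ_[p]) ^ j ∣ dd^[j] a n) : ∃ n0 : ℕ, ∀ n, n0 ≤ n → a n = a n0 := by
  obtain ⟨q, n0, hq, hper⟩ := exists_period a hfin h
  set b : ℕ → ℤ_[p] := fun n => a (n0 + n) with hb
  have hbper : ∀ n i, b (n + q * i) = b n := by
    intro n i
    induction i with
    | zero => simp
    | succ i ih =>
      rw [← ih]
      simp only [hb]
      rw [← hper (n0 + (n + q * i)) (by omega)]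
      congr 1
      ring
  have hbd : ∀ j n, (p : ℤ_[p]) ^ j ∣ (fwdDiff 1)^[j] b n := by
    intro j n
    have h1 : ∀ n, (fwdDiff 1)^[j] b n = (fwdDiff 1)^[j] a (n0 + n) := by
      intro n
      rw [fwdDiff_iter_eq_sum_shift, fwdDiff_iter_eq_sum_shift]
      simp only [hb, add_assoc]
    have h2 : (fwdDiff 1)^[j] b n = (fwdDiff 1)^[j] b (n + q * j) := by
      rw [fwdDiff_iter_eq_sum_shift, fwdDiff_iter_eq_sum_shift]
      refine Finset.sum_congr rfl fun k _ => ?_
      rw [show n + q * j + k • 1 = n + k • 1 + q * j by ring, hbper]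
    have h3 : j ≤ n + q * j := by nlinarith
    have h4 := h j (n0 + (n + q * j - j))
    rw [dd_iter] at h4
    rw [h2, h1]
    convert h4 using 2
    omega
  choose c hc using fun j => hbd j 0
  have hnewton : ∀ n, ((b n - b 0 : ℤ_[p]) : ℚ_[p]) = ∑ k ∈ range (n + 1),
      (if k = 0 then 0 else ((p : ℚ_[p]) ^ k * (c k : ℚ_[p]) / (k.factorial : ℚ_[p]))) *
        (n.descFactorial k : ℚ_[p]) := by
    intro n
    have h1 : b (0 + n • 1) = ∑ k ∈ range (n + 1), n.choose k • (fwdDiff 1)^[k] b 0 :=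
      shift_eq_sum_fwdDiff_iter 1 b n 0
    rw [zero_add, smul_eq_mul, mul_one] at h1
    rw [Finset.sum_range_succ'] at h1 ⊢
    simp only [Function.iterate_zero, id_eq, Nat.choose_zero_right, one_smul] at h1
    rw [h1]
    simp only [if_true, zero_mul, add_zero, add_sub_cancel_right, Nat.succ_ne_zero, if_false]
    change PadicInt.Coe.ringHom (∑ k ∈ range n, n.choose (k + 1) • (fwdDiff 1)^[k + 1] b 0) = _
    rw [map_sum]
    refine Finset.sum_congr rfl fun k _ => ?_
    change ((n.choose (k + 1) • (fwdDiff 1)^[k + 1] b 0 : ℤ_[p]) : ℚ_[p]) = _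
    rw [hc, Nat.descFactorial_eq_factorial_mul_choose, nsmul_eq_mul]
    have : ((k + 1).factorial : ℚ_[p]) ≠ 0 := by exact_mod_cast (k + 1).factorial_ne_zero
    push_cast
    field_simp
  have hz := Pool.Agent.H936R2.newton_zero (K := ℚ_[p]) _ _ hnewton ?_ ?_
  · refine ⟨n0, fun n hn => ?_⟩
    have h1 := hz (n - n0)
    have h2 : b (n - n0) - b 0 = 0 := PadicInt.coe_eq_zero.1 h1
    have h3 := sub_eq_zero.1 h2
    simp only [hb, add_zero] at h3
    rwa [Nat.add_sub_cancel' hn] at h3
  · have hp1 : (1 : ℝ) < p := by exact_mod_cast hp.out.one_lt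
    rw [tendsto_zero_iff_norm_tendsto_zero]
    have hg : Filter.Tendsto (fun k : ℕ => ((p : ℝ)⁻¹) ^ (k / 2)) Filter.atTop (nhds 0) :=
      (tendsto_pow_atTop_nhds_zero_of_lt_one (by positivity)
        (inv_lt_one_of_one_lt₀ hp1)).comp (Nat.tendsto_div_const_atTop (by norm_num))
    refine squeeze_zero (fun _ => norm_nonneg _) (fun k => ?_) hg
    by_cases hk : k = 0
    · simp [hk]
    · rw [if_neg hk, norm_div, norm_mul, norm_pow, Padic.norm_p]
      have h1 := pow_norm_le_factorial hp3 k
      have hk0 : 0 < ‖(k.factorial : ℚ_[p])‖ := by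
        rw [norm_pos_iff]; exact_mod_cast k.factorial_ne_zero
      rw [div_le_iff₀ hk0]
      have h2 : ‖((c k : ℤ_[p]) : ℚ_[p])‖ ≤ 1 := PadicInt.norm_le_one _
      have h3 : ((p : ℝ)⁻¹) ^ k * ‖((c k : ℤ_[p]) : ℚ_[p])‖ ≤ ((p : ℝ)⁻¹) ^ k :=
        mul_le_of_le_one_right (by positivity) h2
      refine h3.trans ?_
      have h4 : ((p : ℝ)⁻¹) ^ k ≤ ((p : ℝ)⁻¹) ^ (k / 2) * ((p : ℝ)⁻¹) ^ (k / 2) := by
        rw [← pow_add]
        exact pow_le_pow_of_le_one (by positivity) (inv_le_one_of_one_le₀ hp1.le) (by omega)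
      refine h4.trans (mul_le_mul_of_nonneg_left ?_ (by positivity))
      rw [zpow_neg, zpow_natCast, ← inv_pow] at h1
      exact h1
  · have hinj : Function.Injective fun i : ℕ => q * i := fun i j hij => by
      simpa [hq.ne'] using hij
    refine (Set.infinite_range_of_injective hinj).mono ?_
    rintro _ ⟨i, rfl⟩
    have := hbper 0 i
    rw [zero_add] at this
    simp [this]

end Pool.Agent.K1H69.DC
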