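import Pool.Agent.K1H69.DC.Lin

/-!
Taylor series of analytic functions as formal power series, and compositions.
-/

set_option autoImplicit false

namespace Pool.Agent.K1H69.DC

open PowerSeries Finset Topology

/-- Taylor series at zero -/
noncomputable def tay (f : ℂ → ℂ) : PowerSeries ℂ :=
  PowerSeries.mk fun n => iteratedDeriv n f 0 / (n.factorial : ℂ)

lemma coeff_tay (f : ℂ → ℂ) (n : ℕ) :
    coeff n (tay f) = iteratedDeriv n f 0 / (n.factorial : ℂ) := by
  rw [tay, coeff_mk]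

lemma tay_congr {f g : ℂ → ℂ} (h : f =ᶠ[𝓝 0] g) : tay f = tay g := by
  ext n
  rw [coeff_tay, coeff_tay, h.iteratedDeriv_eq]

lemma tay_mul {f g : ℂ → ℂ} (hf : AnalyticAt ℂ f 0) (hg : AnalyticAt ℂ g 0) :
    tay (fun z => f z * g z) = tay f * tay g := by
  ext n
  rw [coeff_tay, iteratedDeriv_fun_mul hf.contDiffAt hg.contDiffAt, PowerSeries.coeff_mul,
    Finset.Nat.sum_antidiagonal_eq_sum_range_succ_mk, sum_div]
  apply sum_congr rfl; intro i hi
  have hi' : i ≤ n := by simpa [Nat.lt_succ_iff] using hi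
  rw [coeff_tay, coeff_tay]
  have h1 : (n.choose i : ℂ) * (i.factorial : ℂ) * ((n-i).factorial : ℂ) = (n.factorial : ℂ) := by
    exact_mod_cast Nat.choose_mul_factorial_mul_factorial hi'
  have h2 : (i.factorial : ℂ) ≠ 0 := by exact_mod_cast i.factorial_ne_zero
  have h3 : ((n-i).factorial : ℂ) ≠ 0 := by exact_mod_cast (n-i).factorial_ne_zero
  have h4 : (n.factorial : ℂ) ≠ 0 := by exact_mod_cast n.factorial_ne_zero
  field_simp
  rw [← h1]; ring

lemma tay_add {f g : ℂ → ℂ} (hf : AnalyticAt ℂ f 0) (hg : AnalyticAt ℂ g 0) :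
    tay (fun z => f z + g z) = tay f + tay g := by
  ext n
  rw [coeff_tay, iteratedDeriv_fun_add hf.contDiffAt hg.contDiffAt, map_add, coeff_tay, coeff_tay,
    add_div]

lemma tay_const (c : ℂ) : tay (fun _ => c) = PowerSeries.C c := by
  ext n
  rw [coeff_tay, coeff_C, iteratedDeriv_const]
  by_cases h : n = 0
  · subst h; simp
  · simp [h]

lemma tay_id : tay (fun z => z) = X := by
  ext n
  rw [coeff_tay, coeff_X, iteratedDeriv_fun_id_zero]
  by_cases h : n = 1
  · subst h; simp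
  · simp [h]

lemma tay_zero (f : ℂ → ℂ) : constantCoeff (tay f) = f 0 := by
  rw [← coeff_zero_eq_constantCoeff_apply, coeff_tay]; simp

lemma tay_one (f : ℂ → ℂ) : coeff 1 (tay f) = deriv f 0 := by
  rw [coeff_tay]; simp

lemma tay_sub {f g : ℂ → ℂ} (hf : AnalyticAt ℂ f 0) (hg : AnalyticAt ℂ g 0) :
    tay (fun z => f z - g z) = tay f - tay g := by
  ext n
  rw [coeff_tay, iteratedDeriv_fun_sub hf.contDiffAt hg.contDiffAt, map_sub, coeff_tay, coeff_tay,
    sub_div]

/-- A function with zero Taylor series vanishes near zero. -/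
lemma tay_eq_zero {f : ℂ → ℂ} (hf : AnalyticAt ℂ f 0) (h : tay f = 0) : ∀ᶠ z in 𝓝 0, f z = 0 := by
  obtain ⟨r, hr, hd⟩ := Metric.eventually_nhds_iff_ball.1 hf.eventually_analyticAt
  have hdiff : DifferentiableOn ℂ f (Metric.ball 0 r) := fun z hz =>
    (hd z hz).differentiableAt.differentiableWithinAt
  filter_upwards [Metric.ball_mem_nhds (0 : ℂ) hr] with z hz
  rw [← Complex.taylorSeries_eq_on_ball' hz hdiff]
  have h1 : ∀ n : ℕ, iteratedDeriv n f 0 = 0 := by
    intro n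
    have h2 := congrArg (coeff n) h
    rw [coeff_tay, map_zero] at h2
    have h4 : (n.factorial : ℂ) ≠ 0 := by exact_mod_cast n.factorial_ne_zero
    exact (div_eq_zero_iff.1 h2).resolve_right h4
  simp [h1]

lemma tay_pow {f : ℂ → ℂ} (hf : AnalyticAt ℂ f 0) (n : ℕ) :
    tay (fun z => f z ^ n) = tay f ^ n := by
  induction n with
  | zero =>
    simp only [pow_zero]
    rw [tay_const, map_one]
  | succ n ih =>
    simp only [pow_succ]
    rw [tay_mul (hf.fun_pow n) hf, ih]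

lemma an_pow (d : ℕ) : AnalyticAt ℂ (fun z : ℂ => z ^ d) 0 :=
  (analyticAt_id (𝕜 := ℂ) (z := (0 : ℂ))).fun_pow d

lemma tay_monomial (d : ℕ) : tay (fun z : ℂ => z ^ d) = X ^ d := by
  rw [tay_pow (f := fun z => z) analyticAt_id, tay_id]

lemma an_term (c : ℂ) {f : ℂ → ℂ} (hf : AnalyticAt ℂ f 0) (d : ℕ) :
    AnalyticAt ℂ (fun z : ℂ => c * f z ^ d) 0 :=
  (analyticAt_const (v := c)).fun_mul (hf.fun_pow d)

lemma tay_term (c : ℂ) {f : ℂ → ℂ} (hf : AnalyticAt ℂ f 0) (d : ℕ) :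
    tay (fun z : ℂ => c * f z ^ d) = C c * tay f ^ d := by
  rw [tay_mul analyticAt_const (hf.fun_pow d), tay_const, tay_pow hf]

lemma an_sum (c : ℕ → ℂ) {f : ℂ → ℂ} (hf : AnalyticAt ℂ f 0) (s : Finset ℕ) :
    AnalyticAt ℂ (fun z : ℂ => ∑ d ∈ s, c d * f z ^ d) 0 :=
  Finset.analyticAt_fun_sum _ fun d _ => an_term (c d) hf d

lemma tay_sum (c : ℕ → ℂ) {f : ℂ → ℂ} (hf : AnalyticAt ℂ f 0) (s : Finset ℕ) :
    tay (fun z : ℂ => ∑ d ∈ s, c d * f z ^ d) = ∑ d ∈ s, C (c d) * tay f ^ d := by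
  induction s using Finset.induction_on with
  | empty =>
    simp only [Finset.sum_empty]
    rw [tay_const, map_zero]
  | insert d s hd ih =>
    simp only [Finset.sum_insert hd]
    rw [tay_add (an_term (c d) hf d) (an_sum c hf s), ih, tay_term (c d) hf d]

/-- Taylor expansion with remainder. -/
lemma tay_expand {f : ℂ → ℂ} (hf : AnalyticAt ℂ f 0) (n : ℕ) :
    ∃ g : ℂ → ℂ, AnalyticAt ℂ g 0 ∧ ∀ᶠ z in 𝓝 0, f z =
      ∑ d ∈ Finset.range n, coeff d (tay f) * z ^ d + z ^ n * g z := by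
  induction n with
  | zero => exact ⟨f, hf, Filter.Eventually.of_forall fun z => by simp⟩
  | succ n ih =>
    obtain ⟨g, hg, hfg⟩ := ih
    obtain ⟨g', hg', hgg'⟩ : ∃ g' : ℂ → ℂ, AnalyticAt ℂ g' 0 ∧
        ∀ z, g z = g 0 + z * g' z := by
      refine ⟨dslope g 0, ?_, fun z => ?_⟩
      · obtain ⟨p, hp⟩ := hg
        exact ⟨_, hp.has_fpower_series_dslope_fslope⟩
      · have h1 := sub_smul_dslope g 0 z
        rw [sub_zero, smul_eq_mul] at h1
        rw [h1]; ring
    refine ⟨g', hg', ?_⟩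
    have h1 : tay f = tay (fun z => (∑ d ∈ Finset.range n, coeff d (tay f) * z ^ d) +
        z ^ n * g z) := tay_congr hfg
    have h2 : coeff n (tay f) = g 0 := by
      have h3 : tay (fun z : ℂ => z ^ n * g z) = X ^ n * tay g := by
        rw [tay_mul (an_pow n) hg, tay_monomial]
      have h4 := tay_sum (fun d => coeff d (tay f)) (f := fun z => z) analyticAt_id
        (Finset.range n)
      rw [tay_id] at h4
      have h7 : AnalyticAt ℂ (fun z : ℂ => ∑ d ∈ Finset.range n, coeff d (tay f) * z ^ d) 0 :=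
        an_sum (fun d => coeff d (tay f)) (f := fun z => z) analyticAt_id (Finset.range n)
      rw [h1, tay_add h7 ((an_pow n).fun_mul hg), h3, h4, map_add, map_sum]
      have h5 : ∑ d ∈ Finset.range n, coeff n (C (coeff d (tay f)) * X ^ d) = 0 := by
        refine Finset.sum_eq_zero fun d hd => ?_
        rw [coeff_C_mul, coeff_X_pow, if_neg (by have := Finset.mem_range.1 hd; omega), mul_zero]
      have h6 := coeff_X_pow_mul (tay g) n 0
      rw [zero_add] at h6
      rw [h5, zero_add, h6, coeff_zero_eq_constantCoeff_apply, tay_zero]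
    filter_upwards [hfg] with z hz
    rw [hz, Finset.sum_range_succ, h2]
    conv_lhs => rw [hgg' z]
    ring

/-- **Composition.** -/
lemma tay_comp {f a : ℂ → ℂ} (hf : AnalyticAt ℂ f 0) (ha : AnalyticAt ℂ a 0) (ha0 : a 0 = 0) :
    tay (fun z => f (a z)) = ((tay f).subst (tay a) : PowerSeries ℂ) := by
  have hc : constantCoeff (tay a) = 0 := by rw [tay_zero, ha0]
  ext n
  rw [coeff_subst_range hc]
  obtain ⟨g, hg, hfg⟩ := tay_expand hf (n + 1)
  have hcont : Filter.Tendsto a (𝓝 0) (𝓝 0) := by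
    have := ha.continuousAt
    rw [ContinuousAt, ha0] at this
    exact this
  have h1 : ∀ᶠ z in 𝓝 0, f (a z) = ∑ d ∈ Finset.range (n + 1), coeff d (tay f) * (a z) ^ d +
      (a z) ^ (n + 1) * g (a z) := hcont.eventually hfg
  have hga : AnalyticAt ℂ (fun z => g (a z)) 0 := by
    have hg' : AnalyticAt ℂ g (a 0) := by rw [ha0]; exact hg
    exact hg'.comp ha
  rw [tay_congr h1, tay_add (an_sum _ ha _) ((ha.fun_pow (n + 1)).fun_mul hga),
    tay_sum (fun d => coeff d (tay f)) ha,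
    tay_mul (ha.fun_pow (n + 1)) hga, tay_pow ha, map_add, map_sum]
  have h6 : coeff n (tay a ^ (n + 1) * tay (fun z => g (a z))) = 0 := by
    obtain ⟨b, hb⟩ := X_dvd_iff.2 hc
    rw [hb, mul_pow, mul_assoc]
    exact X_pow_dvd_iff.1 (Dvd.intro _ rfl) n (Nat.lt_succ_self n)
  rw [h6, add_zero]
  exact Finset.sum_congr rfl fun d _ => coeff_C_mul _ _ _

end Pool.Agent.K1H69.DC
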